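import Pool.Agent.KSF.Defs

/-!
# KSF HOMG: factors of forms are forms, primitive part

`homog_of_mul`: substitute `X i ↦ X i * z` with a new variable `z` (a ring homomorphism to
`Polynomial (MvPolynomial σ E)`, `p ↦ ∑ j, (homogeneousComponent j p) z^j`): the image of `p * q` is the
monomial `(p * q) z^k`; over a domain the factors of a monomial in `z` are monomials
(`natDegree` and `natTrailingDegree` are additive). Or compare the components of lowest and highest degree.
`homog_of_scale`: the component `p_j` of degree `j` satisfies `c^(e j) p_j = c^k p_j` for all `c ≠ 0`; if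
`p_j ≠ 0`, then `e j = k` (`E` infinite: otherwise `X^(e j) - X^k` has only finitely many roots).
`exists_prim`: `g` = gcd of the coefficients of `Q` (`MvPolynomial (Fin (d+1)) E` is a UFD;
`UniqueFactorizationMonoid.toGCDMonoid`, `Finset.gcd` / `Finset.extract_gcd`); `P` = quotient; `g` and the
coefficients of `P` are forms by `homog_of_mul`, the degree of `g ≠ 0` is unique. `Prim P`: if
`c ∣ h * P.coeff α` for all `α`, then `c` divides the gcd of these products, which is associated to `h`
(`Finset.gcd_mul_left`, the gcd of the coefficients of `P` is a unit).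
-/

set_option autoImplicit false

open MvPolynomial

namespace Pool.Agent.KSF

variable {E : Type*} [Field E]

/-- the substitution `X i ↦ X i * z` -/
private noncomputable def hz (E : Type*) [Field E] (σ : Type*) :
    MvPolynomial σ E →+* Polynomial (MvPolynomial σ E) :=
  eval₂Hom (Polynomial.C.comp MvPolynomial.C) (fun i => Polynomial.C (X i) * Polynomial.X)

private theorem hz_monomial {σ : Type*} (d : σ →₀ ℕ) (c : E) :
    hz E σ (monomial d c) = Polynomial.C (monomial d c) * Polynomial.X ^ d.degree := by
  rw [hz, coe_eval₂Hom, eval₂_monomial, Finsupp.prod]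
  have h1 : (monomial d c : MvPolynomial σ E) = C c * ∏ i ∈ d.support, X i ^ d i := by
    rw [monomial_eq]
    rfl
  rw [h1, map_mul, map_prod]
  simp only [mul_pow, Finset.prod_mul_distrib, Finset.prod_pow_eq_pow_sum, map_pow,
    RingHom.comp_apply]
  rw [mul_assoc]
  rfl

private theorem hz_coeff {σ : Type*} (p : MvPolynomial σ E) (j : ℕ) :
    (hz E σ p).coeff j = homogeneousComponent j p := by
  induction p using MvPolynomial.induction_on' with
  | monomial d c =>
    rw [hz_monomial, Polynomial.coeff_C_mul, Polynomial.coeff_X_pow]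
    have h1 : (monomial d c : MvPolynomial σ E).IsHomogeneous d.degree :=
      isHomogeneous_monomial c rfl
    rw [homogeneousComponent_of_mem h1]
    by_cases h : j = d.degree
    · rw [if_pos h, if_pos h, mul_one]
    · rw [if_neg h, if_neg h, mul_zero]
  | add p q hp hq => rw [map_add, Polynomial.coeff_add, hp, hq, map_add]

private theorem hz_hom {σ : Type*} {p : MvPolynomial σ E} {k : ℕ} (h : p.IsHomogeneous k) :
    hz E σ p = Polynomial.C p * Polynomial.X ^ k := by
  ext1 j
  rw [hz_coeff, homogeneousComponent_of_mem h, Polynomial.coeff_C_mul, Polynomial.coeff_X_pow]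
  by_cases h : j = k
  · rw [if_pos h, if_pos h, mul_one]
  · rw [if_neg h, if_neg h, mul_zero]

private theorem hom_of_hz {σ : Type*} {p : MvPolynomial σ E}
    (h : (hz E σ p).natTrailingDegree = (hz E σ p).natDegree) :
    p.IsHomogeneous (hz E σ p).natDegree := by
  have h1 : p = homogeneousComponent (hz E σ p).natDegree p := by
    conv_lhs => rw [← sum_homogeneousComponent p]
    by_cases hp : p = 0
    · subst hp
      simp
    rw [Finset.sum_eq_single (hz E σ p).natDegree]
    · intro j _ hj
      rw [← hz_coeff]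
      rcases lt_or_gt_of_ne hj with hlt | hgt
      · exact Polynomial.coeff_eq_zero_of_lt_natTrailingDegree (by rw [h]; exact hlt)
      · exact Polynomial.coeff_eq_zero_of_natDegree_lt hgt
    · intro hn
      rw [Finset.mem_range] at hn
      refine homogeneousComponent_eq_zero _ _ (by omega)
  rw [h1]
  have h2 := homogeneousComponent_isHomogeneous (hz E σ p).natDegree p
  rwa [← h1] at h2 ⊢

theorem homog_of_mul {σ : Type*} (p q : MvPolynomial σ E) (k : ℕ) (h : (p * q).IsHomogeneous k)
    (h0 : p * q ≠ 0) : ∃ i j, i + j = k ∧ p.IsHomogeneous i ∧ q.IsHomogeneous j := by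
  have h1 := hz_hom h
  have hne : hz E σ (p * q) ≠ 0 := by
    rw [h1]
    exact mul_ne_zero (by simpa using h0) (pow_ne_zero _ Polynomial.X_ne_zero)
  have hd : (hz E σ (p * q)).natDegree = k := by
    rw [h1, Polynomial.natDegree_C_mul_X_pow _ _ h0]
  have ht : (hz E σ (p * q)).natTrailingDegree = k := by
    rw [h1, Polynomial.C_mul_X_pow_eq_monomial, Polynomial.natTrailingDegree_monomial h0]
  rw [map_mul] at hd ht hne
  have hp : hz E σ p ≠ 0 := left_ne_zero_of_mul hne
  have hq : hz E σ q ≠ 0 := right_ne_zero_of_mul hne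
  rw [Polynomial.natDegree_mul hp hq] at hd
  rw [Polynomial.natTrailingDegree_mul hp hq] at ht
  have h2 := Polynomial.natTrailingDegree_le_natDegree (hz E σ p)
  have h3 := Polynomial.natTrailingDegree_le_natDegree (hz E σ q)
  exact ⟨_, _, hd, hom_of_hz (by omega), hom_of_hz (by omega)⟩

private theorem coeff_scale {σ : Type*} (p : MvPolynomial σ E) (a : E) (d : σ →₀ ℕ) :
    coeff d (bind₁ (fun i => C a * X i) p) = a ^ d.degree * coeff d p := by
  classical
  induction p using MvPolynomial.induction_on' with
  | monomial d' c =>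
    rw [bind₁_monomial]
    have h1 : (C c * ∏ i ∈ d'.support, (C a * X i) ^ d' i : MvPolynomial σ E) =
        C (a ^ d'.degree) * monomial d' c := by
      rw [monomial_eq (s := d')]
      simp only [mul_pow, Finset.prod_mul_distrib, ← map_pow]
      rw [← map_prod, Finset.prod_pow_eq_pow_sum]
      rw [Finsupp.prod]
      have h2 : ∑ i ∈ d'.support, d' i = d'.degree := rfl
      rw [h2]
      ring
    rw [h1, coeff_C_mul, coeff_monomial]
    by_cases h : d' = d
    · rw [if_pos h, h]
    · rw [if_neg h, mul_zero, mul_zero]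
  | add p q hp hq => rw [map_add, coeff_add, hp, hq, coeff_add, mul_add]

private theorem pow_inj_of_infinite [Infinite E] {n k : ℕ}
    (h : ∀ c : E, c ≠ 0 → c ^ n = c ^ k) : n = k := by
  wlog hnk : n ≤ k generalizing n k
  · exact (this (fun c hc => (h c hc).symm) (by omega)).symm
  by_contra hne
  have h1 : (Polynomial.X ^ (k - n) - 1 : Polynomial E) ≠ 0 := by
    intro h0
    have h2 := congrArg Polynomial.natDegree (sub_eq_zero.1 h0)
    rw [Polynomial.natDegree_X_pow, Polynomial.natDegree_one] at h2
    omega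
  have h2 : {c : E | c ≠ 0} ⊆ {c | (Polynomial.X ^ (k - n) - 1 : Polynomial E).IsRoot c} := by
    intro c hc
    rw [Set.mem_setOf_eq, Polynomial.IsRoot.def, Polynomial.eval_sub, Polynomial.eval_pow,
      Polynomial.eval_X, Polynomial.eval_one, sub_eq_zero]
    have h3 := h c hc
    have h4 : c ^ n * c ^ (k - n) = c ^ n * 1 := by
      rw [mul_one, ← pow_add, Nat.add_sub_cancel' hnk, h3]
    exact mul_left_cancel₀ (pow_ne_zero _ hc) h4
  have h3 : {c : E | c ≠ 0}.Finite := (Polynomial.finite_setOf_isRoot h1).subset h2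
  have h4 : {c : E | c ≠ 0}.Infinite := by
    have : {c : E | c ≠ 0} = ({0} : Set E)ᶜ := rfl
    rw [this]
    exact (Set.finite_singleton (0 : E)).infinite_compl
  exact h4 h3

theorem homog_of_scale [Infinite E] {σ : Type*} (p : MvPolynomial σ E) (e k : ℕ) (he : 1 ≤ e)
    (h : ∀ c : E, c ≠ 0 → bind₁ (fun i => C (c ^ e) * X i) p = C (c ^ k) * p) :
    p.IsHomogeneous (k / e) := by
  intro d hd
  have h1 : ∀ c : E, c ≠ 0 → c ^ (e * d.degree) = c ^ k := by
    intro c hc
    have h2 := congrArg (coeff d) (h c hc)
    rw [coeff_scale, coeff_C_mul, ← pow_mul] at h2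
    exact mul_right_cancel₀ hd h2
  have h2 : e * d.degree = k := pow_inj_of_infinite h1
  have h3 : Finsupp.weight (1 : σ → ℕ) d = d.degree := by
    rw [Finsupp.weight_apply, Finsupp.sum]
    simp [Finsupp.degree_apply]
  rw [h3, ← h2, Nat.mul_div_cancel_left _ (by omega)]

theorem exists_prim {d : ℕ} {V : Type*} (Q : MvPolynomial V (MvPolynomial (Fin (d + 1)) E))
    (hQ : Q ≠ 0) (k m : ℕ) (hk : CoeffHom k Q) (hm : Q.IsHomogeneous m) :
    ∃ (g : MvPolynomial (Fin (d + 1)) E) (P : MvPolynomial V (MvPolynomial (Fin (d + 1)) E))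
      (e' : ℕ), g ≠ 0 ∧ Q = C g * P ∧ Prim P ∧ CoeffHom e' P ∧ P.IsHomogeneous m := by
  classical
  letI : NormalizationMonoid (MvPolynomial (Fin (d + 1)) E) :=
    (UniqueFactorizationMonoid.strongNormalizationMonoid).toNormalizationMonoid
  letI : NormalizedGCDMonoid (MvPolynomial (Fin (d + 1)) E) :=
    UniqueFactorizationMonoid.toNormalizedGCDMonoid _
  have hne : Q.support.Nonempty := by
    rw [Finset.nonempty_iff_ne_empty]
    intro h
    exact hQ (support_eq_empty.1 h)
  obtain ⟨g', hg', hone⟩ := Finset.extract_gcd (s := Q.support) (fun α => Q.coeff α) hne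
  set g := Q.support.gcd (fun α => Q.coeff α) with hg
  obtain ⟨α₀, hα₀⟩ := hne
  have hg0 : g ≠ 0 := by
    intro h
    have h1 := hg' α₀ hα₀
    rw [h, zero_mul] at h1
    exact mem_support_iff.1 hα₀ h1
  set P : MvPolynomial V (MvPolynomial (Fin (d + 1)) E) :=
    ∑ α ∈ Q.support, monomial α (g' α) with hP
  have hPc : ∀ α, P.coeff α = if α ∈ Q.support then g' α else 0 := by
    intro α
    rw [hP, coeff_sum]
    simp only [coeff_monomial, Finset.sum_ite_eq']
  have hQP : Q = C g * P := by
    ext1 α
    rw [coeff_C_mul, hPc]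
    by_cases h : α ∈ Q.support
    · rw [if_pos h, hg' α h]
    · rw [if_neg h, mul_zero]
      exact notMem_support_iff.1 h
  have hdeg : ∀ α ∈ Q.support, ∃ i j, i + j = k ∧ g.IsHomogeneous i ∧ (g' α).IsHomogeneous j := by
    intro α hα
    refine homog_of_mul g (g' α) k ?_ ?_
    · rw [← hg' α hα]
      exact hk α
    · rw [← hg' α hα]
      exact mem_support_iff.1 hα
  obtain ⟨i₀, j₀, hij₀, hgi₀, -⟩ := hdeg α₀ hα₀
  refine ⟨g, P, k - i₀, hg0, hQP, ?_, ?_, ?_⟩
  · intro c h hc
    have h1 : c ∣ Q.support.gcd (fun α => h * g' α) := by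
      refine Finset.dvd_gcd fun α hα => ?_
      have := hc α
      rwa [hPc, if_pos hα] at this
    have h2 := Finset.gcd_mul_left' (s := Q.support) (f := g') h
    rw [hone, mul_one] at h2
    exact h1.trans h2.dvd
  · intro α
    rw [hPc]
    by_cases h : α ∈ Q.support
    · rw [if_pos h]
      obtain ⟨i, j, hij, hgi, hj⟩ := hdeg α h
      have : i = i₀ := hgi.inj_right hgi₀ hg0
      have h2 : k - i₀ = j := by omega
      rw [h2]
      exact hj
    · rw [if_neg h]
      exact isHomogeneous_zero _ _ _
  · intro α hα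
    have h1 : α ∈ Q.support := by
      by_contra h
      rw [hPc, if_neg h] at hα
      exact hα rfl
    exact hm (mem_support_iff.1 h1)

end Pool.Agent.KSF
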