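import Pool.Agent.KSF.Defs
import Pool.Agent.Helper63.WH.Abnd

/-!
# KSF GAL: invariance of heights and arithmetic degrees under automorphisms

`absHeight_ringEquiv`: `absHeight_eq` (`Helper63/WH/Ext.lean`) for the number field
`L = adjoin ℚ (range z)` with the embeddings `L → E` and `σ ∘ (L → E)`.
`IsConj` passes to the images under `f`: the forms `G` over `K` satisfy
`aeval (c • σ z) (G s w) = c ^ e * σ (aeval z (G s w))`; choose `s, w` with `aeval (seg x) (G s w) ≠ 0`:
`seg (f x')` is proportional to the values of `G s` at `seg x'`, which are proportional to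
`σ (seg (f x))`.
-/

set_option autoImplicit false

open MvPolynomial
open scoped LinearAlgebra.Projectivization

namespace Pool.Agent.KSF

open Pool.Agent.Helper90.KSC Pool.Agent.Helper63.SAND Pool.Agent.Helper63.WH

section

variable {E : Type*} [Field E] [CharZero E]

/-- `f` is a morphism on `X` defined over the subfield `K`: it is given locally by forms of some
degree `e` in the Segre coordinates with coefficients in `K`. -/
def LocallyOver {ι : Type*} [Fintype ι] {N : ι → ℕ} (K : IntermediateField ℚ E)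
    (X : Set (PPt E N)) (f : PPt E N → PPt E N) : Prop :=
  ∃ (e t : ℕ) (G : Fin t → SIx N → MvPolynomial (SIx N) K),
    (∀ s w, (G s w).IsHomogeneous e) ∧
    (∀ s, ∀ x ∈ X, ∃ c : E, ∀ w, aeval (seg x) (G s w) = c * seg (f x) w) ∧
    ∀ x ∈ X, ∃ s w, aeval (seg x) (G s w) ≠ 0

/-- `x'` is the image of the point `x` under the automorphism `σ` of the field: the Segre
coordinates of `x'` are proportional to the images of those of `x`. -/
def IsConj {ι : Type*} [Fintype ι] {N : ι → ℕ} (σ : E ≃+* E) (x x' : PPt E N) : Prop :=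
  ∃ c : E, c ≠ 0 ∧ ∀ w, seg x' w = c * σ (seg x w)

theorem absHeight_ringEquiv [Algebra.IsAlgebraic ℚ E] {κ : Type*} [Finite κ] (σ : E ≃+* E)
    (z : κ → E) : absHeight (fun i => σ (z i)) = absHeight z := by
  by_cases hz : z = 0
  · subst hz
    congr 1
    funext i
    simp
  haveI hfd : FiniteDimensional ℚ (fld z) :=
    IntermediateField.finiteDimensional_adjoin fun x _ =>
      (Algebra.IsAlgebraic.isAlgebraic (R := ℚ) x).isIntegral
  haveI hnf : NumberField (fld z) :=
    { to_charZero := inferInstance, to_finiteDimensional := hfd }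
  set y : κ → fld z := fun i => ⟨z i, IntermediateField.subset_adjoin ℚ _ ⟨i, rfl⟩⟩ with hy
  have hy0 : y ≠ 0 := by
    intro h
    apply hz
    funext i
    exact congrArg Subtype.val (congrFun h i)
  have h1 := absHeight_eq (E := E) (algebraMap (fld z) E) y hy0
  have h2 := absHeight_eq (E := E) ((σ : E →+* E).comp (algebraMap (fld z) E)) y hy0
  exact h2.trans h1.symm

theorem eval_map_eq {ι : Type*} [Fintype ι] {N : ι → ℕ} {K : IntermediateField ℚ E}
    (z : SIx N → E) (P : MvPolynomial (SIx N) K) :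
    eval z (MvPolynomial.map (algebraMap K E) P) = aeval z P := by
  rw [eval_map, aeval_def]

theorem LocallyOver.locallyByForms {ι : Type*} [Fintype ι] {N : ι → ℕ}
    {K : IntermediateField ℚ E} {X : Set (PPt E N)} {f : PPt E N → PPt E N}
    (h : LocallyOver K X f) : LocallyByForms X f := by
  obtain ⟨e, t, G, h1, h2, h3⟩ := h
  refine ⟨e, t, fun s w => MvPolynomial.map (algebraMap K E) (G s w), ?_, ?_, ?_⟩
  · intro s w
    exact (h1 s w).map _
  · intro s x hx
    obtain ⟨c, hc⟩ := h2 s x hx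
    exact ⟨c, fun w => by rw [eval_map_eq]; exact hc w⟩
  · intro x hx
    obtain ⟨s, w, hw⟩ := h3 x hx
    exact ⟨s, w, by rw [eval_map_eq]; exact hw⟩

/-- `IsConj` passes to the images. -/
theorem IsConj.map {ι : Type*} [Fintype ι] {N : ι → ℕ}
    {K : IntermediateField ℚ E} {X : Set (PPt E N)} {f : PPt E N → PPt E N}
    (h : LocallyOver K X f) (σ : E ≃ₐ[K] E) {x x' : PPt E N}
    (hx : x ∈ X) (hx' : x' ∈ X) (hc : IsConj (σ : E ≃+* E) x x') :
    IsConj (σ : E ≃+* E) (f x) (f x') := by
  obtain ⟨e, t, G, h1, h2, h3⟩ := h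
  obtain ⟨c, hc0, hc⟩ := hc
  obtain ⟨s, w, hw⟩ := h3 x hx
  obtain ⟨a, ha⟩ := h2 s x hx
  obtain ⟨b, hb⟩ := h2 s x' hx'
  have key : ∀ w, aeval (seg x') (G s w) = c ^ e * σ (aeval (seg x) (G s w)) := by
    intro w
    have e1 : seg x' = c • (fun w => σ (seg x w)) := by
      funext w
      rw [hc w]
      rfl
    rw [e1, ← eval_map_eq, eval_smul_form ((h1 s w).map _), eval_map_eq]
    congr 1
    have := congrArg (fun φ : MvPolynomial (SIx N) K →ₐ[K] E => φ (G s w))
      (MvPolynomial.comp_aeval (seg x) (σ : E →ₐ[K] E))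
    exact this.symm
  have hb0 : b ≠ 0 := by
    intro h0
    have h4 := key w
    rw [hb w, h0, zero_mul] at h4
    have h5 : σ (aeval (seg x) (G s w)) ≠ 0 := by
      rw [map_ne_zero_iff _ σ.injective]
      exact hw
    exact (mul_ne_zero (pow_ne_zero e hc0) h5) h4.symm
  have ha0 : a ≠ 0 := by
    rintro rfl
    rw [ha w, zero_mul] at hw
    exact hw rfl
  refine ⟨c ^ e * σ a / b, ?_, fun w => ?_⟩
  · refine div_ne_zero (mul_ne_zero (pow_ne_zero e hc0) ?_) hb0
    rw [map_ne_zero_iff _ σ.injective]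
    exact ha0
  · have h4 := key w
    rw [hb w, ha w, map_mul] at h4
    rw [div_mul_eq_mul_div, eq_div_iff hb0, mul_comm _ b, h4]
    simp only [AlgEquiv.coe_ringEquiv]
    ring

theorem absTotal_conj [Algebra.IsAlgebraic ℚ E] {ι : Type*} [Fintype ι] {N : ι → ℕ}
    (σ : E ≃+* E) {x x' : PPt E N} (hc : IsConj σ x x') : absTotal x' = absTotal x := by
  obtain ⟨c, hc0, hc⟩ := hc
  rw [← absHeight_seg, ← absHeight_seg, ← absHeight_ringEquiv σ (seg x)]
  rw [← absHeight_smul c hc0 (fun w => σ (seg x w))]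
  congr 1
  funext w
  exact hc w

theorem arith_conj [Algebra.IsAlgebraic ℚ E] {ι : Type*} [Fintype ι] {N : ι → ℕ}
    {K : IntermediateField ℚ E} {X : Set (PPt E N)} {f : PPt E N → PPt E N}
    (hf : Set.MapsTo f X X) (h : LocallyOver K X f) (σ : E ≃ₐ[K] E) (x x' : PPt E N)
    (hx : x ∈ X) (hx' : x' ∈ X) (hc : IsConj (σ : E ≃+* E) x x') (a : ℝ)
    (ha : AbsArithDegree f x' a) : AbsArithDegree f x a := by
  have key : ∀ n : ℕ, f^[n] x ∈ X ∧ f^[n] x' ∈ X ∧
      IsConj (σ : E ≃+* E) (f^[n] x) (f^[n] x') := by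
    intro n
    induction n with
    | zero => exact ⟨hx, hx', hc⟩
    | succ n ih =>
      obtain ⟨h1, h2, h3⟩ := ih
      rw [Function.iterate_succ_apply', Function.iterate_succ_apply']
      exact ⟨hf h1, hf h2, IsConj.map h σ h1 h2 h3⟩
  unfold AbsArithDegree at ha ⊢
  refine ha.congr fun n => ?_
  rw [absTotal_conj _ (key n).2.2]

end

end Pool.Agent.KSF
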