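import Pool.Agent.KSF.Null
import Pool.Agent.Helper63.WH.Abnd

/-!
# KSF HGT: two height inequalities

Both are applications of `abs_htq` (`Helper63/WH/Ahtq.lean`; see the proof of `abnd_lin` in
`Helper63/WH/Abnd.lean` for a model).
`absHeight_low`: by `null` there are `M ≥ k` and forms `g w j` of degree `M - k` with
`a x w ^ M = ∑ j, eval (a x) (g w j) * eval (a x) (Φ j)`. The vector `(a x w ^ M)_w` has height
`M * absHeight (a x)` up to nothing: only `M * absHeight (a x) ≤ absHeight (fun w => a x w ^ M)` is needed: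
`abs_htq` applied to the vector of all products of `M` coordinates
(`absHeight_prod` for `α = Fin M`: its height is `M * absHeight (a x)`), whose sup is at every place the
`M`-th power of the sup of `a x`, i.e. equal to the sup of the `a x w ^ M`. And for the same vector of
products `abs_htq` with the factors: `a x` taken `M - k` times, the vector of all the coefficients of the
`g w j` (constant height), the vector `Φ (a x)`; the constant at the complex places is the number
of terms: `M * absHeight (a x) ≤ C + (M - k) * absHeight (a x) + absHeight (Φ (a x))`.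
`absHeight_prodlin`: a coefficient of the product is a sum of at most `(card V) ^ m` products of one
coordinate of each `y i`. The coefficient vector is not zero (product of nonzero linear forms,
homogeneous of degree `m`, so its nonzero coefficients are indexed by `CIx V m`).
-/

set_option autoImplicit false

open MvPolynomial

namespace Pool.Agent.KSF

open Pool.Agent.Helper63.SAND Pool.Agent.Helper63.WH

variable {E : Type*} [Field E] [CharZero E] [Algebra.IsAlgebraic ℚ E]

universe hu hv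

/-- The absolute value given by a complex embedding. -/
private noncomputable def hgtC {E : Type*} [Field E] (s : E →+* ℂ) : AbsoluteValue E ℝ where
  toFun z := ‖s z‖
  map_mul' a b := by rw [map_mul, norm_mul]
  nonneg' a := norm_nonneg _
  eq_zero' a := by rw [norm_eq_zero, map_eq_zero]
  add_le' a b := by
    rw [map_add]
    exact norm_add_le _ _

private theorem hgtC_apply {E : Type*} [Field E] (s : E →+* ℂ) (z : E) : hgtC s z = ‖s z‖ := rfl

private theorem hgt_sum_arch {E : Type*} [Field E] (v : AbsoluteValue E ℝ) {τ : Type*} [Fintype τ]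
    (f : τ → E) (B : ℝ) (h : ∀ q, v (f q) ≤ B) : v (∑ q, f q) ≤ Fintype.card τ * B := by
  calc v (∑ q, f q) ≤ ∑ q, v (f q) := v.sum_le _ _
    _ ≤ ∑ _q : τ, B := Finset.sum_le_sum fun q _ => h q
    _ = Fintype.card τ * B := by rw [Finset.sum_const, Finset.card_univ, nsmul_eq_mul]

private theorem hgt_sum_non {E : Type*} [Field E] (v : AbsoluteValue E ℝ) (hv : IsNonarchimedean v)
    {τ : Type*} [Fintype τ] (f : τ → E) (B : ℝ) (hB : 0 ≤ B) (h : ∀ q, v (f q) ≤ B) :
    v (∑ q, f q) ≤ B := by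
  classical
  rcases (Finset.univ : Finset τ).eq_empty_or_nonempty with h0 | h0
  · rw [h0, Finset.sum_empty, map_zero]
    exact hB
  · obtain ⟨i, -, hi⟩ := hv.finset_image_add_of_nonempty f h0
    exact hi.trans (h i)

/-- One factor. -/
private theorem hgt_one {κ κ' : Type*} [Finite κ] [Finite κ'] (z : κ → E) (hz : z ≠ 0)
    (y : κ' → E) (hy : y ≠ 0) (c : ℝ) (hc : 1 ≤ c)
    (harch : ∀ s : E →+* ℂ, ∀ k, ∃ i, hgtC s (z k) ≤ c * hgtC s (y i))
    (hnon : ∀ (p : Nat.Primes) (τ : E →+* PadicAlgCl p), ∀ k, ∃ i,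
      pAbs p τ (z k) ≤ pAbs p τ (y i)) :
    absHeight z ≤ Real.log c + absHeight y := by
  have hc0 : (0 : ℝ) ≤ c := zero_le_one.trans hc
  have h := abs_htq (E := E) (κ := κ) (J := Unit) (σ := fun _ => κ') z hz
    (fun _ => y) (fun _ => hy) c hc
    (fun s => by
      simp only [Finset.univ_unique, Finset.prod_const, Finset.card_singleton, pow_one]
      refine Real.iSup_le (fun k => ?_) (mul_nonneg hc0 (Real.iSup_nonneg fun i => norm_nonneg _))
      obtain ⟨i, hi⟩ := harch s k
      exact hi.trans (mul_le_mul_of_nonneg_left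
        (Finite.le_ciSup_of_le (f := fun i => ‖s (y i)‖) i le_rfl) hc0))
    (fun p τ => by
      simp only [Finset.univ_unique, Finset.prod_const, Finset.card_singleton, pow_one]
      refine Real.iSup_le (fun k => ?_) (Real.iSup_nonneg fun i => (pAbs p τ).nonneg _)
      obtain ⟨i, hi⟩ := hnon p τ k
      exact hi.trans (Finite.le_ciSup_of_le (f := fun i => pAbs p τ (y i)) i le_rfl))
    ∅ (fun _ => 1) (by simp) (by simp)
  simpa using h

private def hgtT (α : Type hu) (β : Type hv) : Bool → Type (max hu hv)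
  | true => ULift.{hv} α
  | false => ULift.{hu} β

/-- The height of a product vector. -/
private theorem hgt_pair {α : Type hu} {β : Type hv} [Finite α] [Finite β] (x : α → E)
    (y : β → E) (hx : x ≠ 0) (hy : y ≠ 0) :
    absHeight (fun q : α × β => x q.1 * y q.2) ≤ absHeight x + absHeight y := by
  classical
  have hfin : ∀ b, Finite (hgtT α β b) := fun b => by
    cases b
    · exact (inferInstance : Finite (ULift.{hu} β))
    · exact (inferInstance : Finite (ULift.{hv} α))
  have hx' : (fun i : ULift.{hv} α => x i.down) ≠ 0 := by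
    obtain ⟨i, hi⟩ := Function.ne_iff.1 hx
    exact Function.ne_iff.2 ⟨⟨i⟩, hi⟩
  have hy' : (fun i : ULift.{hu} β => y i.down) ≠ 0 := by
    obtain ⟨i, hi⟩ := Function.ne_iff.1 hy
    exact Function.ne_iff.2 ⟨⟨i⟩, hi⟩
  let A : ∀ b, hgtT α β b → E := fun b => match b with
    | true => fun i : ULift.{hv} α => x i.down
    | false => fun i : ULift.{hu} β => y i.down
  have hA : ∀ b, A b ≠ 0 := fun b => by
    cases b
    · exact hy'
    · exact hx'
  have hz : (fun q : α × β => x q.1 * y q.2) ≠ 0 := by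
    obtain ⟨i, hi⟩ := Function.ne_iff.1 hx
    obtain ⟨j, hj⟩ := Function.ne_iff.1 hy
    exact Function.ne_iff.2 ⟨(i, j), mul_ne_zero hi hj⟩
  have key := abs_htq (E := E) (κ := α × β) (J := Bool) (σ := hgtT α β)
    (fun q : α × β => x q.1 * y q.2) hz A hA 1 le_rfl
    (fun s => by
      rw [Fintype.prod_bool, one_mul]
      change (⨆ q : α × β, ‖s (x q.1 * y q.2)‖) ≤
        (⨆ i : ULift.{hv} α, ‖s (x i.down)‖) * (⨆ i : ULift.{hu} β, ‖s (y i.down)‖)
      have h1 : 0 ≤ ⨆ i : ULift.{hv} α, ‖s (x i.down)‖ := Real.iSup_nonneg fun i => norm_nonneg _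
      have h2 : 0 ≤ ⨆ i : ULift.{hu} β, ‖s (y i.down)‖ := Real.iSup_nonneg fun i => norm_nonneg _
      refine Real.iSup_le (fun q => ?_) (mul_nonneg h1 h2)
      rw [map_mul, norm_mul]
      exact mul_le_mul
        (Finite.le_ciSup_of_le (f := fun i : ULift.{hv} α => ‖s (x i.down)‖) ⟨q.1⟩ le_rfl)
        (Finite.le_ciSup_of_le (f := fun i : ULift.{hu} β => ‖s (y i.down)‖) ⟨q.2⟩ le_rfl)
        (norm_nonneg _) h1)
    (fun p τ => by
      rw [Fintype.prod_bool]
      change (⨆ q : α × β, pAbs p τ (x q.1 * y q.2)) ≤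
        (⨆ i : ULift.{hv} α, pAbs p τ (x i.down)) * (⨆ i : ULift.{hu} β, pAbs p τ (y i.down))
      have h1 : 0 ≤ ⨆ i : ULift.{hv} α, pAbs p τ (x i.down) :=
        Real.iSup_nonneg fun i => (pAbs p τ).nonneg _
      have h2 : 0 ≤ ⨆ i : ULift.{hu} β, pAbs p τ (y i.down) :=
        Real.iSup_nonneg fun i => (pAbs p τ).nonneg _
      refine Real.iSup_le (fun q => ?_) (mul_nonneg h1 h2)
      rw [map_mul]
      exact mul_le_mul
        (Finite.le_ciSup_of_le (f := fun i : ULift.{hv} α => pAbs p τ (x i.down)) ⟨q.1⟩ le_rfl)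
        (Finite.le_ciSup_of_le (f := fun i : ULift.{hu} β => pAbs p τ (y i.down)) ⟨q.2⟩ le_rfl)
        ((pAbs p τ).nonneg _) h1)
    ∅ (fun _ => 1) (by simp) (by simp)
  rw [Fintype.sum_bool] at key
  change absHeight (fun q : α × β => x q.1 * y q.2) ≤ Real.log 1 + ∑ p ∈ ∅, Real.log 1 +
    (absHeight (fun i : ULift.{hv} α => x i.down) +
      absHeight (fun i : ULift.{hu} β => y i.down)) at key
  rw [Finset.sum_empty, add_zero, Real.log_one, zero_add] at key
  have e1 : absHeight (fun i : ULift.{hv} α => x i.down) ≤ absHeight x := by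
    have := hgt_one (fun i : ULift.{hv} α => x i.down) hx' x hx 1 le_rfl
      (fun s k => ⟨k.down, by rw [one_mul]⟩) (fun p τ k => ⟨k.down, le_rfl⟩)
    simpa using this
  have e2 : absHeight (fun i : ULift.{hu} β => y i.down) ≤ absHeight y := by
    have := hgt_one (fun i : ULift.{hu} β => y i.down) hy' y hy 1 le_rfl
      (fun s k => ⟨k.down, by rw [one_mul]⟩) (fun p τ k => ⟨k.down, le_rfl⟩)
    simpa using this
  linarith

/-- The vector of all products of `m` coordinates. -/
private theorem hgt_pow {W : Type*} [Finite W] (x : W → E) (hx : x ≠ 0) (m : ℕ) :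
    absHeight (fun I : Fin m → W => ∏ i, x (I i)) = m * absHeight x := by
  have h := absHeight_prod (E := E) (α := Fin m) (σ := fun _ => W) (fun _ => x) (fun _ => hx)
  rw [h, Finset.sum_const, Finset.card_univ, Fintype.card_fin, nsmul_eq_mul]

omit [CharZero E] [Algebra.IsAlgebraic ℚ E] in
private theorem hgt_pow_ne {W : Type*} (x : W → E) (hx : x ≠ 0) (m : ℕ) :
    (fun I : Fin m → W => ∏ i, x (I i)) ≠ 0 := by
  obtain ⟨w, hw⟩ := Function.ne_iff.1 hx
  exact Function.ne_iff.2 ⟨fun _ => w, Finset.prod_ne_zero_iff.2 fun _ _ => hw⟩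

/-- The value of a monomial. -/
private theorem hgt_mono {E : Type*} [Field E] (v : AbsoluteValue E ℝ) {W : Type*}
    (x : W → E) (w₀ : W) (hmax : ∀ w, v (x w) ≤ v (x w₀)) (s : W →₀ ℕ) (m : ℕ)
    (hs : ∑ w ∈ s.support, s w = m) :
    v (∏ w ∈ s.support, x w ^ s w) ≤ v (x w₀) ^ m := by
  rw [map_prod, ← hs, ← Finset.prod_pow_eq_pow_sum]
  refine Finset.prod_le_prod (fun w _ => v.nonneg _) fun w _ => ?_
  rw [map_pow]
  exact pow_le_pow_left₀ (v.nonneg _) (hmax w) _

theorem absHeight_low [IsAlgClosed E] {Ω W J : Type*} [Finite W] [Fintype J] {a : Ω → W → E}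
    (ha0 : ∀ x, a x ≠ 0) (ha : ClosedF a) (Φ : J → MvPolynomial W E) (k : ℕ)
    (hΦ : ∀ j, (Φ j).IsHomogeneous k) (h0 : ∀ x, ∃ j, eval (a x) (Φ j) ≠ 0) :
    ∃ C : ℝ, ∀ x, (k : ℝ) * absHeight (a x) ≤ absHeight (fun j => eval (a x) (Φ j)) + C := by
  classical
  rcases isEmpty_or_nonempty Ω with hΩ | ⟨⟨x₀⟩⟩
  · exact ⟨0, fun x => (hΩ.false x).elim⟩
  obtain ⟨j₀, -⟩ := h0 x₀
  obtain ⟨M, hM1, hM2⟩ := null ha Φ (fun _ => k) hΦ h0
  have hkM : k ≤ M := hM1 j₀
  choose g hg1 hg2 using hM2 M le_rfl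
  have := Fintype.ofFinite W
  -- all the exponents
  obtain ⟨S, hS⟩ : ∃ S : Finset (W →₀ ℕ), ∀ w j, (g w j).support ⊆ S :=
    ⟨Finset.univ.biUnion fun w => Finset.univ.biUnion fun j => (g w j).support, fun w j s hs =>
      Finset.mem_biUnion.2 ⟨w, Finset.mem_univ _, Finset.mem_biUnion.2 ⟨j, Finset.mem_univ _, hs⟩⟩⟩
  set Γ : W × J × S → E := fun q => (g q.1 q.2.1).coeff q.2.2.1 with hΓ
  -- the expansion
  have hexp : ∀ x w, a x w ^ M = ∑ q : J × S, (Γ (w, q.1, q.2) *
      ∏ u ∈ q.2.1.support, a x u ^ q.2.1 u) * eval (a x) (Φ q.1) := by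
    intro x w
    have h1 := hg2 w x
    rw [map_sub, map_pow, eval_X, map_sum, sub_eq_zero] at h1
    rw [h1, Fintype.sum_prod_type]
    refine Finset.sum_congr rfl fun j _ => ?_
    rw [map_mul]
    have h2 : ∑ s : S, (Γ (w, j, s) * ∏ u ∈ s.1.support, a x u ^ s.1 u) * eval (a x) (Φ j) =
        (∑ s : S, Γ (w, j, s) * ∏ u ∈ s.1.support, a x u ^ s.1 u) * eval (a x) (Φ j) :=
      (Finset.sum_mul _ _ _).symm
    refine Eq.trans ?_ h2.symm
    congr 1
    rw [eval_eq, Finset.sum_coe_sort S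
      (fun s => (g w j).coeff s * ∏ u ∈ s.support, a x u ^ s u)]
    refine Finset.sum_subset (hS w j) fun s _ hs => ?_
    rw [notMem_support_iff.1 hs, zero_mul]
  have hdeg : ∀ w j (s : S), Γ (w, j, s) ≠ 0 → ∑ u ∈ s.1.support, s.1 u = M - k := by
    intro w j s hs
    have := hg1 w j hs
    rw [Finsupp.weight_apply, Finsupp.sum] at this
    simpa using this
  have hΓ0 : Γ ≠ 0 := by
    intro h
    obtain ⟨w, hw⟩ := Function.ne_iff.1 (ha0 x₀)
    have h1 := hexp x₀ w
    rw [Finset.sum_eq_zero (fun q _ => by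
      rw [show Γ (w, q.1, q.2) = 0 from congrFun h _, zero_mul, zero_mul])] at h1
    exact pow_ne_zero M hw h1
  have hΦ0 : ∀ x, (fun j => eval (a x) (Φ j)) ≠ 0 := fun x => by
    obtain ⟨j, hj⟩ := h0 x
    exact Function.ne_iff.2 ⟨j, hj⟩
  -- the estimate at a place
  have hplace : ∀ (v : AbsoluteValue E ℝ) (c : ℝ), 0 ≤ c →
      (∀ (f : J × S → E) (B : ℝ), 0 ≤ B → (∀ q, v (f q) ≤ B) → v (∑ q, f q) ≤ c * B) →
      ∀ (x : Ω) (I : Fin M → W), ∃ i : (Fin (M - k) → W) × ((W × J × S) × J),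
        v (∏ t, a x (I t)) ≤ c * v ((∏ t, a x (i.1 t)) * (Γ i.2.1 * eval (a x) (Φ i.2.2))) := by
    intro v c hc0 hc x I
    obtain ⟨w, hw⟩ := Function.ne_iff.1 (ha0 x)
    have : Nonempty W := ⟨w⟩
    obtain ⟨w₀, hmax⟩ := Finite.exists_max (fun w => v (a x w))
    have : Nonempty (J × S) := by
      by_contra hne
      rw [not_nonempty_iff] at hne
      have h1 := hexp x w
      rw [Finset.univ_eq_empty, Finset.sum_empty] at h1
      exact pow_ne_zero M hw h1
    obtain ⟨q₀, hq₀⟩ := Finite.exists_max (fun q : J × S =>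
      v (Γ (w₀, q.1, q.2) * eval (a x) (Φ q.1)))
    refine ⟨(fun _ => w₀, ((w₀, q₀.1, q₀.2), q₀.1)), ?_⟩
    have h1 : v (∏ t, a x (I t)) ≤ v (a x w₀ ^ M) := by
      rw [map_prod, map_pow]
      calc ∏ t, v (a x (I t)) ≤ ∏ _t : Fin M, v (a x w₀) :=
            Finset.prod_le_prod (fun _ _ => v.nonneg _) fun t _ => hmax _
        _ = v (a x w₀) ^ M := by rw [Finset.prod_const, Finset.card_univ, Fintype.card_fin]
    refine h1.trans ?_
    rw [hexp x w₀]
    simp only [Finset.prod_const, Finset.card_univ, Fintype.card_fin]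
    refine hc _ _ (v.nonneg _) fun q => ?_
    by_cases hq : Γ (w₀, q.1, q.2) = 0
    · rw [hq, zero_mul, zero_mul, map_zero]
      exact v.nonneg _
    · have h2 := hgt_mono v (a x) w₀ hmax q.2.1 (M - k) (hdeg _ _ _ hq)
      have h3 := hq₀ q
      simp only [map_mul, map_pow] at h3 ⊢
      calc v (Γ (w₀, q.1, q.2)) * v (∏ u ∈ q.2.1.support, a x u ^ q.2.1 u) *
            v (eval (a x) (Φ q.1)) = v (∏ u ∈ q.2.1.support, a x u ^ q.2.1 u) *
              (v (Γ (w₀, q.1, q.2)) * v (eval (a x) (Φ q.1))) := by ring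
        _ ≤ v (a x w₀) ^ (M - k) *
              (v (Γ (w₀, q₀.1, q₀.2)) * v (eval (a x) (Φ q₀.1))) :=
            mul_le_mul h2 h3 (mul_nonneg (v.nonneg _) (v.nonneg _))
              (pow_nonneg (v.nonneg _) _)
  refine ⟨Real.log (max 1 (Fintype.card (J × S))) + absHeight Γ, fun x => ?_⟩
  have hB0 : (fun i : (Fin (M - k) → W) × ((W × J × S) × J) =>
      (∏ t, a x (i.1 t)) * (Γ i.2.1 * eval (a x) (Φ i.2.2))) ≠ 0 := by
    obtain ⟨I, hI⟩ := Function.ne_iff.1 (hgt_pow_ne (a x) (ha0 x) (M - k))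
    obtain ⟨q, hq⟩ := Function.ne_iff.1 hΓ0
    obtain ⟨j, hj⟩ := h0 x
    exact Function.ne_iff.2 ⟨(I, (q, j)), mul_ne_zero hI (mul_ne_zero hq hj)⟩
  have hG0 : (fun q : (W × J × S) × J => Γ q.1 * eval (a x) (Φ q.2)) ≠ 0 := by
    obtain ⟨q, hq⟩ := Function.ne_iff.1 hΓ0
    obtain ⟨j, hj⟩ := h0 x
    exact Function.ne_iff.2 ⟨(q, j), mul_ne_zero hq hj⟩
  have h1 := hgt_one (fun I : Fin M → W => ∏ t, a x (I t)) (hgt_pow_ne (a x) (ha0 x) M)
    (fun i : (Fin (M - k) → W) × ((W × J × S) × J) =>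
      (∏ t, a x (i.1 t)) * (Γ i.2.1 * eval (a x) (Φ i.2.2))) hB0
    (max 1 (Fintype.card (J × S))) (le_max_left _ _)
    (fun s I => hplace (hgtC s) _ (zero_le_one.trans (le_max_left _ _)) (fun f B hB h =>
      (hgt_sum_arch (hgtC s) f B h).trans
        (mul_le_mul_of_nonneg_right (le_max_right _ _) hB)) x I)
    (fun p τ I => by
      obtain ⟨i, hi⟩ := hplace (pAbs p τ) 1 zero_le_one (fun f B hB h => by
        rw [one_mul]
        exact hgt_sum_non (pAbs p τ) (pAbs_nonarch p τ) f B hB h) x I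
      rw [one_mul] at hi
      exact ⟨i, hi⟩)
  have h2 := hgt_pair (fun I : Fin (M - k) → W => ∏ t, a x (I t))
    (fun q : (W × J × S) × J => Γ q.1 * eval (a x) (Φ q.2)) (hgt_pow_ne (a x) (ha0 x) (M - k)) hG0
  have h3 := hgt_pair Γ (fun j => eval (a x) (Φ j)) hΓ0 (hΦ0 x)
  rw [hgt_pow (a x) (ha0 x)] at h1 h2
  have h4 : ((M - k : ℕ) : ℝ) = (M : ℝ) - k := by
    rw [Nat.cast_sub hkM]
  rw [h4] at h2
  have h5 : ((M : ℝ) - k) * absHeight (a x) = M * absHeight (a x) - k * absHeight (a x) := by ring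
  rw [h5] at h2
  linarith

theorem absHeight_prodlin {V : Type*} [Fintype V] [DecidableEq V] (m : ℕ) :
    ∃ B : ℝ, ∀ y : Fin m → V → E, (∀ i, y i ≠ 0) →
      absHeight (fun α : CIx V m => (∏ i, ∑ w, C (y i w) * X w : MvPolynomial V E).coeff α.1) ≤
        ∑ i, absHeight (y i) + B := by
  classical
  refine ⟨Real.log (max 1 (Fintype.card (Fin m → V))), fun y hy => ?_⟩
  set P : MvPolynomial V E := ∏ i, ∑ w, C (y i w) * X w with hP
  have hhom : P.IsHomogeneous m := by
    have h1 : ∀ i ∈ (Finset.univ : Finset (Fin m)),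
        (∑ w, C (y i w) * X w : MvPolynomial V E).IsHomogeneous ((fun _ => 1) i) := fun i _ =>
      IsHomogeneous.sum _ _ _ fun w _ => by
        have := (isHomogeneous_C V (y i w)).mul (isHomogeneous_X E w)
        simpa using this
    have h2 := IsHomogeneous.prod _ _ _ h1
    simpa using h2
  have hP0 : P ≠ 0 := by
    rw [hP]
    refine Finset.prod_ne_zero_iff.2 fun i _ h => ?_
    obtain ⟨w, hw⟩ := Function.ne_iff.1 (hy i)
    apply hw
    have h1 := congrArg (fun Q : MvPolynomial V E => Q.coeff (Finsupp.single w 1)) h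
    simp only [coeff_sum, coeff_C_mul, coeff_X, coeff_zero] at h1
    rw [Finset.sum_eq_single w] at h1
    · simpa using h1
    · intro b _ hb
      have : ¬ (Finsupp.single b 1 = (Finsupp.single w 1 : V →₀ ℕ)) := by
        intro h2
        exact hb (Finsupp.single_left_injective one_ne_zero h2)
      rw [if_neg this, mul_zero]
    · intro h2
      exact (h2 (Finset.mem_univ _)).elim
  have hz : (fun α : CIx V m => P.coeff α.1) ≠ 0 := by
    obtain ⟨d, hd⟩ := (MvPolynomial.ne_zero_iff).1 hP0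
    have h1 := hhom hd
    rw [Finsupp.weight_apply, Finsupp.sum] at h1
    refine Function.ne_iff.2 ⟨⟨d, ?_⟩, hd⟩
    rw [Finset.mem_finsuppAntidiag]
    refine ⟨?_, Finset.subset_univ _⟩
    simp only [Pi.one_apply, smul_eq_mul, mul_one] at h1
    rw [← h1]
    exact (Finset.sum_subset (Finset.subset_univ _) fun w _ hw => Finsupp.notMem_support_iff.1 hw).symm
  -- the expansion of a coefficient
  have hexp : ∀ α : V →₀ ℕ, P.coeff α = ∑ I : Fin m → V,
      (if ∑ i, Finsupp.single (I i) 1 = α then ∏ i, y i (I i) else 0) := by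
    intro α
    rw [hP, Finset.prod_univ_sum, coeff_sum, Fintype.piFinset_univ]
    refine Finset.sum_congr rfl fun I _ => ?_
    rw [Finset.prod_mul_distrib, ← map_prod, coeff_C_mul]
    have h1 : (∏ i, X (I i) : MvPolynomial V E) = monomial (∑ i, Finsupp.single (I i) 1) 1 := by
      rw [monomial_sum_one]
      rfl
    rw [h1, coeff_monomial]
    split_ifs with h2
    · rw [mul_one]
    · rw [mul_zero]
  have hterm : ∀ (v : AbsoluteValue E ℝ) (α : V →₀ ℕ) (I : Fin m → V),
      v (if ∑ i, Finsupp.single (I i) 1 = α then ∏ i, y i (I i) else 0) ≤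
        ∏ i, ⨆ w, v (y i w) := by
    intro v α I
    split_ifs with h2
    · rw [map_prod]
      exact Finset.prod_le_prod (fun _ _ => v.nonneg _) fun i _ =>
        Finite.le_ciSup_of_le (f := fun w => v (y i w)) (I i) le_rfl
    · rw [map_zero]
      exact Finset.prod_nonneg fun i _ => Real.iSup_nonneg fun w => v.nonneg _
  have hnn : ∀ v : AbsoluteValue E ℝ, 0 ≤ ∏ i, ⨆ w, v (y i w) := fun v =>
    Finset.prod_nonneg fun i _ => Real.iSup_nonneg fun w => v.nonneg _
  have key := abs_htq (E := E) (κ := CIx V m) (J := Fin m) (σ := fun _ => V)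
    (fun α : CIx V m => P.coeff α.1) hz y hy
    (max 1 (Fintype.card (Fin m → V))) (le_max_left _ _)
    (fun s => by
      refine Real.iSup_le (fun α => ?_) (mul_nonneg (zero_le_one.trans (le_max_left _ _))
        (hnn (hgtC s)))
      change hgtC s (P.coeff α.1) ≤ _ * ∏ i, ⨆ w, hgtC s (y i w)
      rw [hexp α.1]
      exact (hgt_sum_arch (hgtC s) _ _ (hterm (hgtC s) α.1)).trans
        (mul_le_mul_of_nonneg_right (le_max_right _ _) (hnn (hgtC s))))
    (fun p τ => by
      refine Real.iSup_le (fun α => ?_) (hnn (pAbs p τ))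
      change pAbs p τ (P.coeff α.1) ≤ ∏ i, ⨆ w, pAbs p τ (y i w)
      rw [hexp α.1]
      exact hgt_sum_non (pAbs p τ) (pAbs_nonarch p τ) _ _ (hnn (pAbs p τ))
        (hterm (pAbs p τ) α.1))
    ∅ (fun _ => 1) (by simp) (by simp)
  rw [Finset.sum_empty, add_zero] at key
  linarith

end Pool.Agent.KSF
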