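import Pool.Agent.KSF.Defs

/-!
# KSF CLOS: a Zariski closed subset of a product of projective spaces is a closed family

Let `z ≠ 0` be a common zero of all the forms in the Segre coordinates which vanish on `X`.
1. The Segre relations `z_v z_w = z_{v'} z_{w'}` (`v', w'` = `v, w` with the `i`-th coordinates exchanged,
   `Function.update`) vanish on all of `PPt E N`. Take `w₀` with `z w₀ ≠ 0`,
   `y_i j = z (Function.update w₀ i j)`: a nonzero vector, the point `y` (`Projectivization.mk`). By
   induction over a subset of `ι`: `z w * z w₀ ^ (card ι) = z w₀ * ∏ i, y_i (w i)`, so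
   `z = c • seg y` for some `c ≠ 0` (the `rep` of `mk` is proportional, `Projectivization.mk_rep`,
   `Projectivization.exists_smul_eq_mk_rep`).
2. `y ∈ X`: let `F` be one of the multihomogeneous equations of `X`, of multidegree `b`, and
   `β` with `b i ≤ β` for all `i`. For `w` with `∀ i, (y i).rep (w i) ≠ 0` the product
   `F * ∏ i, X ⟨i, w i⟩ ^ (β - b i)` has multidegree `(β, ..., β)`, so every monomial of it is the
   image of a monomial of degree `β` in the Segre coordinates: there is a form `H` of degree `β` in the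
   Segre coordinates with `eval (seg x) H = eval (rep x) F * ∏ i, (x i).rep (w i) ^ (β - b i)` for all
   `x`. It vanishes on `X`, hence at `z`, hence at `seg y` (`eval_smul_form`), so `F` vanishes at `y`.
See `Pool/Agent/Helper63/SAND/Seg.lean` for the pull back of a Segre form.
-/

set_option autoImplicit false

open MvPolynomial
open scoped LinearAlgebra.Projectivization

namespace Pool.Agent.KSF

open Pool.Agent.Helper90.KSC Pool.Agent.Helper63.SAND

namespace Clos

theorem exists_list {α : Type*} [Fintype α] [DecidableEq α] (β : ℕ) (m : α → ℕ)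
    (hm : ∑ j, m j = β) (M : Type*) [CommMonoid M] :
    ∃ φ : Fin β → α, ∀ f : α → M, ∏ k, f (φ k) = ∏ j, f j ^ m j := by
  classical
  let mf : α →₀ ℕ := Finsupp.equivFunOnFinite.symm m
  have hmf : ∀ j, mf j = m j := fun j => rfl
  have hcard : (Finsupp.toMultiset mf).card = β := by
    rw [Finsupp.card_toMultiset, Finsupp.sum_fintype _ _ (fun _ => rfl), ← hm]
    exact Finset.sum_congr rfl fun j _ => hmf j
  obtain ⟨l, hl⟩ := Quotient.exists_rep (Finsupp.toMultiset mf)
  have hl' : (l : Multiset α) = Finsupp.toMultiset mf := hl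
  have hlen : l.length = β := by
    rw [← hcard, ← hl']; rfl
  subst hlen
  refine ⟨fun k => l[k], fun f => ?_⟩
  have h1 : ∏ k : Fin l.length, f l[k] = (l.map f).prod := by
    rw [← Fin.prod_univ_getElem]
    refine Fintype.prod_equiv (finCongr (by simp)) _ _ fun k => ?_
    simp
  have h2 : (l.map f).prod = (Multiset.map f (Finsupp.toMultiset mf)).prod := by
    rw [← hl']; simp
  rw [h1, h2, Finset.prod_multiset_map_count]
  rw [← Finset.prod_subset (Finset.subset_univ (Finsupp.toMultiset mf).toFinset)]
  · exact Finset.prod_congr rfl fun j _ => by rw [Finsupp.count_toMultiset, hmf]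
  · intro j _ hj
    rw [Multiset.mem_toFinset, ← Multiset.count_eq_zero, Finsupp.count_toMultiset, hmf] at hj
    rw [hj, pow_zero]

variable {E : Type*} [Field E] {ι : Type*} [Fintype ι] [DecidableEq ι] {N : ι → ℕ}

theorem sum_exp {G : MvPolynomial (Σ i, Fin (N i + 1)) E} {b : ι → ℕ}
    (hG : G.IsWeightedHomogeneous (fun s => Pi.single s.1 1) b) {m : (Σ i, Fin (N i + 1)) →₀ ℕ}
    (hm : G.coeff m ≠ 0) (i : ι) : ∑ j, m ⟨i, j⟩ = b i := by
  have h := hG hm
  rw [Finsupp.weight_apply, Finsupp.sum_fintype m (fun s c => c • (Pi.single s.1 1 : ι → ℕ))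
    (fun _ => zero_smul _ _)] at h
  rw [← h, Finset.sum_apply, Fintype.sum_sigma, Finset.sum_eq_single i]
  · refine Finset.sum_congr rfl fun j _ => ?_
    simp
  · intro i' _ hi'
    refine Finset.sum_eq_zero fun j _ => ?_
    simp [hi'.symm]
  · intro h; exact absurd (Finset.mem_univ _) h

/-- A polynomial of multidegree `(β, ..., β)` is a form of degree `β` in the Segre coordinates. -/
theorem exists_segre {G : MvPolynomial (Σ i, Fin (N i + 1)) E} {β : ℕ}
    (hG : G.IsWeightedHomogeneous (fun s => Pi.single s.1 1) (fun _ : ι => β)) :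
    ∃ H : MvPolynomial (SIx N) E, H.IsHomogeneous β ∧
      ∀ r : (Σ i, Fin (N i + 1)) → E, eval (fun w : SIx N => ∏ i, r ⟨i, w i⟩) H = eval r G := by
  classical
  have hex : ∀ m : (Σ i, Fin (N i + 1)) →₀ ℕ, m ∈ G.support → ∀ i,
      ∃ φ : Fin β → Fin (N i + 1), ∀ f : Fin (N i + 1) → E,
        ∏ k, f (φ k) = ∏ j, f j ^ m ⟨i, j⟩ := fun m hm i =>
    exists_list β (fun j => m ⟨i, j⟩) (sum_exp hG (mem_support_iff.1 hm) i) E
  choose! φ hφ using hex
  refine ⟨∑ m ∈ G.support, C (G.coeff m) * ∏ k : Fin β, X (fun i => φ m i k), ?_, fun r => ?_⟩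
  · refine IsHomogeneous.sum _ _ _ fun m _ => ?_
    have h1 : (∏ k : Fin β, (X (fun i => φ m i k) : MvPolynomial (SIx N) E)).IsHomogeneous
        (∑ _k : Fin β, 1) := IsHomogeneous.prod _ _ _ fun k _ => isHomogeneous_X _ _
    have h2 := (isHomogeneous_C (SIx N) (G.coeff m)).mul h1
    simpa using h2
  · rw [map_sum, eval_eq']
    refine Finset.sum_congr rfl fun m hm => ?_
    rw [map_mul, eval_C, map_prod]
    congr 1
    simp only [eval_X]
    rw [Finset.prod_comm, Fintype.prod_sigma]
    refine Finset.prod_congr rfl fun i _ => ?_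
    exact hφ m hm i fun j => r ⟨i, j⟩

theorem seg_rel (x : PPt E N) (v w : SIx N) (i : ι) :
    seg x v * seg x w = seg x (Function.update v i (w i)) * seg x (Function.update w i (v i)) := by
  unfold seg
  rw [← Finset.prod_mul_distrib, ← Finset.prod_mul_distrib]
  refine Finset.prod_congr rfl fun j _ => ?_
  by_cases h : j = i
  · subst h
    rw [Function.update_self, Function.update_self, mul_comm]
  · rw [Function.update_of_ne h, Function.update_of_ne h]

omit [Fintype ι] in
theorem prod_rel {z : SIx N → E}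
    (hz : ∀ (v w : SIx N) (i : ι), z v * z w =
      z (Function.update v i (w i)) * z (Function.update w i (v i))) (w₀ w : SIx N)
    (s : Finset ι) : z (fun i => if i ∈ s then w i else w₀ i) * z w₀ ^ s.card =
      z w₀ * ∏ i ∈ s, z (Function.update w₀ i (w i)) := by
  induction s using Finset.induction_on with
  | empty => simp
  | insert a s ha ih =>
    rw [Finset.card_insert_of_notMem ha, Finset.prod_insert ha]
    have h1 := hz (fun i => if i ∈ insert a s then w i else w₀ i) w₀ a
    have h2 : Function.update (fun i => if i ∈ insert a s then w i else w₀ i) a (w₀ a) =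
        fun i => if i ∈ s then w i else w₀ i := by
      funext i
      by_cases h : i = a
      · subst h
        rw [Function.update_self, if_neg ha]
      · rw [Function.update_of_ne h]
        simp [Finset.mem_insert, h]
    have h3 : (fun i => if i ∈ insert a s then w i else w₀ i) a = w a := by simp
    rw [h2] at h1
    simp only [Finset.mem_insert_self, if_true] at h1
    calc z (fun i => if i ∈ insert a s then w i else w₀ i) * z w₀ ^ (s.card + 1)
        = (z (fun i => if i ∈ insert a s then w i else w₀ i) * z w₀) * z w₀ ^ s.card := by ring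
      _ = (z (fun i => if i ∈ s then w i else w₀ i) * z w₀ ^ s.card) *
          z (Function.update w₀ a (w a)) := by rw [h1]; ring
      _ = z w₀ * (z (Function.update w₀ a (w a)) * ∏ i ∈ s, z (Function.update w₀ i (w i))) := by
          rw [ih]; ring

end Clos

theorem closedF_seg {E : Type*} [Field E] {ι : Type*} [Fintype ι] [DecidableEq ι] {N : ι → ℕ}
    (X : Set (PPt E N)) (hX : ZClosed X) : ClosedF (fun x : X => seg (x : PPt E N)) := by
  classical
  intro z hz hvan
  -- Segre relations
  have hrel : ∀ (v w : SIx N) (i : ι), z v * z w =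
      z (Function.update v i (w i)) * z (Function.update w i (v i)) := by
    intro v w i
    have h1 := hvan 2 (MvPolynomial.X v * MvPolynomial.X w -
      MvPolynomial.X (Function.update v i (w i)) * MvPolynomial.X (Function.update w i (v i))) ?_ ?_
    · simp only [map_sub, map_mul, eval_X] at h1
      exact sub_eq_zero.1 h1
    · exact ((isHomogeneous_X E v).mul (isHomogeneous_X E w)).sub
        ((isHomogeneous_X E _).mul (isHomogeneous_X E _))
    · intro x
      simp only [map_sub, map_mul, eval_X]
      exact sub_eq_zero.2 (Clos.seg_rel _ v w i)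
  obtain ⟨w₀, hw₀⟩ := Function.ne_iff.1 hz
  have hw₀' : z w₀ ≠ 0 := hw₀
  have hy : ∀ i, (fun j => z (Function.update w₀ i j)) ≠ 0 := by
    intro i h
    apply hw₀'
    have := congrFun h (w₀ i)
    simpa using this
  let x : PPt E N := fun i => Projectivization.mk E (fun j => z (Function.update w₀ i j)) (hy i)
  have hrep : ∀ i, ∃ a : Eˣ, a • (fun j => z (Function.update w₀ i j)) = (x i).rep := fun i =>
    Projectivization.exists_smul_eq_mk_rep E _ (hy i)
  choose a ha using hrep
  have hA : (∏ i, (a i : E)) ≠ 0 := Finset.prod_ne_zero_iff.2 fun i _ => (a i).ne_zero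
  have hseg : ∀ w, seg x w = (∏ i, (a i : E)) * ∏ i, z (Function.update w₀ i (w i)) := by
    intro w
    unfold seg
    rw [← Finset.prod_mul_distrib]
    refine Finset.prod_congr rfl fun i _ => ?_
    rw [← ha i]
    rfl
  have hprod : ∀ w, z w * z w₀ ^ Fintype.card ι =
      z w₀ * ∏ i, z (Function.update w₀ i (w i)) := by
    intro w
    have := Clos.prod_rel hrel w₀ w Finset.univ
    simpa using this
  obtain ⟨c, hc, hzc⟩ : ∃ c : E, c ≠ 0 ∧ z = c • seg x := by
    refine ⟨z w₀ * (z w₀ ^ Fintype.card ι)⁻¹ * (∏ i, (a i : E))⁻¹,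
      mul_ne_zero (mul_ne_zero hw₀' (inv_ne_zero (pow_ne_zero _ hw₀'))) (inv_ne_zero hA), ?_⟩
    funext w
    rw [Pi.smul_apply, smul_eq_mul, hseg]
    have h1 : z w = z w₀ * (∏ i, z (Function.update w₀ i (w i))) *
        (z w₀ ^ Fintype.card ι)⁻¹ := by
      rw [← hprod w, mul_assoc, mul_inv_cancel₀ (pow_ne_zero _ hw₀'), mul_one]
    calc z w = z w₀ * (∏ i, z (Function.update w₀ i (w i))) *
        (z w₀ ^ Fintype.card ι)⁻¹ := h1
      _ = z w₀ * (z w₀ ^ Fintype.card ι)⁻¹ * ((∏ i, (a i : E))⁻¹ * (∏ i, (a i : E))) *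
          ∏ i, z (Function.update w₀ i (w i)) := by
          rw [inv_mul_cancel₀ hA]; ring
      _ = _ := by ring
  -- the point is in `X`
  obtain ⟨S, hS, rfl⟩ := hX
  have hx : x ∈ {x : PPt E N | ∀ F ∈ S, eval (fun s => (x s.1).rep s.2) F = 0} := by
    intro F hF
    obtain ⟨b, hb⟩ := hS F hF
    have hw1 : ∀ i, ∃ j, (x i).rep j ≠ 0 := fun i => Function.ne_iff.1 (x i).rep_nonzero
    choose w1 hw1 using hw1
    let β : ℕ := ∑ i, b i
    have hβ : ∀ i, b i ≤ β := fun i =>
      Finset.single_le_sum (f := b) (fun _ _ => Nat.zero_le _) (Finset.mem_univ i)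
    have hG : (F * ∏ i, (MvPolynomial.X (⟨i, w1 i⟩ : Σ i, Fin (N i + 1)) :
        MvPolynomial (Σ i, Fin (N i + 1)) E) ^ (β - b i)).IsWeightedHomogeneous
        (fun s => (Pi.single s.1 1 : ι → ℕ)) (fun _ : ι => β) := by
      have h1 := IsWeightedHomogeneous.prod (R := E) Finset.univ
        (fun i => (MvPolynomial.X (⟨i, w1 i⟩ : Σ i, Fin (N i + 1)) :
          MvPolynomial (Σ i, Fin (N i + 1)) E) ^ (β - b i))
        (fun i => (β - b i) • (Pi.single i 1 : ι → ℕ))
        (w := fun s : Σ i, Fin (N i + 1) => (Pi.single s.1 1 : ι → ℕ))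
        (fun i _ => (isWeightedHomogeneous_X E _ _).pow _)
      have h2 := hb.mul h1
      have h3 : b + ∑ i, (β - b i) • (Pi.single i 1 : ι → ℕ) = fun _ : ι => β := by
        funext j
        rw [Pi.add_apply, Finset.sum_apply, Finset.sum_eq_single j]
        · simp only [Pi.smul_apply, Pi.single_eq_same, smul_eq_mul, mul_one]
          exact Nat.add_sub_cancel' (hβ j)
        · intro i _ hi
          simp [hi.symm]
        · intro h; exact absurd (Finset.mem_univ _) h
      rwa [h3] at h2
    obtain ⟨H, hH, hHe⟩ := Clos.exists_segre hG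
    have hsegr : ∀ x' : PPt E N, eval (seg x') H =
        eval (fun s => (x' s.1).rep s.2) F * ∏ i, (x' i).rep (w1 i) ^ (β - b i) := by
      intro x'
      have h1 := hHe fun s => (x' s.1).rep s.2
      have h2 : (fun w : SIx N => ∏ i, (fun s : Σ i, Fin (N i + 1) => (x' s.1).rep s.2)
          ⟨i, w i⟩) = seg x' := rfl
      rw [h2] at h1
      rw [h1, map_mul, map_prod]
      simp only [map_pow, eval_X]
    have hvz : eval z H = 0 := by
      refine hvan β H hH fun x' => ?_
      rw [hsegr, x'.2 F hF, zero_mul]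
    rw [hzc, eval_smul_form hH, hsegr] at hvz
    have h1 := (mul_eq_zero.1 hvz).resolve_left (pow_ne_zero _ hc)
    refine (mul_eq_zero.1 h1).resolve_right ?_
    exact Finset.prod_ne_zero_iff.2 fun i _ => pow_ne_zero _ (hw1 i)
  exact ⟨⟨x, hx⟩, c, hzc⟩

end Pool.Agent.KSF
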