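import Pool.Agent.Helper63.WH.Defs
import Pool.Agent.Helper63.SAND.Defs

/-!
# KSF: arithmetic degrees on the fibres of a finite map to projective space. Definitions.
-/

set_option autoImplicit false

open MvPolynomial

namespace Pool.Agent.KSF

open Pool.Agent.Helper90.KSC Pool.Agent.Helper63.SAND Pool.Agent.Helper63.WH

/-! ### The homogeneous coordinate ring -/

section Ring

variable {E : Type*} [Field E] {Ω W : Type*}

attribute [local instance] MvPolynomial.gradedAlgebra

/-- The ideal of all the polynomials vanishing at all the points `a x`. -/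
noncomputable def vanI (a : Ω → W → E) : Ideal (MvPolynomial W E) where
  carrier := {P | Van a P}
  add_mem' := by
    intro P Q hP hQ x
    rw [map_add, hP x, hQ x, add_zero]
  zero_mem' := fun x => map_zero _
  smul_mem' := by
    intro c P hP x
    rw [smul_eq_mul, map_mul, hP x, mul_zero]

/-- The homogeneous ideal generated by the forms vanishing at all the points `a x`. -/
noncomputable def coneI (a : Ω → W → E) : Ideal (MvPolynomial W E) :=
  ((vanI a).homogeneousCore (homogeneousSubmodule W E)).toIdeal

/-- The homogeneous coordinate ring of the family of points `a x`. -/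
abbrev CR (a : Ω → W → E) : Type _ := MvPolynomial W E ⧸ coneI a

/-- The class of a polynomial in the homogeneous coordinate ring. -/
noncomputable abbrev cr (a : Ω → W → E) : MvPolynomial W E →+* CR a :=
  Ideal.Quotient.mk (coneI a)

theorem coneI_hom (a : Ω → W → E) : (coneI a).IsHomogeneous (homogeneousSubmodule W E) :=
  HomogeneousIdeal.isHomogeneous _

theorem van_of_mem_coneI {a : Ω → W → E} {P : MvPolynomial W E} (h : P ∈ coneI a) :
    Van a P :=
  (Ideal.toIdeal_homogeneousCore_le (homogeneousSubmodule W E) (vanI a)) h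

theorem mem_coneI {a : Ω → W → E} {P : MvPolynomial W E} {i : ℕ} (hP : P.IsHomogeneous i)
    (h : Van a P) : P ∈ coneI a :=
  Ideal.mem_homogeneousCore_of_homogeneous_of_mem (𝒜 := homogeneousSubmodule W E)
    (I := vanI a) ⟨i, (mem_homogeneousSubmodule i P).2 hP⟩ h

/-- The homogeneous components of an element of `coneI` are in `coneI`. -/
theorem component_mem_coneI {a : Ω → W → E} {P : MvPolynomial W E} (h : P ∈ coneI a) (i : ℕ) :
    homogeneousComponent i P ∈ coneI a := by
  have h1 := (Ideal.IsHomogeneous.mem_iff (homogeneousSubmodule W E) (coneI_hom a)).1 h i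
  have h2 : ((DirectSum.decompose (homogeneousSubmodule W E) P i :
      homogeneousSubmodule W E i) : MvPolynomial W E) = homogeneousComponent i P :=
    decomposition.decompose'_apply P i
  rwa [h2] at h1

theorem coneI_prime [Nonempty Ω] {a : Ω → W → E} (ha : PrimeH a) : (coneI a).IsPrime := by
  refine Ideal.IsHomogeneous.isPrime_of_homogeneous_mem_or_mem (coneI_hom a) ?_ ?_
  · intro h
    have h1 : (1 : MvPolynomial W E) ∈ coneI a := h ▸ trivial
    obtain ⟨x⟩ := ‹Nonempty Ω›
    have := van_of_mem_coneI h1 x
    simp at this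
  · rintro P Q ⟨i, hi⟩ ⟨j, hj⟩ hPQ
    rcases ha P Q i j ((mem_homogeneousSubmodule i P).1 hi) ((mem_homogeneousSubmodule j Q).1 hj)
      (van_of_mem_coneI hPQ) with h | h
    · exact Or.inl (mem_coneI ((mem_homogeneousSubmodule i P).1 hi) h)
    · exact Or.inr (mem_coneI ((mem_homogeneousSubmodule j Q).1 hj) h)

/-- A form at a multiple of a vector. -/
theorem eval_smul_form {P : MvPolynomial W E} {e : ℕ} (hP : P.IsHomogeneous e)
    (c : E) (z : W → E) : eval (c • z) P = c ^ e * eval z P := by
  rw [eval_eq, eval_eq, Finset.mul_sum]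
  refine Finset.sum_congr rfl fun d hd => ?_
  have h1 : ∏ i ∈ d.support, (c • z) i ^ d i = c ^ e * ∏ i ∈ d.support, z i ^ d i := by
    have h2 : ∑ i ∈ d.support, d i = e := by
      have := hP (mem_support_iff.1 hd)
      rw [Finsupp.weight_apply, Finsupp.sum] at this
      simpa using this
    simp only [Pi.smul_apply, smul_eq_mul, mul_pow, Finset.prod_mul_distrib,
      Finset.prod_pow_eq_pow_sum, h2]
  rw [h1]
  ring

/-- A polynomial in `coneI` vanishes at all the multiples of the points. -/
theorem eval_coneI {a : Ω → W → E} {P : MvPolynomial W E} (h : P ∈ coneI a) (x : Ω) (c : E) :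
    eval (c • a x) P = 0 := by
  rw [← sum_homogeneousComponent P, map_sum]
  refine Finset.sum_eq_zero fun i _ => ?_
  rw [eval_smul_form (homogeneousComponent_isHomogeneous i P),
    van_of_mem_coneI (component_mem_coneI h i) x, mul_zero]

/-- The class of a form is zero if and only if the form vanishes at all the points. -/
theorem cr_eq_zero {a : Ω → W → E} {P : MvPolynomial W E} {i : ℕ} (hP : P.IsHomogeneous i) :
    cr a P = 0 ↔ Van a P := by
  rw [Ideal.Quotient.eq_zero_iff_mem]
  exact ⟨van_of_mem_coneI, mem_coneI hP⟩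

end Ring

/-! ### Closed families, finite maps to projective space -/

section Cover

variable {E : Type*} [Field E] {Ω W : Type*}

/-- The family of points is closed: a nonzero vector at which all the forms vanishing at all the
points `a x` vanish is a multiple of some `a x`. -/
def ClosedF (a : Ω → W → E) : Prop :=
  ∀ z : W → E, z ≠ 0 → (∀ (k : ℕ) (P : MvPolynomial W E), P.IsHomogeneous k → Van a P →
    eval z P = 0) → ∃ (x : Ω) (c : E), z = c • a x

/-- The point `x` lies over the point `t` of projective space. -/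
def Over {d : ℕ} (a : Ω → W → E) (l : Fin (d + 1) → MvPolynomial W E) (t : Fin (d + 1) → E)
    (x : Ω) : Prop := ∃ c : E, c ≠ 0 ∧ ∀ i, eval (a x) (l i) = c * t i

/-- The forms `l i` of degree `e ≥ 1` define a finite surjective map to projective space. -/
structure FinCover {d : ℕ} (a : Ω → W → E) (e : ℕ) (l : Fin (d + 1) → MvPolynomial W E) :
    Prop where
  pos : 1 ≤ e
  hom : ∀ i, (l i).IsHomogeneous e
  base : ∀ x, ∃ i, eval (a x) (l i) ≠ 0
  surj : ∀ t : Fin (d + 1) → E, t ≠ 0 → ∃ x, Over a l t x

/-- The homomorphism from the coordinate ring of projective space to the homogeneous coordinate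
ring given by the forms `l i`. -/
noncomputable def toCR {d : ℕ} (a : Ω → W → E) (l : Fin (d + 1) → MvPolynomial W E) :
    MvPolynomial (Fin (d + 1)) E →+* CR a :=
  (cr a).comp (aeval l : MvPolynomial (Fin (d + 1)) E →ₐ[E] MvPolynomial W E).toRingHom

/-- `P(u; t)` as a polynomial in `u`, for a fixed value of `t`. -/
noncomputable def evT {d : ℕ} {V : Type*} (t : Fin (d + 1) → E) :
    MvPolynomial V (MvPolynomial (Fin (d + 1)) E) →+* MvPolynomial V E :=
  MvPolynomial.map (eval t)

/-- All the coefficients of `P(u; t)` are forms of degree `k` in `t`. -/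
def CoeffHom {d : ℕ} {V : Type*} (k : ℕ) (P : MvPolynomial V (MvPolynomial (Fin (d + 1)) E)) :
    Prop := ∀ α, (P.coeff α).IsHomogeneous k

/-- The index type of the coefficients of the forms of degree `m`. -/
abbrev CIx (V : Type*) [Fintype V] [DecidableEq V] (m : ℕ) : Type _ :=
  {α : V →₀ ℕ // α ∈ Finset.finsuppAntidiag (Finset.univ : Finset V) m}

end Cover

/-! ### Norm forms -/

section Norm

/-- The coefficients of `P` have no common factor. -/
def Prim {A V : Type*} [CommRing A] (P : MvPolynomial V A) : Prop :=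
  ∀ c h : A, (∀ α, c ∣ h * P.coeff α) → c ∣ h

/-- The norm from `R` to `A`, and the norm forms `N y = Norm (∑ w, u_w y_w)` of the vectors `y`
over `R`. -/
structure NormForm {A R : Type*} [CommRing A] [CommRing R] (φ : A →+* R) (V : Type*)
    [Fintype V] where
  m : ℕ
  nrm : R → A
  N : (V → R) → MvPolynomial V A
  m_pos : 1 ≤ m
  nrm_mul : ∀ b c, nrm (b * c) = nrm b * nrm c
  nrm_ne : ∀ b, b ≠ 0 → nrm b ≠ 0
  nrm_alg : ∀ c : A, nrm (φ c) = c ^ m
  nrm_equiv : ∀ (σ : R ≃+* R) (τ : A ≃+* A), (∀ c, σ (φ c) = φ (τ c)) →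
    ∀ b, nrm (σ b) = τ (nrm b)
  hom : ∀ y, (N y).IsHomogeneous m
  smul : ∀ b y, N (fun w => b * y w) = C (nrm b) * N y
  eval_eq : ∀ (y : V → R) (u : V → A), eval u (N y) = nrm (∑ w, φ (u w) * y w)
  vanish : ∀ y r : V → R, ∑ w, r w * y w = 0 → eval₂ φ r (N y) = 0

end Norm

end Pool.Agent.KSF
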