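import Mathlib

/-!
# KSF FACT: a form whose zeros are on finitely many hyperplanes is a product of linear forms

Induction on `m`. `m = 0`: `p` is a nonzero constant. `m + 1`: `p` is not a unit and not zero, take an
irreducible factor `q` (`WfDvdMonoid.exists_irreducible_factor`). Every zero of `q` is a zero of `p`, so
`∏ y ∈ S, (∑ w, C (y w) * X w)` vanishes on the zeros of `q`; by the Nullstellensatz
(`MvPolynomial.vanishingIdeal_zeroLocus_eq_radical` for `span {q}`) `q` divides a power of this product,
so `q` (prime) divides one of the linear forms `λ = ∑ w, C (y w) * X w`; `λ ≠ 0` has total degree `1` and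
`q` is not a unit, so `λ = C c * q` (`totalDegree` of a product), hence `λ ∣ p`, `p = λ * p'`,
`p'` is homogeneous of degree `m` (compare the homogeneous components: `homogeneousComponent (m+1)
(λ * p') = λ * homogeneousComponent m p'`, so one may replace `p'` by its component of degree `m`),
and every zero of `p'` is a zero of `p`.
`exists_ne`: finitely many nonzero linear forms have a common non-zero: the product is a nonzero
polynomial (`MvPolynomial.funext`).
-/

set_option autoImplicit false

open MvPolynomial

namespace Pool.Agent.KSF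

/-- The linear form with coefficients `y`. -/
private noncomputable def L {E : Type*} [Field E] {V : Type*} [Fintype V] (y : V → E) :
    MvPolynomial V E := ∑ w, C (y w) * X w

private theorem L_eval {E : Type*} [Field E] {V : Type*} [Fintype V] (y u : V → E) :
    eval u (L y) = ∑ w, u w * y w := by
  rw [L, map_sum]
  refine Finset.sum_congr rfl fun w _ => ?_
  rw [map_mul, eval_C, eval_X, mul_comm]

private theorem L_hom {E : Type*} [Field E] {V : Type*} [Fintype V] (y : V → E) :
    (L y).IsHomogeneous 1 := by
  refine IsHomogeneous.sum _ _ _ fun w _ => ?_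
  exact isHomogeneous_C_mul_X (y w) w

private theorem L_ne {E : Type*} [Field E] {V : Type*} [Fintype V] {y : V → E} (hy : y ≠ 0) :
    L y ≠ 0 := by
  classical
  intro h
  refine hy (funext fun w => ?_)
  have h1 := L_eval y (Pi.single w 1)
  rw [h, map_zero] at h1
  simpa [Pi.single_apply] using h1.symm

private theorem hom_of_mul {E : Type*} [Field E] {V : Type*} [Fintype V] {l q : MvPolynomial V E}
    {m : ℕ} (hl : l.IsHomogeneous 1) (hl0 : l ≠ 0) (h : (l * q).IsHomogeneous (m + 1)) :
    q.IsHomogeneous m := by
  have h1 : homogeneousComponent (m + 1) (l * q) = l * homogeneousComponent m q := by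
    conv_lhs => rw [← sum_homogeneousComponent q, Finset.mul_sum, map_sum]
    have h2 : ∀ i, homogeneousComponent (m + 1) (l * homogeneousComponent i q)
        = if i = m then l * homogeneousComponent i q else 0 := by
      intro i
      have h3 : (l * homogeneousComponent i q).IsHomogeneous (1 + i) :=
        hl.mul (homogeneousComponent_isHomogeneous i q)
      rw [homogeneousComponent_of_mem ((mem_homogeneousSubmodule (1 + i) _).2 h3)]
      by_cases hi : i = m
      · rw [if_pos hi, if_pos (by omega)]
      · rw [if_neg hi, if_neg (by omega)]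
    rw [Finset.sum_congr rfl fun i _ => h2 i, Finset.sum_ite_eq']
    split_ifs with hm
    · rfl
    · rw [homogeneousComponent_eq_zero, mul_zero]
      rw [Finset.mem_range] at hm
      omega
  have h2 : homogeneousComponent (m + 1) (l * q) = l * q := homogeneousComponent_eq_self h
  rw [h2] at h1
  have h3 := mul_left_cancel₀ hl0 h1
  rw [h3]
  exact homogeneousComponent_isHomogeneous m q

theorem factor_linear {E : Type*} [Field E] [IsAlgClosed E] {V : Type*} [Fintype V]
    (S : Finset (V → E)) (hS : ∀ y ∈ S, y ≠ 0) (m : ℕ) (p : MvPolynomial V E) (hp0 : p ≠ 0)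
    (hp : p.IsHomogeneous m)
    (hz : ∀ u : V → E, eval u p = 0 → ∃ y ∈ S, ∑ w, u w * y w = 0) :
    ∃ (c : E) (σ : Fin m → V → E), c ≠ 0 ∧ (∀ i, σ i ∈ S) ∧
      p = C c * ∏ i, ∑ w, C (σ i w) * X w := by
  induction m generalizing p with
  | zero =>
    have h1 : p.totalDegree = 0 := hp.totalDegree hp0
    rw [totalDegree_eq_zero_iff_eq_C] at h1
    refine ⟨coeff 0 p, fun i => i.elim0, ?_, fun i => i.elim0, ?_⟩
    · intro h
      rw [h, map_zero] at h1
      exact hp0 h1
    · simpa using h1
  | succ m ih =>
    have hdeg : p.totalDegree = m + 1 := hp.totalDegree hp0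
    have hnu : ¬ IsUnit p := by
      intro h
      have := (isUnit_iff_totalDegree_of_isReduced.1 h).2
      omega
    obtain ⟨q, hq, hqp⟩ := WfDvdMonoid.exists_irreducible_factor hnu hp0
    have hqprime : Prime q := hq.prime
    have hrad : (∏ y ∈ S, L y) ∈ (Ideal.span {q} : Ideal (MvPolynomial V E)).radical := by
      rw [← vanishingIdeal_zeroLocus_eq_radical (K := E), mem_vanishingIdeal_iff]
      intro u hu
      have h1 : eval u q = 0 := by
        have := mem_zeroLocus_iff.1 hu q (Ideal.subset_span rfl)
        simpa [aeval_eq_eval] using this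
      obtain ⟨r, hr⟩ := hqp
      have h2 : eval u p = 0 := by rw [hr, map_mul, h1, zero_mul]
      obtain ⟨y, hy, hy0⟩ := hz u h2
      rw [map_prod]
      refine Finset.prod_eq_zero hy ?_
      have h3 : (aeval u) (L y) = eval u (L y) := by simp [aeval_eq_eval]
      rw [h3, L_eval, hy0]
    obtain ⟨n, hn⟩ := hrad
    rw [Ideal.mem_span_singleton] at hn
    have hdvd : q ∣ ∏ y ∈ S, L y := hqprime.dvd_of_dvd_pow hn
    obtain ⟨y, hy, hqy⟩ := (Prime.dvd_finsetProd_iff hqprime _).1 hdvd
    have hLy : L y ≠ 0 := L_ne (hS y hy)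
    obtain ⟨s, hs⟩ := hqy
    have hs0 : s ≠ 0 := by
      rintro rfl
      rw [mul_zero] at hs
      exact hLy hs
    have hq0 : q ≠ 0 := hq.ne_zero
    have hdeg2 : (L y).totalDegree = 1 := (L_hom y).totalDegree hLy
    have hdeg3 : q.totalDegree + s.totalDegree = 1 := by
      rw [← totalDegree_mul_of_isDomain hq0 hs0, ← hs, hdeg2]
    have hqd : q.totalDegree ≠ 0 := by
      intro h
      rw [totalDegree_eq_zero_iff_eq_C] at h
      refine hq.not_isUnit ?_
      rw [h]
      refine (IsUnit.mk0 _ ?_).map C
      intro h0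
      rw [h0, map_zero] at h
      exact hq0 h
    have hsu : IsUnit s := by
      have h1 : s.totalDegree = 0 := by omega
      rw [totalDegree_eq_zero_iff_eq_C] at h1
      rw [h1]
      refine (IsUnit.mk0 _ ?_).map C
      intro h0
      rw [h0, map_zero] at h1
      exact hs0 h1
    have hLq : L y ∣ q := by
      rw [hs]
      obtain ⟨t, ht⟩ := hsu
      exact ⟨((t⁻¹ : (MvPolynomial V E)ˣ) : MvPolynomial V E), by
        rw [← ht, mul_assoc, Units.mul_inv, mul_one]⟩
    obtain ⟨p', hp'⟩ := hLq.trans hqp
    have hp'0 : p' ≠ 0 := by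
      rintro rfl
      rw [mul_zero] at hp'
      exact hp0 hp'
    have hp'h : p'.IsHomogeneous m := hom_of_mul (L_hom y) hLy (hp' ▸ hp)
    obtain ⟨c, σ, hc, hσ, hpσ⟩ := ih p' hp'0 hp'h (by
      intro u hu
      exact hz u (by rw [hp', map_mul, hu, mul_zero]))
    refine ⟨c, Fin.cons y σ, hc, ?_, ?_⟩
    · intro i
      refine Fin.cases ?_ (fun j => ?_) i
      · simpa using hy
      · simpa using hσ j
    · rw [Fin.prod_univ_succ]
      simp only [Fin.cons_zero, Fin.cons_succ]
      rw [hp', hpσ, L]
      ring

theorem exists_ne {E : Type*} [Field E] [Infinite E] {V : Type*} [Fintype V]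
    (S : Finset (V → E)) (hS : ∀ y ∈ S, y ≠ 0) :
    ∃ u : V → E, ∀ y ∈ S, ∑ w, u w * y w ≠ 0 := by
  by_contra hcon
  push Not at hcon
  have h1 : (∏ y ∈ S, L y : MvPolynomial V E) = 0 := by
    refine MvPolynomial.funext fun u => ?_
    obtain ⟨y, hy, hy0⟩ := hcon u
    rw [map_prod, map_zero]
    refine Finset.prod_eq_zero hy ?_
    rw [L_eval, hy0]
  rw [Finset.prod_eq_zero_iff] at h1
  obtain ⟨y, hy, hy0⟩ := h1
  exact L_ne (hS y hy) hy0

end Pool.Agent.KSF
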