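import Pool.Agent.KSF.Fin

/-!
# KSF FIBF: the fibres are finite

By `toCR_finite` every `cr a (X w)` is integral over `toCR a l`: there is a monic polynomial `q w` over
`MvPolynomial (Fin (d+1)) E` with `eval₂ (toCR a l) (cr a (X w)) (q w) = 0`. If `x` is over `t`, with
`eval (a x) (l i) = c * t i`, take `r` with `r ^ e * c = 1` (`IsAlgClosed.exists_pow_nat_eq`, `e ≥ 1`) and
`z = r • a x`: then `eval z (l i) = t i` and, by `eval_coneI`, `z w` is a root of the monic polynomial
`(q w).map (eval t)`. So `z` is in a finite set `Z` (`Set.Finite.pi`); `Z` is independent of `x`. For every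
`z ∈ Z` which is a multiple of `a x'` for some `x'` over `t` choose one such `x'`.
-/

set_option autoImplicit false

open MvPolynomial

namespace Pool.Agent.KSF

theorem fibre_finite {E : Type*} [Field E] [IsAlgClosed E] {Ω W : Type*} [Finite W]
    {a : Ω → W → E} (ha0 : ∀ x, a x ≠ 0) (ha : ClosedF a) {d e : ℕ}
    {l : Fin (d + 1) → MvPolynomial W E} (hl : FinCover a e l) (t : Fin (d + 1) → E)
    (ht : t ≠ 0) : ∃ S : Finset Ω, (∀ x ∈ S, Over a l t x) ∧
      ∀ x, Over a l t x → ∃ x' ∈ S, ∃ c : E, c ≠ 0 ∧ a x = c • a x' := by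
  classical
  have hfin := toCR_finite ha hl
  have hint : ∀ w : W, ∃ p : Polynomial (MvPolynomial (Fin (d + 1)) E), p.Monic ∧
      p.eval₂ (toCR a l) (cr a (X w)) = 0 := fun w => hfin.to_isIntegral (cr a (X w))
  choose p hpm hp using hint
  have hZ : {z : W → E | ∀ w, z w ∈ (((p w).map (eval t)).roots.toFinset : Set E)}.Finite :=
    Set.Finite.pi' fun w => Finset.finite_toSet _
  set Y : Set (W → E) := {z | z ∈ {z : W → E | ∀ w, z w ∈
    (((p w).map (eval t)).roots.toFinset : Set E)} ∧
      ∃ x', Over a l t x' ∧ ∃ c : E, c ≠ 0 ∧ z = c • a x'} with hYdef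
  have hY : Y.Finite := hZ.subset fun z hz => hz.1
  have hch : ∀ z : Y, ∃ x', Over a l t x' ∧ ∃ c : E, c ≠ 0 ∧ (z : W → E) = c • a x' :=
    fun z => z.2.2
  choose f hf using hch
  refine ⟨hY.toFinset.attach.image (fun z => f ⟨z.1, hY.mem_toFinset.1 z.2⟩), ?_, ?_⟩
  · intro x hx
    obtain ⟨z, _, rfl⟩ := Finset.mem_image.1 hx
    exact (hf _).1
  · intro x hx
    obtain ⟨c, hc, hxc⟩ := hx
    obtain ⟨r, hr⟩ := IsAlgClosed.exists_pow_nat_eq c⁻¹ (n := e) (by have := hl.pos; omega)
    have hr0 : r ≠ 0 := by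
      rintro rfl
      rw [zero_pow (by have := hl.pos; omega)] at hr
      exact (inv_ne_zero hc) hr.symm
    have h2 : ∀ i, eval (r • a x) (l i) = t i := by
      intro i
      rw [eval_smul_form (hl.hom i), hxc i, hr, ← mul_assoc, inv_mul_cancel₀ hc, one_mul]
    -- evaluation at the point of the cone
    let ev : CR a →+* E := Ideal.Quotient.lift (coneI a) (eval (r • a x))
      fun P hP => eval_coneI hP x r
    have hev : ∀ P : MvPolynomial W E, ev (cr a P) = eval (r • a x) P := fun P =>
      Ideal.Quotient.lift_mk _ _ _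
    have hcomp : ev.comp (toCR a l) = eval t := by
      apply RingHom.ext
      intro H
      have h3 : eval (r • a x) (aeval l H) = eval (fun i => eval (r • a x) (l i)) H := by
        rw [← coe_aeval_eq_eval, ← coe_aeval_eq_eval]
        simp only [RingHom.coe_coe]
        rw [← AlgHom.comp_apply, comp_aeval]
      rw [RingHom.comp_apply]
      change ev (cr a (aeval l H)) = _
      rw [hev, h3]
      congr 2
      exact funext h2
    have hzY : r • a x ∈ Y := by
      refine ⟨?_, x, ⟨c, hc, hxc⟩, r, hr0, rfl⟩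
      intro w
      rw [Finset.mem_coe, Multiset.mem_toFinset,
        Polynomial.mem_roots ((hpm w).map (eval t)).ne_zero, Polynomial.IsRoot.def,
        Polynomial.eval_map]
      have h4 := congrArg ev (hp w)
      rw [map_zero, Polynomial.hom_eval₂, hcomp, hev, eval_X] at h4
      exact h4
    obtain ⟨c', hc', hz⟩ := (hf ⟨r • a x, hzY⟩).2
    refine ⟨f ⟨r • a x, hzY⟩, Finset.mem_image.2 ⟨⟨r • a x, hY.mem_toFinset.2 hzY⟩,
      Finset.mem_attach _ _, rfl⟩, r⁻¹ * c', mul_ne_zero (inv_ne_zero hr0) hc', ?_⟩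
    rw [mul_smul]
    have h5 : r • a x = c' • a (f ⟨r • a x, hzY⟩) := hz
    rw [← h5, smul_smul, inv_mul_cancel₀ hr0, one_smul]

end Pool.Agent.KSF
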