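import Pool.Agent.KSF.Null

/-!
# KSF FIN: the homogeneous coordinate ring is finite over the coordinate ring of `P^d`

`toCR_finite`: by `null` with `Φ = l`, `k = e` there is `M ≥ 1` with `cr (X w) ^ M = ∑ i, cr (g i) * toCR (X i)`
and `g i` of degree `M - e < M`. The module generated over `MvPolynomial (Fin (d+1)) E` by the
classes of the (finitely many) monomials of degree `< (card W) * M` contains the class of every
monomial (strong induction on the degree: a monomial of degree `≥ (card W) * M` is divisible by some
`X w ^ M`; the remaining factor times `g i` is a sum of monomials of smaller degree, and then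
multiply by `toCR (X i)`), so it is everything. `RingHom.Finite` unfolds to `Module.Finite` for
`RingHom.toAlgebra`.
`toCR_injective`: if `aeval l H ∈ coneI a`, then `eval t H = 0` for every `t ≠ 0`: take `x` over `t`
(`h.surj`), `eval (a x) (l i) = c * t i`, and `r` with `r ^ e * c = 1` (`IsAlgClosed.exists_pow_nat_eq`);
then `eval (r • a x) (l i) = t i` and `eval_coneI` gives `eval t H = 0`. By continuity-free argument:
`X 0 * H` vanishes everywhere, so `X 0 * H = 0` (`MvPolynomial.funext`) and `H = 0`.
-/

set_option autoImplicit false

open MvPolynomial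

namespace Pool.Agent.KSF

open Pool.Agent.Helper63.SAND

private lemma fin_toCR_apply {E : Type*} [Field E] {Ω W : Type*} {a : Ω → W → E} {d : ℕ}
    (l : Fin (d + 1) → MvPolynomial W E) (H : MvPolynomial (Fin (d + 1)) E) :
    toCR a l H = cr a (aeval l H) := rfl

private lemma fin_toCR_C {E : Type*} [Field E] {Ω W : Type*} {a : Ω → W → E} {d : ℕ}
    (l : Fin (d + 1) → MvPolynomial W E) (c : E) :
    toCR a l (C c) = cr a (C c) := by
  rw [fin_toCR_apply, algHom_C]
  rfl

private lemma fin_toCR_X {E : Type*} [Field E] {Ω W : Type*} {a : Ω → W → E} {d : ℕ}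
    (l : Fin (d + 1) → MvPolynomial W E) (i : Fin (d + 1)) :
    toCR a l (X i) = cr a (l i) := by
  rw [fin_toCR_apply, aeval_X]

theorem toCR_finite {E : Type*} [Field E] [IsAlgClosed E] {Ω W : Type*} [Finite W]
    {a : Ω → W → E} (ha : ClosedF a) {d e : ℕ} {l : Fin (d + 1) → MvPolynomial W E}
    (h : FinCover a e l) : (toCR a l).Finite := by
  classical
  have := Fintype.ofFinite W
  obtain ⟨M, hk, hM⟩ := null ha l (fun _ => e) h.hom h.base
  have heM : e ≤ M := hk 0
  have he := h.pos
  letI := (toCR a l).toAlgebra
  change Module.Finite (MvPolynomial (Fin (d + 1)) E) (CR a)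
  set B := Fintype.card W * M with hB
  set T : Set (CR a) := (fun s : W →₀ ℕ => cr a (monomial s 1)) '' {s | s.degree ≤ B} with hT
  have hTf : T.Finite := (Finsupp.finite_of_degree_le B).image _
  set S : Submodule (MvPolynomial (Fin (d + 1)) E) (CR a) := Submodule.span _ T with hS
  have hsmul : ∀ (c : MvPolynomial (Fin (d + 1)) E) (x : CR a), c • x = toCR a l c * x :=
    fun c x => rfl
  -- polynomials all of whose monomials are in `S`
  have hpoly : ∀ Q : MvPolynomial W E, (∀ s ∈ Q.support, cr a (monomial s 1) ∈ S) →
      cr a Q ∈ S := by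
    intro Q hQ
    rw [Q.as_sum, map_sum]
    refine Submodule.sum_mem _ fun s hs => ?_
    have e1 : (monomial s (coeff s Q) : MvPolynomial W E) = C (coeff s Q) * monomial s 1 := by
      rw [C_mul_monomial, mul_one]
    rw [e1, map_mul, ← fin_toCR_C l, ← hsmul]
    exact S.smul_mem _ (hQ s hs)
  have hmain : ∀ n : ℕ, ∀ s : W →₀ ℕ, s.degree = n → cr a (monomial s 1) ∈ S := by
    intro n
    induction n using Nat.strong_induction_on with
    | _ n ih =>
      intro s hs
      by_cases hn : n ≤ B
      · exact Submodule.subset_span ⟨s, by rw [Set.mem_ofPred_eq, hs]; exact hn, rfl⟩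
      · obtain ⟨w, hw⟩ : ∃ w, M ≤ s w := by
          by_contra hcon
          push Not at hcon
          apply hn
          rw [← hs, Finsupp.degree_eq_sum, hB]
          calc ∑ i, s i ≤ ∑ _i : W, M := Finset.sum_le_sum fun i _ => (hcon i).le
            _ = Fintype.card W * M := by rw [Finset.sum_const, Finset.card_univ, smul_eq_mul]
        obtain ⟨g, hg, hv⟩ := hM M le_rfl w
        have hle : Finsupp.single w M ≤ s := by
          rw [Finsupp.single_le_iff]
          exact hw
        have hdeg : (s - Finsupp.single w M).degree + M = n := by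
          have h1 : s - Finsupp.single w M + Finsupp.single w M = s := tsub_add_cancel_of_le hle
          have h2 := congrArg Finsupp.degree h1
          rw [map_add, Finsupp.degree_single, hs] at h2
          exact h2
        have e1 : (monomial s 1 : MvPolynomial W E) =
            X w ^ M * monomial (s - Finsupp.single w M) 1 := by
          rw [X_pow_eq_monomial, monomial_mul, one_mul, add_tsub_cancel_of_le hle]
        have hhom : (X w ^ M - ∑ j, g j * l j : MvPolynomial W E).IsHomogeneous M := by
          refine IsHomogeneous.sub ?_ ?_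
          · have := (isHomogeneous_X E w).pow M
            rwa [one_mul] at this
          · refine IsHomogeneous.sum _ _ _ fun j _ => ?_
            have := (hg j).mul (h.hom j)
            rwa [Nat.sub_add_cancel heM] at this
        have e2 : cr a (X w ^ M) = ∑ j, toCR a l (X j) * cr a (g j) := by
          have h3 := (cr_eq_zero hhom).2 hv
          rw [map_sub, sub_eq_zero] at h3
          rw [h3, map_sum]
          refine Finset.sum_congr rfl fun j _ => ?_
          rw [map_mul, fin_toCR_X, mul_comm]
        rw [e1, map_mul, e2, Finset.sum_mul]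
        refine Submodule.sum_mem _ fun j _ => ?_
        rw [mul_assoc, ← map_mul, ← hsmul]
        refine S.smul_mem _ (hpoly _ fun u hu => ?_)
        have hhom2 : (g j * monomial (s - Finsupp.single w M) 1 : MvPolynomial W E).IsHomogeneous
            ((M - e) + (s - Finsupp.single w M).degree) :=
          (hg j).mul (isHomogeneous_monomial _ rfl)
        have h4 : u.degree = (M - e) + (s - Finsupp.single w M).degree := by
          have h5 := hhom2 (mem_support_iff.1 hu)
          have h6 : u.degree = (Finsupp.weight (1 : W → ℕ)) u := by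
            rw [Finsupp.degree_eq_weight_one]
            rfl
          rw [h6]
          exact h5
        exact ih u.degree (by omega) u rfl
  have htop : S = ⊤ := by
    rw [eq_top_iff]
    intro x _
    obtain ⟨Q, rfl⟩ := Ideal.Quotient.mk_surjective x
    exact hpoly Q fun s _ => hmain _ s rfl
  exact ⟨⟨hTf.toFinset, by rw [Set.Finite.coe_toFinset]; exact htop⟩⟩

theorem toCR_injective {E : Type*} [Field E] [IsAlgClosed E] {Ω W : Type*}
    {a : Ω → W → E} {d e : ℕ} {l : Fin (d + 1) → MvPolynomial W E}
    (h : FinCover a e l) : Function.Injective (toCR a l) := by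
  rw [injective_iff_map_eq_zero]
  intro H hH
  rw [fin_toCR_apply, Ideal.Quotient.eq_zero_iff_mem] at hH
  have key : ∀ t : Fin (d + 1) → E, t ≠ 0 → eval t H = 0 := by
    intro t ht
    obtain ⟨x, c, hc, hx⟩ := h.surj t ht
    obtain ⟨r, hr⟩ := IsAlgClosed.exists_pow_nat_eq c⁻¹ (n := e) (by have := h.pos; omega)
    have h1 := eval_coneI hH x r
    have h2 : ∀ i, eval (r • a x) (l i) = t i := by
      intro i
      rw [eval_smul_form (h.hom i), hx i, hr, ← mul_assoc, inv_mul_cancel₀ hc, one_mul]
    have h3 : eval (r • a x) (aeval l H) = eval (fun i => eval (r • a x) (l i)) H := by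
      rw [← coe_aeval_eq_eval, ← coe_aeval_eq_eval]
      simp only [RingHom.coe_coe]
      rw [← AlgHom.comp_apply, comp_aeval]
    rw [h3] at h1
    simpa only [h2] using h1
  have h4 : (X 0 * H : MvPolynomial (Fin (d + 1)) E) = 0 := by
    have : Infinite E := IsAlgClosed.instInfinite
    apply MvPolynomial.funext
    intro t
    rw [map_mul, eval_X, map_zero]
    by_cases ht : t = 0
    · rw [ht, Pi.zero_apply, zero_mul]
    · rw [key t ht, mul_zero]
  exact (mul_eq_zero.1 h4).resolve_left (X_ne_zero 0)

end Pool.Agent.KSF
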