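import Pool.Agent.KSF.Main

/-!
# KSF: the final theorem
-/

set_option autoImplicit false

open MvPolynomial
open scoped LinearAlgebra.Projectivization

namespace Pool.Agent.KSF

open Pool.Agent.Helper90.KSC Pool.Agent.Helper63.SAND Pool.Agent.Helper63.WH

theorem final {E : Type*} [Field E] [CharZero E] [Algebra.IsAlgebraic ℚ E] [IsAlgClosed E]
    {ι : Type*} [Fintype ι] [DecidableEq ι] {N : ι → ℕ} (K : IntermediateField ℚ E)
    (X : Set (PPt E N)) (hX : ZClosed X) (hXi : Irred X) (f : PPt E N → PPt E N)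
    (hf : Set.MapsTo f X X) (hloc : LocallyOver K X f) (A : Matrix ι ι ℤ) (hA : ActsBy X f A)
    (δ : ℝ) (hδ : IsDynDegree X f δ) (d e : ℕ) (he : 1 ≤ e)
    (l : Fin (d + 1) → MvPolynomial (SIx N) E) (hl : ∀ i, (l i).IsHomogeneous e)
    (hbase : ∀ x ∈ X, ∃ i, eval (seg x) (l i) ≠ 0)
    (hsurj : ∀ t : Fin (d + 1) → E, t ≠ 0 →
      ∃ x ∈ X, ∃ c : E, c ≠ 0 ∧ ∀ i, eval (seg x) (l i) = c * t i) :
    ∃ B : ℝ, ∀ t : Fin (d + 1) → E, t ≠ 0 → B < absHeight t →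
      ∃ x ∈ X, (∃ c : E, c ≠ 0 ∧ ∀ i, eval (seg x) (l i) = c * t i) ∧
        ∀ (σ : E ≃ₐ[K] E), ∀ x' ∈ X, IsConj (σ : E ≃+* E) x x' →
          ∀ b : ℝ, AbsArithDegree f x' b → δ ≤ b := by
  obtain ⟨B, hB⟩ := main X hX hXi f hf hloc.locallyByForms A hA δ hδ d e he l hl hbase hsurj
  refine ⟨B, fun t ht hBt => ?_⟩
  obtain ⟨x, hx, hxt, hgood⟩ := hB t ht hBt
  exact ⟨x, hx, hxt, fun σ x' hx' hc b hb => hgood b (arith_conj hf hloc σ x x' hx hx' hc b hb)⟩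

end Pool.Agent.KSF
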