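import Mathlib

/-!
# KSF INTP: polynomials whose values at the `E`-points are in a subring

`eq_of_eval_eq`: for every `E`-linear map `λ : F → E` the polynomial over `E` with the coefficients
`λ (coeff β (p - q))` vanishes at all `u : V → E` (`λ` of the value of `p - q`), so it is zero
(`MvPolynomial.funext`); the `λ` separate the elements of `F` (vector spaces over a field:
`Module.forall_dual_apply_eq_zero_iff`).
`exists_map_eq`: the range of `algebraMap A F` is an `E`-subspace `S` of `F`; for every `E`-linear
`λ : F → E` killing `S` the polynomial with the coefficients `λ (coeff β p)` vanishes at all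
`u : V → E`; if a coefficient of `p` were not in `S` there would be `λ` with `λ S = 0` and
`λ (coeff β p) ≠ 0` (`Submodule.exists_le_ker_of_notMem` or
`Submodule.exists_dual_map_eq_bot_of_notMem`). So all the coefficients are in `S`
(`MvPolynomial.mem_range_map_iff_coeffs_subset` or build `q` by hand).
-/

set_option autoImplicit false

open MvPolynomial

namespace Pool.Agent.KSF

/-- the polynomial with the coefficients `λ (coeff β p)` -/
noncomputable def intpL {E : Type*} [Field E] {F : Type*} [CommRing F] [Algebra E F]
    {V : Type*} (lam : F →ₗ[E] E) (p : MvPolynomial V F) : MvPolynomial V E :=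
  ∑ β ∈ p.support, monomial β (lam (coeff β p))

theorem intp_coeff {E : Type*} [Field E] {F : Type*} [CommRing F] [Algebra E F]
    {V : Type*} (lam : F →ₗ[E] E) (p : MvPolynomial V F) (β : V →₀ ℕ) :
    coeff β (intpL lam p) = lam (coeff β p) := by
  classical
  unfold intpL
  rw [coeff_sum]
  simp only [coeff_monomial]
  rw [Finset.sum_ite_eq']
  split_ifs with h
  · rfl
  · rw [notMem_support_iff.1 h, map_zero]

theorem intp_eval {E : Type*} [Field E] {F : Type*} [CommRing F] [Algebra E F]
    {V : Type*} (lam : F →ₗ[E] E) (p : MvPolynomial V F) (u : V → E) :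
    eval u (intpL lam p) = lam (eval (fun w => algebraMap E F (u w)) p) := by
  unfold intpL
  rw [map_sum, eval_eq, map_sum]
  refine Finset.sum_congr rfl fun β _ => ?_
  rw [eval_monomial, Finsupp.prod]
  have h1 : ∏ i ∈ β.support, (algebraMap E F (u i)) ^ β i =
      algebraMap E F (∏ i ∈ β.support, u i ^ β i) := by
    rw [map_prod]
    refine Finset.prod_congr rfl fun i _ => ?_
    rw [map_pow]
  rw [h1, mul_comm (coeff β p), ← Algebra.smul_def, map_smul, smul_eq_mul, mul_comm]

theorem intp_eq_zero {E : Type*} [Field E] [Infinite E] {F : Type*} [CommRing F] [Algebra E F]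
    {V : Type*} (lam : F →ₗ[E] E) (p : MvPolynomial V F)
    (h : ∀ u : V → E, lam (eval (fun w => algebraMap E F (u w)) p) = 0) (β : V →₀ ℕ) :
    lam (coeff β p) = 0 := by
  have h1 : intpL lam p = 0 := by
    apply MvPolynomial.funext
    intro u
    rw [intp_eval, h u, map_zero]
  rw [← intp_coeff, h1, coeff_zero]

theorem eq_of_eval_eq (E : Type*) [Field E] [Infinite E] {F : Type*} [CommRing F] [Algebra E F]
    {V : Type*} [Finite V] (p q : MvPolynomial V F)
    (h : ∀ u : V → E, eval (fun w => algebraMap E F (u w)) p =
      eval (fun w => algebraMap E F (u w)) q) : p = q := by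
  rw [← sub_eq_zero]
  ext β
  rw [coeff_zero, ← Module.forall_dual_apply_eq_zero_iff E]
  intro lam
  apply intp_eq_zero
  intro u
  rw [map_sub, h u, sub_self, map_zero]

theorem exists_map_eq (E : Type*) [Field E] [Infinite E] {A F : Type*} [CommRing A] [CommRing F]
    [Algebra E A] [Algebra E F] [Algebra A F] [IsScalarTower E A F] {V : Type*} [Finite V]
    (p : MvPolynomial V F)
    (h : ∀ u : V → E, ∃ c : A, eval (fun w => algebraMap E F (u w)) p = algebraMap A F c) :
    ∃ q : MvPolynomial V A, map (algebraMap A F) q = p := by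
  have h0 : ∀ β, ∃ c : A, algebraMap A F c = coeff β p := by
    intro β
    by_contra hc
    have h1 : coeff β p ∉ LinearMap.range (IsScalarTower.toAlgHom E A F).toLinearMap := by
      rintro ⟨c, hc'⟩
      exact hc ⟨c, hc'⟩
    obtain ⟨lam, h2, h3⟩ := Submodule.exists_le_ker_of_notMem h1
    apply h2
    apply intp_eq_zero
    intro u
    obtain ⟨c, hc'⟩ := h u
    rw [hc']
    exact h3 ⟨c, rfl⟩
  have h1 : p ∈ Set.range (MvPolynomial.map (algebraMap A F) :
      MvPolynomial V A → MvPolynomial V F) := by
    rw [mem_range_map_iff_coeffs_subset]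
    intro x hx
    obtain ⟨β, -, rfl⟩ := mem_coeffs_iff.1 hx
    exact h0 β
  exact h1

end Pool.Agent.KSF
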