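import Pool.Agent.KSF.Homg
import Pool.Agent.KSF.Intp

/-!
# KSF NHOM: the primitive part of the norm form of a vector of forms

`scale`: for `c ≠ 0` the automorphism `X w ↦ C c * X w` of `MvPolynomial W E` maps `coneI a` into itself
(components are multiplied by constants), so it induces a ring automorphism `σ` of `CR a`; with
`τ` the automorphism `X i ↦ C (c ^ e) * X i` of `MvPolynomial (Fin (d+1)) E` one has
`σ (toCR a l q) = toCR a l (τ q)` (`l i` is a form of degree `e`), and `σ (cr a P) = cr a (C (c^k) * P)`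
for a form `P` of degree `k`.
`norm_hom`: put `Q = nf.N (fun w => cr a (Y w))`. For `u : V → E` (constants `C (u w)`):
`τ (eval (C ∘ u) Q) = τ (nrm b) = nrm (σ b) = nrm (φ (C (c^k)) * b) = C (c^k)^m * eval (C ∘ u) Q` with
`b = ∑ w, φ (C (u w)) * cr (Y w)`. So `map τ Q` and `C (C (c^(k m))) * Q` take the same values at all
`C ∘ u`, `u : V → E`; hence they are equal (`eq_of_eval_eq`, KSF INTP).
So every coefficient `Q_α` satisfies `τ Q_α = C (c^(k m)) * Q_α`, and `homog_of_scale` applies
(`bind₁ (fun i => C (c^e) * X i)` is `τ`). `Q ≠ 0`: its value at `Pi.single w 1` is `nrm (cr (Y w)) ≠ 0`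
for a `w` with `¬ Van a (Y w)` (`cr_eq_zero`). Then `exists_prim`.
-/

set_option autoImplicit false

open MvPolynomial

namespace Pool.Agent.KSF

open Pool.Agent.Helper63.SAND

/-- The scaling automorphism of a polynomial ring. -/
noncomputable def scal {E : Type*} [Field E] (S : Type*) (c : E) (hc : c ≠ 0) :
    MvPolynomial S E ≃ₐ[E] MvPolynomial S E :=
  AlgEquiv.ofAlgHom (bind₁ fun i => C c * X i) (bind₁ fun i => C c⁻¹ * X i)
    (by
      apply MvPolynomial.algHom_ext
      intro i
      rw [AlgHom.comp_apply, bind₁_X_right, map_mul, bind₁_C_right, bind₁_X_right, ← mul_assoc,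
        ← C_mul, inv_mul_cancel₀ hc, C_1, one_mul, AlgHom.id_apply])
    (by
      apply MvPolynomial.algHom_ext
      intro i
      rw [AlgHom.comp_apply, bind₁_X_right, map_mul, bind₁_C_right, bind₁_X_right, ← mul_assoc,
        ← C_mul, mul_inv_cancel₀ hc, C_1, one_mul, AlgHom.id_apply])

theorem scal_apply {E : Type*} [Field E] {S : Type*} {c : E} (hc : c ≠ 0)
    (p : MvPolynomial S E) : scal S c hc p = bind₁ (fun i => C c * X i) p := rfl

theorem scal_C {E : Type*} [Field E] {S : Type*} {c : E} (hc : c ≠ 0) (x : E) :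
    scal S c hc (C x) = C x := by
  rw [scal_apply, bind₁_C_right]

theorem scal_inv {E : Type*} [Field E] {S : Type*} {c : E} (hc : c ≠ 0)
    (p : MvPolynomial S E) : scal S c hc (scal S c⁻¹ (inv_ne_zero hc) p) = p := by
  have h : ((scal S c hc).toAlgHom.comp (scal S c⁻¹ (inv_ne_zero hc)).toAlgHom) =
      AlgHom.id E (MvPolynomial S E) := by
    apply MvPolynomial.algHom_ext
    intro i
    change scal S c hc (scal S c⁻¹ (inv_ne_zero hc) (X i)) = X i
    rw [scal_apply (inv_ne_zero hc), bind₁_X_right, map_mul, scal_C, scal_apply hc, bind₁_X_right,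
      ← mul_assoc, ← C_mul, inv_mul_cancel₀ hc, C_1, one_mul]
  exact DFunLike.congr_fun h p

/-- The scaling automorphism at a form. -/
theorem scal_form {E : Type*} [Field E] {S : Type*} {c : E} (hc : c ≠ 0)
    {p : MvPolynomial S E} {k : ℕ} (hp : p.IsHomogeneous k) :
    scal S c hc p = C (c ^ k) * p := by
  have h1 : ∀ d ∈ p.support, scal S c hc (monomial d (coeff d p)) =
      C (c ^ k) * monomial d (coeff d p) := by
    intro d hd
    have h2 : ∑ i ∈ d.support, d i = k := by
      have := hp (mem_support_iff.1 hd)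
      rw [Finsupp.weight_apply, Finsupp.sum] at this
      simpa using this
    rw [scal_apply, bind₁_monomial, monomial_eq, Finsupp.prod]
    simp only [mul_pow, Finset.prod_mul_distrib, ← C_pow, ← map_prod]
    rw [Finset.prod_pow_eq_pow_sum, h2]
    ring
  conv_lhs => rw [p.as_sum]
  conv_rhs => rw [p.as_sum]
  rw [map_sum, Finset.mul_sum]
  exact Finset.sum_congr rfl h1

theorem scal_mem {E : Type*} [Field E] {Ω W : Type*} {a : Ω → W → E} {c : E} (hc : c ≠ 0)
    {p : MvPolynomial W E} (hp : p ∈ coneI a) : scal W c hc p ∈ coneI a := by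
  rw [← sum_homogeneousComponent p, map_sum]
  refine Ideal.sum_mem _ fun i _ => ?_
  rw [scal_form hc (homogeneousComponent_isHomogeneous i p)]
  exact Ideal.mul_mem_left _ _ (component_mem_coneI hp i)

theorem scal_map {E : Type*} [Field E] {Ω W : Type*} (a : Ω → W → E) {c : E} (hc : c ≠ 0) :
    coneI a = (coneI a).map ((scal W c hc).toRingEquiv : MvPolynomial W E →+* MvPolynomial W E) := by
  apply le_antisymm
  · intro p hp
    rw [← scal_inv hc p]
    exact Ideal.mem_map_of_mem
      ((scal W c hc).toRingEquiv : MvPolynomial W E →+* MvPolynomial W E)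
      (scal_mem (inv_ne_zero hc) hp)
  · rw [Ideal.map_le_iff_le_comap]
    intro p hp
    exact scal_mem hc hp

/-- The automorphism of the coordinate ring. -/
noncomputable def scalCR {E : Type*} [Field E] {Ω W : Type*} (a : Ω → W → E) (c : E) (hc : c ≠ 0) :
    CR a ≃+* CR a :=
  Ideal.quotientEquiv (coneI a) (coneI a) (scal W c hc).toRingEquiv (scal_map a hc)

theorem scalCR_cr {E : Type*} [Field E] {Ω W : Type*} (a : Ω → W → E) {c : E} (hc : c ≠ 0)
    (p : MvPolynomial W E) : scalCR a c hc (cr a p) = cr a (scal W c hc p) := rfl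

theorem scalCR_toCR {E : Type*} [Field E] {Ω W : Type*} {a : Ω → W → E} {d e : ℕ}
    {l : Fin (d + 1) → MvPolynomial W E} (hl : ∀ i, (l i).IsHomogeneous e) {c : E} (hc : c ≠ 0)
    (q : MvPolynomial (Fin (d + 1)) E) :
    scalCR a c hc (toCR a l q) = toCR a l (scal (Fin (d + 1)) (c ^ e) (pow_ne_zero e hc) q) := by
  have h : ((scal W c hc).toAlgHom.comp (aeval l : MvPolynomial (Fin (d + 1)) E →ₐ[E] _)) =
      (aeval l : MvPolynomial (Fin (d + 1)) E →ₐ[E] _).comp
        (scal (Fin (d + 1)) (c ^ e) (pow_ne_zero e hc)).toAlgHom := by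
    apply MvPolynomial.algHom_ext
    intro i
    change scal W c hc (aeval l (X i)) =
      aeval l (scal (Fin (d + 1)) (c ^ e) (pow_ne_zero e hc) (X i))
    rw [aeval_X, scal_form hc (hl i), scal_apply, bind₁_X_right, map_mul, aeval_X, aeval_C]
    rfl
  exact congrArg (cr a) (DFunLike.congr_fun h q)

theorem toCR_C {E : Type*} [Field E] {Ω W : Type*} {a : Ω → W → E} {d : ℕ}
    {l : Fin (d + 1) → MvPolynomial W E} (x : E) : toCR a l (C x) = cr a (C x) := by
  change cr a (aeval l (C x)) = _
  rw [aeval_C]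
  rfl

theorem norm_rep {E : Type*} [Field E] [Infinite E] {Ω W : Type*} {a : Ω → W → E} {d e : ℕ}
    {l : Fin (d + 1) → MvPolynomial W E} (hl : FinCover a e l) {V : Type*} [Fintype V]
    (nf : NormForm (toCR a l) V) (k : ℕ) (Y : V → MvPolynomial W E)
    (hY : ∀ w, (Y w).IsHomogeneous k) (hY0 : ∃ w, ¬ Van a (Y w)) :
    ∃ (g : MvPolynomial (Fin (d + 1)) E) (P : MvPolynomial V (MvPolynomial (Fin (d + 1)) E))
      (e' : ℕ), g ≠ 0 ∧ nf.N (fun w => cr a (Y w)) = C g * P ∧ Prim P ∧ CoeffHom e' P ∧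
        P.IsHomogeneous nf.m := by
  classical
  set Q := nf.N (fun w => cr a (Y w)) with hQ
  -- the values
  have hval : ∀ (c : E) (hc : c ≠ 0) (u : V → E),
      scal (Fin (d + 1)) (c ^ e) (pow_ne_zero e hc) (eval (fun w => C (u w)) Q) =
        C (c ^ (k * nf.m)) * eval (fun w => C (u w)) Q := by
    intro c hc u
    rw [hQ, nf.eval_eq]
    have h1 := nf.nrm_equiv (scalCR a c hc)
      (scal (Fin (d + 1)) (c ^ e) (pow_ne_zero e hc)).toRingEquiv
      (fun q => scalCR_toCR hl.hom hc q) (∑ w, toCR a l (C (u w)) * cr a (Y w))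
    have h2 : scalCR a c hc (∑ w, toCR a l (C (u w)) * cr a (Y w)) =
        toCR a l (C (c ^ k)) * ∑ w, toCR a l (C (u w)) * cr a (Y w) := by
      rw [map_sum, Finset.mul_sum]
      refine Finset.sum_congr rfl fun w _ => ?_
      rw [map_mul, toCR_C, toCR_C, scalCR_cr, scalCR_cr, scal_C, scal_form hc (hY w), map_mul]
      ring
    rw [h2, nf.nrm_mul, nf.nrm_alg, ← C_pow, ← pow_mul] at h1
    exact h1.symm
  have hmap : ∀ (c : E) (hc : c ≠ 0),
      map ((scal (Fin (d + 1)) (c ^ e) (pow_ne_zero e hc)).toRingEquiv :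
        MvPolynomial (Fin (d + 1)) E →+* MvPolynomial (Fin (d + 1)) E) Q =
        C (C (c ^ (k * nf.m))) * Q := by
    intro c hc
    apply eq_of_eval_eq E
    intro u
    have h1 := hval c hc u
    rw [map_mul, eval_C]
    change _ = C (c ^ (k * nf.m)) * eval (fun w => C (u w)) Q
    rw [← h1, eval_map]
    have h2 := (eval₂_comp_left ((scal (Fin (d + 1)) (c ^ e) (pow_ne_zero e hc)).toRingEquiv :
        MvPolynomial (Fin (d + 1)) E →+* MvPolynomial (Fin (d + 1)) E) (RingHom.id _)
        (fun w => C (u w)) Q)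
    rw [RingHom.comp_id] at h2
    have h3 : (((scal (Fin (d + 1)) (c ^ e) (pow_ne_zero e hc)).toRingEquiv :
        MvPolynomial (Fin (d + 1)) E →+* MvPolynomial (Fin (d + 1)) E) ∘
          fun w => (C (u w) : MvPolynomial (Fin (d + 1)) E)) = fun w => C (u w) := by
      funext w
      exact scal_C (pow_ne_zero e hc) (u w)
    rw [h3] at h2
    exact h2.symm
  have hcoef : CoeffHom (k * nf.m / e) Q := by
    intro α
    apply homog_of_scale _ e (k * nf.m) hl.pos
    intro c hc
    have h1 := congrArg (coeff α) (hmap c hc)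
    rw [coeff_map, coeff_C_mul] at h1
    exact h1
  have hQ0 : Q ≠ 0 := by
    obtain ⟨w0, hw0⟩ := hY0
    intro h0
    have h1 : eval (fun w => C ((Pi.single w0 (1 : E) : V → E) w)) Q = 0 := by
      rw [h0, map_zero]
    rw [hQ, nf.eval_eq] at h1
    have h2 : ∑ w, toCR a l (C ((Pi.single w0 (1 : E) : V → E) w)) * cr a (Y w) =
        cr a (Y w0) := by
      rw [Finset.sum_eq_single w0]
      · rw [Pi.single_eq_same, C_1, map_one, one_mul]
      · intro w _ hw
        rw [Pi.single_eq_of_ne hw, C_0, map_zero, zero_mul]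
      · intro h
        exact absurd (Finset.mem_univ _) h
    rw [h2] at h1
    exact nf.nrm_ne _ (fun h => hw0 ((cr_eq_zero (hY w0)).1 h)) h1
  exact exists_prim Q hQ0 (k * nf.m / e) nf.m hcoef (nf.hom _)

end Pool.Agent.KSF
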