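import Pool.Agent.KSF.Defs

/-!
# KSF REPF: the degree in `t` of the norm form bounds the degree of the map

Let `w₀` with `¬ Van a (Y s₀ w₀)`, `D = Y s₀ w₀`, `p 0 = eval (Pi.single w₀ 1) P`
(`= P.coeff (single w₀ m)`); `p 0 ≠ 0` because `g * p 0 = nf.nrm (cr a D) ≠ 0` (`nf.eval_eq`, `nf.nrm_ne`).
For `w ≠ w₀` put `r = fun v => if v = w₀ then cr (Y s₀ w) else if v = w then - cr D else 0`; then
`∑ r v * cr (Y s₀ v) = 0`, so `eval₂ (toCR a l) r (nf.N ..) = 0` (`nf.vanish`), and
`eval₂ (toCR a l) r P = 0` (cancel `toCR a l g ≠ 0`, `toCR` injective). Since `P` is homogeneous of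
degree `m`, this says `∑_{i ≤ m} toCR (p i) * cr (Y s₀ w) ^ (m - i) * cr D ^ i = 0` with
`p i = (-1)^i * P.coeff (single w₀ (m-i) + single w i)`. Multiply by `toCR (p 0) ^ (m - 1)`; with
`N = aeval l (p 0) * Y s₀ w`, `A i = aeval l (p 0 ^ (i-1) * p i)` (`i ≥ 1`; `A 0 = 0`), `b = e * e'`:
`N ^ m + ∑ i ∈ range m, A (i+1) * D ^ (i+1) * N ^ (m-1-i)` vanishes on the family. All these are
forms (`aeval l` multiplies degrees by `e`). `hΘ` gives a form `Q w` of degree `e * e' + c₀` with
`Van a (Θ * N - Q w * D)`. For `w = w₀` take `Q w₀ = Θ * aeval l (p 0)`, not vanishing on the family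
(`hp`, injectivity of `toCR`). So `Van a (D * (Q w * Y s v - Q v * Y s w))` for all `s, w, v` (charts are
proportional), and by `PrimeH` the bracket vanishes at all `x`. For a given `x` choose `s, v` with
`eval (a x) (Y s v) ≠ 0`, `Y s (a x) = κ y x`, `κ ≠ 0`: then `eval (a x) (Q w) * y x v = eval (a x) (Q v) * y x w`.
-/

set_option autoImplicit false

open MvPolynomial

namespace Pool.Agent.KSF

open Pool.Agent.Helper63.SAND

/-- a form in the variables `w₀`, `w` -/
private theorem eval₂_two {A R V : Type*} [CommRing A] [CommRing R] [Fintype V] (φ : A →+* R)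
    {P : MvPolynomial V A} {m : ℕ} (hP : P.IsHomogeneous m) {w₀ w : V} (hw : w ≠ w₀) (r : V → R)
    (hr : ∀ v, v ≠ w₀ → v ≠ w → r v = 0) :
    eval₂ φ r P = ∑ i ∈ Finset.range (m + 1),
      φ (P.coeff (Finsupp.single w₀ (m - i) + Finsupp.single w i)) * r w₀ ^ (m - i) * r w ^ i := by
  classical
  set F : ℕ → (V →₀ ℕ) := fun i => Finsupp.single w₀ (m - i) + Finsupp.single w i with hF
  set G : (V →₀ ℕ) → R := fun d => φ (P.coeff d) * ∏ i, r i ^ d i with hG
  have h0 : eval₂ φ r P = ∑ d ∈ P.support, G d := eval₂_eq' φ r P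
  have hFw : ∀ i, F i w = i := by
    intro i
    simp [hF, hw.symm]
  have hFw0 : ∀ i, F i w₀ = m - i := by
    intro i
    simp [hF, hw]
  have hFv : ∀ i v, v ≠ w₀ → v ≠ w → F i v = 0 := by
    intro i v h1 h2
    simp [hF, h1.symm, h2.symm]
  have hinjF : Set.InjOn F (Finset.range (m + 1)) := by
    intro i _ j _ hij
    rw [← hFw i, ← hFw j, hij]
  have hGF : ∀ i, G (F i) = φ (P.coeff (F i)) * r w₀ ^ (m - i) * r w ^ i := by
    intro i
    simp only [hG]
    rw [mul_assoc]
    congr 1
    rw [Finset.prod_eq_mul w₀ w hw.symm]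
    · rw [hFw, hFw0]
    · intro v _ hv
      rw [hFv i v hv.1 hv.2, pow_zero]
    · intro h
      exact absurd (Finset.mem_univ _) h
    · intro h
      exact absurd (Finset.mem_univ _) h
  have h1 : ∑ d ∈ (Finset.range (m + 1)).image F, G d =
      ∑ i ∈ Finset.range (m + 1), φ (P.coeff (F i)) * r w₀ ^ (m - i) * r w ^ i := by
    rw [Finset.sum_image hinjF]
    exact Finset.sum_congr rfl fun i _ => hGF i
  rw [h0, ← h1]
  have h2 : ∑ d ∈ P.support, G d = ∑ d ∈ P.support ∪ (Finset.range (m + 1)).image F, G d := by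
    apply Finset.sum_subset Finset.subset_union_left
    intro d _ hd
    simp only [hG]
    rw [notMem_support_iff.1 hd, map_zero, zero_mul]
  have h3 : ∑ d ∈ (Finset.range (m + 1)).image F, G d =
      ∑ d ∈ P.support ∪ (Finset.range (m + 1)).image F, G d := by
    apply Finset.sum_subset Finset.subset_union_right
    intro d hd hd2
    by_cases hs : d ∈ P.support
    swap
    · simp only [hG]
      rw [notMem_support_iff.1 hs, map_zero, zero_mul]
    have hdeg : ∑ v, d v = m := by
      have := hP (mem_support_iff.1 hs)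
      rw [Finsupp.weight_apply, Finsupp.sum_fintype _ _ (by simp)] at this
      simpa using this
    by_cases hex : ∃ v, v ≠ w₀ ∧ v ≠ w ∧ d v ≠ 0
    · obtain ⟨v, hv1, hv2, hv3⟩ := hex
      simp only [hG]
      rw [Finset.prod_eq_zero (Finset.mem_univ v) (by rw [hr v hv1 hv2, zero_pow hv3]), mul_zero]
    · exfalso
      apply hd2
      push Not at hex
      have hsum : d w₀ + d w = m := by
        rw [← hdeg]
        rw [Finset.sum_eq_add w₀ w hw.symm]
        · intro v _ hv
          exact hex v hv.1 hv.2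
        · intro h
          exact absurd (Finset.mem_univ _) h
        · intro h
          exact absurd (Finset.mem_univ _) h
      rw [Finset.mem_image]
      refine ⟨d w, Finset.mem_range.2 (by omega), ?_⟩
      ext v
      by_cases hv1 : v = w₀
      · rw [hv1, hFw0]; omega
      · by_cases hv2 : v = w
        · rw [hv2, hFw]
        · rw [hFv _ v hv1 hv2, hex v hv1 hv2]
  rw [h2, h3]

/-- a form at a unit vector -/
private theorem eval_single {A V : Type*} [CommRing A] [Fintype V] [DecidableEq V]
    {P : MvPolynomial V A} {m : ℕ} (hP : P.IsHomogeneous m) (w₀ : V) :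
    eval (Pi.single w₀ 1) P = P.coeff (Finsupp.single w₀ m) := by
  rw [eval_eq']
  rw [Finset.sum_eq_single (Finsupp.single w₀ m)]
  · rw [Finset.prod_eq_one, mul_one]
    intro i _
    by_cases hi : i = w₀
    · rw [hi, Pi.single_eq_same, one_pow]
    · rw [Finsupp.single_apply, if_neg (Ne.symm hi), pow_zero]
  · intro d hd hne
    have hdeg : ∑ v, d v = m := by
      have := hP (mem_support_iff.1 hd)
      rw [Finsupp.weight_apply, Finsupp.sum_fintype _ _ (by simp)] at this
      simpa using this
    by_cases hex : ∃ v, v ≠ w₀ ∧ d v ≠ 0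
    · obtain ⟨v, hv1, hv2⟩ := hex
      rw [Finset.prod_eq_zero (Finset.mem_univ v), mul_zero]
      rw [Pi.single_eq_of_ne hv1, zero_pow hv2]
    · exfalso
      apply hne
      push Not at hex
      ext v
      by_cases hv : v = w₀
      · rw [hv, Finsupp.single_eq_same, ← hdeg, Finset.sum_eq_single w₀]
        · intro b _ hb
          exact hex b hb
        · intro h
          exact absurd (Finset.mem_univ _) h
      · rw [Finsupp.single_apply, if_neg (Ne.symm hv), hex v hv]
  · intro h
    rw [notMem_support_iff.1 h, zero_mul]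

theorem repF_norm {E : Type*} [Field E] {Ω W : Type*} [Nonempty Ω] {a : Ω → W → E}
    (hp : PrimeH a) {d e : ℕ} {l : Fin (d + 1) → MvPolynomial W E} (hl : FinCover a e l)
    (hinj : Function.Injective (toCR a l)) {c₀ : ℕ} {Θ : MvPolynomial W E} (hΘ : IsCond a c₀ Θ)
    {V : Type*} [Fintype V] (nf : NormForm (toCR a l) V) {T : Type*} (y : Ω → V → E) (k : ℕ)
    (Y : T → V → MvPolynomial W E) (hY : LocF a y k Y) (s₀ : T) (hs₀ : ∃ w, ¬ Van a (Y s₀ w))
    (g : MvPolynomial (Fin (d + 1)) E) (P : MvPolynomial V (MvPolynomial (Fin (d + 1)) E))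
    (hg : g ≠ 0) (hP : nf.N (fun w => cr a (Y s₀ w)) = C g * P) (e' : ℕ) (he' : CoeffHom e' P)
    (hm : P.IsHomogeneous nf.m) : RepF a y (e * e' + c₀) := by
  classical
  have hpr : (coneI a).IsPrime := coneI_prime hp
  have hdom : IsDomain (CR a) := Ideal.Quotient.isDomain (coneI a)
  obtain ⟨w₀, hw₀⟩ := hs₀
  obtain ⟨hY1, hY2, hY3⟩ := hY
  obtain ⟨hΘ1, hΘ2, hΘ3⟩ := hΘ
  set D := Y s₀ w₀ with hD
  set m := nf.m with hmdef
  have hcrD : cr a D ≠ 0 := fun h => hw₀ ((cr_eq_zero (hY1 s₀ w₀)).1 h)
  set p0 : MvPolynomial (Fin (d + 1)) E := P.coeff (Finsupp.single w₀ m) with hp0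
  have hp0hom : p0.IsHomogeneous e' := he' _
  have hp0ne : p0 ≠ 0 := by
    intro h0
    have h1 := nf.eval_eq (fun w => cr a (Y s₀ w)) (Pi.single w₀ 1)
    rw [hP, map_mul, eval_C, eval_single hm, ← hp0, h0, mul_zero] at h1
    have h2 : ∑ w, toCR a l ((Pi.single w₀ 1 : V → MvPolynomial (Fin (d + 1)) E) w) *
        cr a (Y s₀ w) = cr a D := by
      rw [Finset.sum_eq_single w₀]
      · rw [Pi.single_eq_same, map_one, one_mul]
      · intro b _ hb
        rw [Pi.single_eq_of_ne hb, map_zero, zero_mul]
      · intro h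
        exact absurd (Finset.mem_univ _) h
    rw [h2] at h1
    exact nf.nrm_ne _ hcrD h1.symm
  have hφg : toCR a l g ≠ 0 := fun h => hg (hinj (by rw [h, map_zero]))
  set L : MvPolynomial (Fin (d + 1)) E →ₐ[E] MvPolynomial W E := aeval l with hL
  have hLhom : ∀ {F : MvPolynomial (Fin (d + 1)) E} {n : ℕ}, F.IsHomogeneous n →
      (L F).IsHomogeneous (e * n) := fun {F n} hF => hF.aeval l hl.hom
  have hcrL : ∀ F, cr a (L F) = toCR a l F := fun F => rfl
  have hp0van : ¬ Van a (L p0) := by
    intro h
    have h1 := (cr_eq_zero (hLhom hp0hom)).2 h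
    rw [hcrL] at h1
    exact hp0ne (hinj (by rw [h1, map_zero]))
  -- the forms `Q w`
  have hQ : ∀ w, ∃ Q : MvPolynomial W E, Q.IsHomogeneous (e * e' + c₀) ∧
      Van a (Θ * (L p0 * Y s₀ w) - Q * D) := by
    intro w
    by_cases hw : w = w₀
    · refine ⟨Θ * L p0, ?_, ?_⟩
      · have := hΘ1.mul (hLhom hp0hom)
        rwa [add_comm c₀ (e * e')] at this
      · intro x
        rw [hw, ← hD]
        simp only [map_sub, map_mul]
        ring
    · set q : ℕ → MvPolynomial (Fin (d + 1)) E := fun i =>
        (-1) ^ i * P.coeff (Finsupp.single w₀ (m - i) + Finsupp.single w i) with hq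
      have hqhom : ∀ i, (q i).IsHomogeneous e' := by
        intro i
        simp only [hq]
        rcases Nat.even_or_odd i with hi | hi
        · rw [hi.neg_one_pow, one_mul]
          exact he' _
        · rw [hi.neg_one_pow, neg_one_mul]
          exact (he' _).neg
      have hq0 : q 0 = p0 := by
        simp [hq, hp0]
      have hrel : ∑ i ∈ Finset.range (m + 1),
          toCR a l (q i) * cr a (Y s₀ w) ^ (m - i) * cr a D ^ i = 0 := by
        have h1 := nf.vanish (fun w => cr a (Y s₀ w))
          (fun v => if v = w₀ then cr a (Y s₀ w) else if v = w then - cr a D else 0) (by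
            rw [Finset.sum_eq_add w₀ w (Ne.symm hw)]
            · rw [if_pos rfl, if_neg hw, if_pos rfl, ← hD]
              ring
            · intro v _ hv
              rw [if_neg hv.1, if_neg hv.2, zero_mul]
            · intro h
              exact absurd (Finset.mem_univ _) h
            · intro h
              exact absurd (Finset.mem_univ _) h)
        rw [hP, eval₂_mul, eval₂_C] at h1
        have h2 := (mul_eq_zero.1 h1).resolve_left hφg
        rw [eval₂_two (toCR a l) hm hw _ (by
          intro v h3 h4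
          rw [if_neg h3, if_neg h4])] at h2
        rw [if_pos rfl, if_neg hw, if_pos rfl] at h2
        rw [← h2]
        apply Finset.sum_congr rfl
        intro i _
        simp only [hq, map_mul, map_pow, map_neg, map_one]
        rw [neg_pow (cr a D) i]
        ring
      obtain ⟨Q, hQ1, hQ2⟩ := hΘ3 (e * e') k m (L p0 * Y s₀ w) D
        (fun i => if i = 0 then 0 else L (p0 ^ (i - 1) * q i)) nf.m_pos
        ((hLhom hp0hom).mul (hY1 s₀ w)) (hY1 s₀ w₀) hw₀ (by
          intro i
          by_cases hi : i = 0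
          · rw [if_pos hi]
            exact isHomogeneous_zero _ _ _
          · rw [if_neg hi]
            have h3 := hLhom ((hp0hom.pow (i - 1)).mul (hqhom i))
            have h4 : e * (e' * (i - 1) + e') = i * (e * e') := by
              obtain ⟨j, rfl⟩ := Nat.exists_eq_succ_of_ne_zero hi
              simp only [Nat.succ_eq_add_one, Nat.add_sub_cancel]
              ring
            rwa [h4] at h3) (by
          apply van_of_mem_coneI
          rw [← Ideal.Quotient.eq_zero_iff_mem]
          have h5 : ∀ i ∈ Finset.range m,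
              cr a ((if i + 1 = 0 then 0 else L (p0 ^ (i + 1 - 1) * q (i + 1))) * D ^ (i + 1) *
                (L p0 * Y s₀ w) ^ (m - 1 - i)) =
              toCR a l p0 ^ (m - 1) *
                (toCR a l (q (i + 1)) * cr a (Y s₀ w) ^ (m - (i + 1)) * cr a D ^ (i + 1)) := by
            intro i hi
            rw [Finset.mem_range] at hi
            rw [if_neg (Nat.succ_ne_zero i), Nat.add_sub_cancel]
            simp only [map_mul, map_pow]
            have e1 : cr a (L p0) = toCR a l p0 := rfl
            have e2 : cr a (L (q (i + 1))) = toCR a l (q (i + 1)) := rfl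
            rw [e1, e2]
            have e3 : m - (i + 1) = m - 1 - i := by omega
            have e4 : toCR a l p0 ^ (m - 1) = toCR a l p0 ^ i * toCR a l p0 ^ (m - 1 - i) := by
              rw [← pow_add]
              congr 1
              omega
            rw [e3, e4, mul_pow]
            ring
          change cr a _ = 0
          rw [map_add, map_sum, Finset.sum_congr rfl h5, ← Finset.mul_sum]
          have h6 : cr a ((L p0 * Y s₀ w) ^ m) = toCR a l p0 ^ (m - 1) *
              (toCR a l (q 0) * cr a (Y s₀ w) ^ (m - 0) * cr a D ^ 0) := by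
            simp only [map_mul, map_pow]
            have e1 : cr a (L p0) = toCR a l p0 := rfl
            have e4 : toCR a l p0 ^ m = toCR a l p0 ^ (m - 1) * toCR a l p0 := by
              rw [← pow_succ]
              congr 1
              have := nf.m_pos
              omega
            rw [e1, hq0, Nat.sub_zero, pow_zero, mul_one, mul_pow, e4]
            ring
          rw [h6, ← mul_add]
          rw [Finset.sum_range_succ'] at hrel
          rw [add_comm] at hrel
          rw [hrel, mul_zero])
      exact ⟨Q, hQ1, hQ2⟩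
  choose Q hQ1 hQ2 using hQ
  -- the relations
  have hQw₀ : ¬ Van a (Q w₀) := by
    intro h
    have h1 : Van a (Θ * (L p0 * D)) := by
      intro x
      have h2 := hQ2 w₀ x
      rw [← hD, map_sub, map_mul (eval (a x)) (Q w₀) D, h x, zero_mul, sub_zero] at h2
      exact h2
    rcases hp Θ (L p0 * D) _ _ hΘ1 ((hLhom hp0hom).mul (hY1 s₀ w₀)) h1 with h2 | h2
    · exact hΘ2 h2
    · rcases hp (L p0) D _ _ (hLhom hp0hom) (hY1 s₀ w₀) h2 with h3 | h3
      · exact hp0van h3
      · exact hw₀ h3
  refine ⟨Q, hQ1, ⟨w₀, hQw₀⟩, ?_⟩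
  have hbr : ∀ s w v, Van a (Q w * Y s v - Q v * Y s w) := by
    intro s w v
    have h1 : Van a (D * (Q w * Y s v - Q v * Y s w)) := by
      intro x
      obtain ⟨c0, hc0⟩ := hY2 s₀ x
      obtain ⟨c1, hc1⟩ := hY2 s x
      have h2 := hQ2 w x
      have h3 := hQ2 v x
      simp only [map_sub, map_mul] at h2 h3 ⊢
      rw [hc0] at h2 h3
      rw [hc1, hc1]
      linear_combination (-(c1 * y x v)) * h2 + (c1 * y x w) * h3
    have h2 : (Q w * Y s v - Q v * Y s w).IsHomogeneous (e * e' + c₀ + k) :=
      ((hQ1 w).mul (hY1 s v)).sub ((hQ1 v).mul (hY1 s w))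
    rcases hp D _ _ _ (hY1 s₀ w₀) h2 h1 with h3 | h3
    · exact absurd h3 hw₀
    · exact h3
  intro x
  obtain ⟨s, v, hsv⟩ := hY3 x
  obtain ⟨κ, hκ⟩ := hY2 s x
  have h1 : κ * y x v ≠ 0 := by
    rw [← hκ]
    exact hsv
  have hκ0 : κ ≠ 0 := left_ne_zero_of_mul h1
  have hyv : y x v ≠ 0 := right_ne_zero_of_mul h1
  refine ⟨eval (a x) (Q v) / y x v, ?_⟩
  intro w
  have h2 := hbr s w v x
  simp only [map_sub, map_mul] at h2
  rw [hκ, hκ] at h2
  have h3 : κ * (eval (a x) (Q w) * y x v - eval (a x) (Q v) * y x w) = 0 := by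
    linear_combination h2
  have h4 := (mul_eq_zero.1 h3).resolve_left hκ0
  rw [div_mul_eq_mul_div, eq_div_iff hyv]
  linear_combination h4

end Pool.Agent.KSF
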