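import Pool.Agent.KSF.Null

/-!
# KSF SEPR: elimination

`exists_elim`: `M = R ⧸ b` is a finite `A`-module and multiplication by `c` maps it into `m • ⊤`;
`LinearMap.exists_monic_and_coeff_mem_pow_and_aeval_eq_zero_of_range_le_smul` gives a monic
`p ∈ A[X]` with all the lower coefficients in `m` and `p(c) = 0` on `M`; `h = p(c)`, `r = natDegree p`.
`exists_sep`: `b = span (range fun s => cr a (Φ s))`, `m = span {C (t j) * X i - C (t i) * X j}`,
`t i₀ ≠ 0`. The forms `Φ s` and `C (t j) * l i - C (t i) * l j` have no common zero on the family (at a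
common zero `l (a x)` is a multiple of `t`, with a nonzero factor by `hl.base`, so `x` is over `t`). By
`null`, `cr (X w) ^ M ∈ b ⊔ m.map (toCR a l)` for all `w`; since `l i₀` has degree `e ≥ 1` it is in the
ideal generated by the `X w`, so some power `toCR (X i₀ ^ r)` is in `b ⊔ m.map (toCR a l)`
(radical). `exists_elim` with `c = X i₀ ^ r` gives `H`; `eval t` kills `m`, so
`eval t H = (t i₀ ^ r) ^ r' ≠ 0`. The finiteness of `toCR` is a hypothesis here.
-/

set_option autoImplicit false

open MvPolynomial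

namespace Pool.Agent.KSF

open Pool.Agent.Helper63.SAND

theorem exists_elim {A R : Type*} [CommRing A] [CommRing R] (φ : A →+* R) (hφ : φ.Finite)
    (b : Ideal R) (m : Ideal A) (c : A) (hc : φ c ∈ b ⊔ m.map φ) :
    ∃ (r : ℕ) (h : A), h - c ^ r ∈ m ∧ φ h ∈ b := by
  letI : Algebra A (R ⧸ b) := ((Ideal.Quotient.mk b).comp φ).toAlgebra
  have hfin : Module.Finite A (R ⧸ b) :=
    RingHom.Finite.comp (RingHom.Finite.of_surjective _ Ideal.Quotient.mk_surjective) hφ
  have halg : ∀ x : A, algebraMap A (R ⧸ b) x = Ideal.Quotient.mk b (φ x) := fun x => rfl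
  have h1 : Ideal.Quotient.mk b (φ c) ∈ Ideal.map (algebraMap A (R ⧸ b)) m := by
    have h2 : Ideal.Quotient.mk b (φ c) ∈ Ideal.map (Ideal.Quotient.mk b) (b ⊔ m.map φ) :=
      Ideal.mem_map_of_mem _ hc
    rw [Ideal.map_sup, Ideal.map_map] at h2
    have h3 : Ideal.map (Ideal.Quotient.mk b) b = ⊥ := Ideal.map_quotient_self b
    rw [h3, bot_sup_eq] at h2
    exact h2
  obtain ⟨p, hp, -, hpm, hp0⟩ :=
    LinearMap.exists_monic_and_natDegree_eq_and_coeff_mem_pow_and_aeval_eq_zero A
      (algebraMap A (Module.End A (R ⧸ b)) c) m (by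
        rintro _ ⟨x, rfl⟩
        rw [Module.algebraMap_end_apply, Ideal.smul_top_eq_map, Submodule.restrictScalars_mem,
          Algebra.smul_def, halg]
        exact Ideal.mul_mem_right _ _ h1)
  refine ⟨p.natDegree, p.eval c, ?_, ?_⟩
  · rw [Polynomial.eval_eq_sum_range, Finset.sum_range_succ, hp.coeff_natDegree, one_mul,
      add_sub_cancel_right]
    refine Ideal.sum_mem _ fun k hk => Ideal.mul_mem_right _ _ ?_
    have hk' : k < p.natDegree := Finset.mem_range.1 hk
    exact Ideal.pow_le_self (by omega) (hpm k)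
  · rw [Polynomial.aeval_algebraMap_apply] at hp0
    have h2 := LinearMap.congr_fun hp0 (1 : R ⧸ b)
    rw [Module.algebraMap_end_apply, Algebra.smul_def, halg, mul_one, LinearMap.zero_apply,
      Ideal.Quotient.eq_zero_iff_mem] at h2
    simpa using h2

theorem exists_sep {E : Type*} [Field E] [IsAlgClosed E] {Ω W : Type*} [Finite W]
    {a : Ω → W → E} (ha : ClosedF a) {d e : ℕ} {l : Fin (d + 1) → MvPolynomial W E}
    (hl : FinCover a e l) (hfin : (toCR a l).Finite) {T : Type*} [Fintype T]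
    (Φ : T → MvPolynomial W E) (k : ℕ) (hΦ : ∀ s, (Φ s).IsHomogeneous k) (t : Fin (d + 1) → E)
    (ht : t ≠ 0) (h : ∀ x, Over a l t x → ∃ s, eval (a x) (Φ s) ≠ 0) :
    ∃ H : MvPolynomial (Fin (d + 1)) E, eval t H ≠ 0 ∧
      toCR a l H ∈ Ideal.span (Set.range fun s => cr a (Φ s)) := by
  classical
  obtain ⟨i₀, hi₀⟩ : ∃ i, t i ≠ 0 := by
    by_contra hne
    push Not at hne
    exact ht (funext hne)
  -- the forms
  let Ψ : T ⊕ (Fin (d + 1) × Fin (d + 1)) → MvPolynomial W E :=
    Sum.elim Φ fun q => C (t q.2) * l q.1 - C (t q.1) * l q.2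
  let κ : T ⊕ (Fin (d + 1) × Fin (d + 1)) → ℕ := Sum.elim (fun _ => k) fun _ => e
  have hΨ : ∀ j, (Ψ j).IsHomogeneous (κ j) := by
    rintro (s | ⟨i, j⟩)
    · exact hΦ s
    · have h1 : (C (t j) * l i : MvPolynomial W E).IsHomogeneous (0 + e) :=
        (isHomogeneous_C W (t j)).mul (hl.hom i)
      have h2 : (C (t i) * l j : MvPolynomial W E).IsHomogeneous (0 + e) :=
        (isHomogeneous_C W (t i)).mul (hl.hom j)
      have h3 := h1.sub h2
      rwa [zero_add] at h3
  have hno : ∀ x, ∃ j, eval (a x) (Ψ j) ≠ 0 := by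
    intro x
    by_contra hne
    push Not at hne
    have hs : ∀ s, eval (a x) (Φ s) = 0 := fun s => hne (Sum.inl s)
    have hij : ∀ i j, t j * eval (a x) (l i) = t i * eval (a x) (l j) := by
      intro i j
      have := hne (Sum.inr (i, j))
      simp only [Ψ, Sum.elim_inr, map_sub, map_mul, eval_C] at this
      exact sub_eq_zero.1 this
    have hov : Over a l t x := by
      refine ⟨eval (a x) (l i₀) / t i₀, ?_, fun i => ?_⟩
      · intro h0
        rw [div_eq_zero_iff] at h0
        rcases h0 with h0 | h0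
        · obtain ⟨i, hi⟩ := hl.base x
          apply hi
          have := hij i i₀
          rw [h0, mul_zero] at this
          exact (mul_eq_zero.1 this).resolve_left hi₀
        · exact hi₀ h0
      · have := hij i i₀
        field_simp
        linear_combination this
    obtain ⟨s, hs'⟩ := h x hov
    exact hs' (hs s)
  obtain ⟨M₀, hM₀, hM⟩ := null ha Ψ κ hΨ hno
  set b : Ideal (CR a) := Ideal.span (Set.range fun s => cr a (Φ s)) with hb
  set m : Ideal (MvPolynomial (Fin (d + 1)) E) :=
    Ideal.span (Set.range fun q : Fin (d + 1) × Fin (d + 1) =>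
      (C (t q.2) * X q.1 - C (t q.1) * X q.2 : MvPolynomial (Fin (d + 1)) E)) with hm
  have hX : ∀ w, cr a (X w) ^ M₀ ∈ b ⊔ m.map (toCR a l) := by
    intro w
    obtain ⟨g, hg, hv⟩ := hM M₀ le_rfl w
    have hom : (X w ^ M₀ - ∑ j, g j * Ψ j : MvPolynomial W E).IsHomogeneous M₀ := by
      have h1 : (X w ^ M₀ : MvPolynomial W E).IsHomogeneous M₀ := by
        have := (isHomogeneous_X E w).pow M₀
        rwa [one_mul] at this
      refine h1.sub (IsHomogeneous.sum _ _ _ fun j _ => ?_)
      have := (hg j).mul (hΨ j)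
      rwa [Nat.sub_add_cancel (hM₀ j)] at this
    have h0 := (cr_eq_zero hom).2 hv
    rw [map_sub, sub_eq_zero, map_pow, map_sum] at h0
    rw [h0]
    refine Ideal.sum_mem _ fun j _ => ?_
    rw [map_mul]
    refine Ideal.mul_mem_left _ _ ?_
    rcases j with s | q
    · exact Ideal.mem_sup_left (Ideal.subset_span ⟨s, rfl⟩)
    · refine Ideal.mem_sup_right ?_
      have e1 : cr a (Ψ (Sum.inr q)) = toCR a l (C (t q.2) * X q.1 - C (t q.1) * X q.2) := by
        unfold toCR
        simp only [Ψ, Sum.elim_inr, RingHom.comp_apply, AlgHom.toRingHom_eq_coe,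
          RingHom.coe_coe, map_sub, map_mul, aeval_X, algHom_C, algebraMap_eq]
      rw [e1]
      exact Ideal.mem_map_of_mem _ (Ideal.subset_span ⟨q, rfl⟩)
  have hrad : toCR a l (X i₀) ∈ (b ⊔ m.map (toCR a l)).radical := by
    have e1 : toCR a l (X i₀) = cr a (l i₀) := by
      unfold toCR
      simp only [RingHom.comp_apply, AlgHom.toRingHom_eq_coe, RingHom.coe_coe, aeval_X]
    rw [e1]
    have h1 : l i₀ ∈ Ideal.span (X '' (Set.univ : Set W) : Set (MvPolynomial W E)) := by
      rw [mem_ideal_span_X_image]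
      intro α hα
      have h2 : Finsupp.weight 1 α = e := (hl.hom i₀) (mem_support_iff.1 hα)
      have h3 : α ≠ 0 := by
        rintro rfl
        rw [map_zero] at h2
        have := hl.pos
        omega
      obtain ⟨w, hw⟩ := Finsupp.ne_iff.1 h3
      exact ⟨w, Set.mem_univ _, by simpa using hw⟩
    have h2 : Ideal.span (X '' (Set.univ : Set W) : Set (MvPolynomial W E)) ≤
        Ideal.comap (cr a) (b ⊔ m.map (toCR a l)).radical := by
      rw [Ideal.span_le]
      rintro _ ⟨w, -, rfl⟩
      exact ⟨M₀, hX w⟩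
    exact h2 h1
  obtain ⟨n, hn⟩ := hrad
  rw [← map_pow] at hn
  obtain ⟨r, H, hH1, hH2⟩ := exists_elim (toCR a l) hfin b m (X i₀ ^ n) hn
  refine ⟨H, ?_, hH2⟩
  have hev : ∀ P ∈ m, eval t P = 0 := by
    intro P hP
    have : m ≤ RingHom.ker (eval t) := by
      rw [hm, Ideal.span_le]
      rintro _ ⟨q, rfl⟩
      rw [SetLike.mem_coe, RingHom.mem_ker]
      simp only [map_sub, map_mul, eval_C, eval_X]
      ring
    exact (RingHom.mem_ker).1 (this hP)
  have h1 := hev _ hH1
  rw [map_sub, sub_eq_zero, map_pow, map_pow, eval_X] at h1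
  rw [h1]
  exact pow_ne_zero _ (pow_ne_zero _ hi₀)

end Pool.Agent.KSF
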