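import Pool.Agent.KSF.Ndvd
import Pool.Agent.KSF.Sepr
import Pool.Agent.KSF.Fibf
import Pool.Agent.KSF.Fact

/-!
# KSF SPLT: the norm form at a point `t` is the product of the linear forms of the fibre

`eval_ne`: `Φ s = ∑ w, C (u w) * Y s w`; for `x` over `t` there are `s, w` with
`eval (a x) (Y s w) ≠ 0`, so `eval (a x) (Y s ·) = c • y x` with `c ≠ 0` and
`eval (a x) (Φ s) = c * ∑ w, u w * y x w ≠ 0`. `exists_sep` gives `H`; `ndvd` for `u := C ∘ u` and
`Y s w := cr a (Y s w)` (`hY` of `ndvd`: `Y s w * Y s' w' - Y s w' * Y s' w` is a form of degree `2k`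
vanishing at all the points, `cr_eq_zero`; note `toCR a l (C c) = cr a (C c)`) gives
`eval (C ∘ u) P ∣ H ^ m`; apply `eval t`: `eval t (eval (C ∘ u) P) = eval u (evT t P)` divides
`(eval t H) ^ m ≠ 0`.
`evT_factor`: `S₀` from `fibre_finite`, `S = S₀.image y`. If `a x = c • a x'`, `c ≠ 0`, then `y x` is a
nonzero multiple of `y x'` (`eval_smul_form`). All `y x ≠ 0`. By `exists_ne` there is `u` with
`∑ u w * y x' w ≠ 0` for all `x' ∈ S₀`, hence for all `x` over `t`, so `evT t P ≠ 0` by `eval_ne`. If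
`eval u (evT t P) = 0`, then by `eval_ne` some `x` over `t` has `∑ u w * y x w = 0`, hence some `x' ∈ S₀`.
Then `factor_linear` (`evT t P` is homogeneous of degree `m`, `MvPolynomial.IsHomogeneous.map`).
-/

set_option autoImplicit false

open MvPolynomial

namespace Pool.Agent.KSF

open Pool.Agent.Helper63.SAND

private theorem toCR_C {E : Type*} [Field E] {Ω W : Type*} (a : Ω → W → E) {d : ℕ}
    (l : Fin (d + 1) → MvPolynomial W E) (c : E) : toCR a l (C c) = cr a (C c) := by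
  rw [toCR, RingHom.comp_apply]
  congr 1
  exact aeval_C l c

private theorem evT_eval {E : Type*} [Field E] {d : ℕ} {V : Type*} (t : Fin (d + 1) → E)
    (u : V → E) (P : MvPolynomial V (MvPolynomial (Fin (d + 1)) E)) :
    eval t (eval (fun w => C (u w)) P) = eval u (evT t P) := by
  rw [evT, eval_map]
  change eval t (eval₂ (RingHom.id _) _ P) = _
  rw [eval₂_comp_left (eval t)]
  have h1 : (eval t : MvPolynomial (Fin (d + 1)) E →+* E) ∘ (fun w => C (u w)) = u := by
    funext w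
    simp
  rw [h1, RingHom.comp_id]

private theorem loc_ne {E : Type*} [Field E] {Ω W : Type*} {a : Ω → W → E} {V : Type*}
    {T : Type*} {y : Ω → V → E} {k : ℕ}
    {Y : T → V → MvPolynomial W E} (hY : LocF a y k Y) (x : Ω) :
    ∃ s, ∃ c : E, c ≠ 0 ∧ (∀ w, eval (a x) (Y s w) = c * y x w) := by
  obtain ⟨s, w, hw⟩ := hY.2.2 x
  obtain ⟨c, hc⟩ := hY.2.1 s x
  refine ⟨s, c, ?_, hc⟩
  rintro rfl
  rw [hc w, zero_mul] at hw
  exact hw rfl

theorem eval_ne {E : Type*} [Field E] [IsAlgClosed E] {Ω W : Type*} [Finite W]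
    {a : Ω → W → E} (ha : ClosedF a) {d e : ℕ}
    {l : Fin (d + 1) → MvPolynomial W E} (hl : FinCover a e l) {V : Type*} [Fintype V]
    (nf : NormForm (toCR a l) V) {T : Type*} [Fintype T] (y : Ω → V → E) (k : ℕ)
    (Y : T → V → MvPolynomial W E) (hY : LocF a y k Y) (s₀ : T)
    (g : MvPolynomial (Fin (d + 1)) E) (P : MvPolynomial V (MvPolynomial (Fin (d + 1)) E))
    (hg : g ≠ 0) (hP : nf.N (fun w => cr a (Y s₀ w)) = C g * P) (hprim : Prim P)
    (t : Fin (d + 1) → E) (ht : t ≠ 0) (u : V → E)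
    (hu : ∀ x, Over a l t x → ∑ w, u w * y x w ≠ 0) : eval u (evT t P) ≠ 0 := by
  classical
  have hΦ : ∀ s, (∑ w, C (u w) * Y s w : MvPolynomial W E).IsHomogeneous k := by
    intro s
    refine IsHomogeneous.sum _ _ _ fun w _ => ?_
    have := (isHomogeneous_C W (u w)).mul (hY.1 s w)
    rwa [zero_add] at this
  have hsep : ∀ x, Over a l t x → ∃ s, eval (a x) (∑ w, C (u w) * Y s w) ≠ 0 := by
    intro x hx
    obtain ⟨s, c, hc0, hc⟩ := loc_ne hY x
    refine ⟨s, ?_⟩
    have h1 : eval (a x) (∑ w, C (u w) * Y s w) = c * ∑ w, u w * y x w := by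
      rw [map_sum, Finset.mul_sum]
      refine Finset.sum_congr rfl fun w _ => ?_
      rw [map_mul, eval_C, hc w]
      ring
    rw [h1]
    exact mul_ne_zero hc0 (hu x hx)
  obtain ⟨H, hH0, hH⟩ := exists_sep ha hl (toCR_finite ha hl) (fun s => ∑ w, C (u w) * Y s w) k
    hΦ t ht hsep
  have hYY : ∀ s s' w w', cr a (Y s w) * cr a (Y s' w') = cr a (Y s w') * cr a (Y s' w) := by
    intro s s' w w'
    rw [← sub_eq_zero, ← map_mul, ← map_mul, ← map_sub]
    have h1 : (Y s w * Y s' w' - Y s w' * Y s' w).IsHomogeneous (k + k) :=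
      ((hY.1 s w).mul (hY.1 s' w')).sub ((hY.1 s w').mul (hY.1 s' w))
    rw [cr_eq_zero h1]
    intro x
    obtain ⟨c, hc⟩ := hY.2.1 s x
    obtain ⟨c', hc'⟩ := hY.2.1 s' x
    rw [map_sub, map_mul, map_mul, hc, hc', hc, hc']
    ring
  have h2 := ndvd (toCR a l) nf (fun s w => cr a (Y s w)) hYY s₀ g hg P hP hprim
    (fun w => C (u w)) H (by
      have h3 : (fun s => ∑ w, toCR a l (C (u w)) * cr a (Y s w)) =
          fun s => cr a (∑ w, C (u w) * Y s w) := by
        funext s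
        rw [map_sum]
        refine Finset.sum_congr rfl fun w _ => ?_
        rw [toCR_C, map_mul]
      rw [h3]
      exact hH)
  intro h0
  obtain ⟨q, hq⟩ := h2
  have h4 := congrArg (eval t) hq
  rw [map_pow, map_mul, evT_eval, h0, zero_mul] at h4
  exact pow_ne_zero _ hH0 h4

theorem evT_factor {E : Type*} [Field E] [IsAlgClosed E] {Ω W : Type*} [Finite W]
    {a : Ω → W → E} (ha0 : ∀ x, a x ≠ 0) (ha : ClosedF a) {d e : ℕ}
    {l : Fin (d + 1) → MvPolynomial W E} (hl : FinCover a e l) {V : Type*} [Fintype V]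
    (nf : NormForm (toCR a l) V) {T : Type*} [Fintype T] (y : Ω → V → E) (k : ℕ)
    (Y : T → V → MvPolynomial W E) (hY : LocF a y k Y) (s₀ : T)
    (g : MvPolynomial (Fin (d + 1)) E) (P : MvPolynomial V (MvPolynomial (Fin (d + 1)) E))
    (hg : g ≠ 0) (hP : nf.N (fun w => cr a (Y s₀ w)) = C g * P) (hprim : Prim P)
    (hm : P.IsHomogeneous nf.m) (t : Fin (d + 1) → E) (ht : t ≠ 0) :
    ∃ (c : E) (x : Fin nf.m → Ω), c ≠ 0 ∧ (∀ i, Over a l t (x i)) ∧
      evT t P = C c * ∏ i, ∑ w, C (y (x i) w) * X w := by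
  classical
  obtain ⟨S₀, hS₀, hcov⟩ := fibre_finite ha0 ha hl t ht
  have hy0 : ∀ x, y x ≠ 0 := by
    intro x h
    obtain ⟨s, w, hw⟩ := hY.2.2 x
    obtain ⟨c, hc⟩ := hY.2.1 s x
    rw [hc w, h, Pi.zero_apply, mul_zero] at hw
    exact hw rfl
  -- multiples
  have hmul : ∀ x x' : Ω, ∀ c : E, c ≠ 0 → a x = c • a x' → ∃ c' : E, c' ≠ 0 ∧
      ∀ w, y x w = c' * y x' w := by
    intro x x' c hc hx
    obtain ⟨s, c₁, hc₁, h1⟩ := loc_ne hY x
    obtain ⟨c₂, h2⟩ := hY.2.1 s x'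
    have h3 : ∀ w, c₁ * y x w = c ^ k * (c₂ * y x' w) := by
      intro w
      rw [← h1 w, hx, eval_smul_form (hY.1 s w), h2 w]
    have h4 : ∀ w, y x w = (c₁⁻¹ * (c ^ k * c₂)) * y x' w := by
      intro w
      have := h3 w
      field_simp
      rw [mul_comm, this]
      ring
    refine ⟨_, ?_, h4⟩
    intro h0
    apply hy0 x
    funext w
    rw [h4 w, h0, zero_mul]
    rfl
  have hS : ∀ v ∈ S₀.image y, v ≠ 0 := by
    intro v hv
    obtain ⟨x, -, rfl⟩ := Finset.mem_image.1 hv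
    exact hy0 x
  have hred : ∀ u : V → E, (∀ x' ∈ S₀, ∑ w, u w * y x' w ≠ 0) →
      ∀ x, Over a l t x → ∑ w, u w * y x w ≠ 0 := by
    intro u hu x hx
    obtain ⟨x', hx', c, hc, hxx⟩ := hcov x hx
    obtain ⟨c', hc', h1⟩ := hmul x x' c hc hxx
    have h2 : ∑ w, u w * y x w = c' * ∑ w, u w * y x' w := by
      rw [Finset.mul_sum]
      refine Finset.sum_congr rfl fun w _ => ?_
      rw [h1 w]
      ring
    rw [h2]
    exact mul_ne_zero hc' (hu x' hx')
  have hne : evT t P ≠ 0 := by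
    obtain ⟨u, hu⟩ := exists_ne (S₀.image y) hS
    have h1 := eval_ne ha hl nf y k Y hY s₀ g P hg hP hprim t ht u
      (hred u fun x' hx' => hu _ (Finset.mem_image_of_mem y hx'))
    intro h
    rw [h, map_zero] at h1
    exact h1 rfl
  obtain ⟨c, σ, hc, hσ, hprod⟩ := factor_linear (S₀.image y) hS nf.m (evT t P) hne
    (hm.map (eval t)) (by
      intro u hu
      by_contra hcon
      push Not at hcon
      refine eval_ne ha hl nf y k Y hY s₀ g P hg hP hprim t ht u
        (hred u fun x' hx' => hcon _ (Finset.mem_image_of_mem y hx')) hu)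
  have hx : ∀ i, ∃ x ∈ S₀, y x = σ i := fun i => by
    obtain ⟨x, h1, h2⟩ := Finset.mem_image.1 (hσ i)
    exact ⟨x, h1, h2⟩
  choose x hxS hxy using hx
  refine ⟨c, x, hc, fun i => hS₀ _ (hxS i), ?_⟩
  rw [hprod]
  simp only [hxy]

end Pool.Agent.KSF
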