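import Pool.Agent.KSF.Norm
import Pool.Agent.KSF.Nhom
import Pool.Agent.KSF.Splt
import Pool.Agent.KSF.Repf
import Pool.Agent.KSF.Hgt

/-!
# KSF KEY: the sum of the heights over a fibre
-/

set_option autoImplicit false

open MvPolynomial

namespace Pool.Agent.KSF

open Pool.Agent.Helper63.SAND Pool.Agent.Helper63.WH

theorem key {E : Type*} [Field E] [CharZero E] [Algebra.IsAlgebraic ℚ E] [IsAlgClosed E]
    {Ω W : Type*} [Finite W] [Nonempty Ω] {a : Ω → W → E} (ha0 : ∀ x, a x ≠ 0) (hp : PrimeH a)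
    (ha : ClosedF a) {d e : ℕ} {l : Fin (d + 1) → MvPolynomial W E} (hl : FinCover a e l)
    {c₀ : ℕ} {Θ : MvPolynomial W E} (hΘ : IsCond a c₀ Θ) (V : Type*) [Fintype V] :
    ∃ m : ℕ, 1 ≤ m ∧ ∀ (T : Type) [Fintype T] (y : Ω → V → E) (k : ℕ)
      (Y : T → V → MvPolynomial W E), LocF a y k Y →
      ∃ (e' : ℕ) (B : ℝ), RepF a y (e * e' + c₀) ∧ ∀ t : Fin (d + 1) → E, t ≠ 0 →
        ∃ x : Fin m → Ω, (∀ i, Over a l t (x i)) ∧
          (e' : ℝ) * absHeight t ≤ ∑ i, absHeight (y (x i)) + B := by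
  classical
  have hinf : Infinite E := inferInstance
  have hfin := toCR_finite ha hl
  have hinj := toCR_injective hl
  haveI : (coneI a).IsPrime := coneI_prime hp
  haveI : IsDomain (CR a) := Ideal.Quotient.isDomain _
  obtain ⟨nf⟩ := exists_normForm E (toCR a l) hinj hfin V
  refine ⟨nf.m, nf.m_pos, fun T _ y k Y hY => ?_⟩
  -- a chart which is not identically zero
  obtain ⟨x₀⟩ := ‹Nonempty Ω›
  obtain ⟨s₀, w₀, hw₀⟩ := hY.2.2 x₀
  have hs₀ : ∃ w, ¬ Van a (Y s₀ w) := ⟨w₀, fun h => hw₀ (h x₀)⟩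
  obtain ⟨g, P, e', hg, hP, hprim, hco, hm⟩ := norm_rep hl nf k (Y s₀) (hY.1 s₀) hs₀
  have hfac := fun t ht => evT_factor ha0 ha hl nf y k Y hY s₀ g P hg hP hprim hm t ht
  haveI : Nonempty Ω := ⟨x₀⟩
  have hrep := repF_norm hp hl hinj hΘ nf y k Y hY s₀ hs₀ g P hg hP e' hco hm
  have hy0 : ∀ x, y x ≠ 0 := by
    intro x hx
    obtain ⟨s, w, hw⟩ := hY.2.2 x
    obtain ⟨c, hc⟩ := hY.2.1 s x
    apply hw
    rw [hc w, hx, Pi.zero_apply, mul_zero]
  -- the lower bound
  let a' : {t : Fin (d + 1) → E // t ≠ 0} → Fin (d + 1) → E := fun t => t.1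
  have ha' : ClosedF a' := fun z hz _ => ⟨⟨z, hz⟩, 1, by simp [a']⟩
  have hcoeff : ∀ (t : Fin (d + 1) → E) (α : V →₀ ℕ), (evT t P).coeff α = eval t (P.coeff α) := by
    intro t α
    rw [evT, coeff_map]
  obtain ⟨B₁, hB₁⟩ := absHeight_low (E := E) (a := a') (fun t => t.2) ha'
    (fun α : CIx V nf.m => P.coeff α.1) e' (fun α => hco α.1) (by
      rintro ⟨t, ht⟩
      obtain ⟨c, x, hc, -, hx⟩ := hfac t ht
      have hne : evT t P ≠ 0 := by
        rw [hx]
        refine mul_ne_zero (by simpa using hc) (Finset.prod_ne_zero_iff.2 fun i _ => ?_)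
        intro h0
        apply hy0 (x i)
        funext w
        have := congrArg (coeff (Finsupp.single w 1)) h0
        rw [coeff_sum, coeff_zero] at this
        simp only [coeff_C_mul, coeff_X', Finsupp.single_left_inj one_ne_zero, mul_ite, mul_one,
          mul_zero, Finset.sum_ite_eq', Finset.mem_univ, if_true] at this
        exact this
      obtain ⟨α, hα⟩ := ne_zero_iff.1 hne
      have hdeg : α ∈ Finset.finsuppAntidiag (Finset.univ : Finset V) nf.m := by
        rw [Finset.mem_finsuppAntidiag]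
        refine ⟨?_, Finset.subset_univ _⟩
        have h1 : (evT t P).IsHomogeneous nf.m := hm.map _
        have h2 := h1 hα
        rw [Finsupp.weight_apply, Finsupp.sum_fintype _ _ (by simp)] at h2
        simpa using h2
      refine ⟨⟨α, hdeg⟩, ?_⟩
      rw [← hcoeff]
      exact hα)
  obtain ⟨B₂, hB₂⟩ := absHeight_prodlin (E := E) (V := V) nf.m
  refine ⟨e', B₁ + B₂, hrep, fun t ht => ?_⟩
  obtain ⟨c, x, hc, hov, hx⟩ := hfac t ht
  refine ⟨x, hov, ?_⟩
  have h1 := hB₁ ⟨t, ht⟩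
  have h2 := hB₂ (fun i => y (x i)) fun i => hy0 (x i)
  have h3 : (fun α : CIx V nf.m => eval t (P.coeff α.1)) =
      c • fun α : CIx V nf.m =>
        (∏ i, ∑ w, C (y (x i) w) * X w : MvPolynomial V E).coeff α.1 := by
    funext α
    rw [← hcoeff, hx, coeff_C_mul, Pi.smul_apply, smul_eq_mul]
  have h4 : absHeight (fun α : CIx V nf.m => eval t (P.coeff α.1)) =
      absHeight fun α : CIx V nf.m =>
        (∏ i, ∑ w, C (y (x i) w) * X w : MvPolynomial V E).coeff α.1 := by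
    rw [h3, absHeight_smul c hc]
  change (e' : ℝ) * absHeight t ≤ absHeight (fun α : CIx V nf.m => eval t (P.coeff α.1)) + B₁ at h1
  rw [h4] at h1
  linarith

end Pool.Agent.KSF
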