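import Pool.Agent.KSF.Key
import Pool.Agent.KSF.Clos
import Pool.Agent.KSF.Gal
import Pool.Agent.Helper63.WH.Abadh
import Pool.Agent.Helper63.SAND.Cond
import Pool.Agent.Helper63.SAND.Iter
import Pool.Agent.Helper63.SAND.Seg

/-!
# KSF MAIN
-/

set_option autoImplicit false

open MvPolynomial Filter Topology
open scoped LinearAlgebra.Projectivization

namespace Pool.Agent.KSF

open Pool.Agent.Helper90.KSC Pool.Agent.Helper63.SAND Pool.Agent.Helper63.WH

theorem main {E : Type*} [Field E] [CharZero E] [Algebra.IsAlgebraic ℚ E] [IsAlgClosed E]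
    {ι : Type*} [Fintype ι] [DecidableEq ι] {N : ι → ℕ} (X : Set (PPt E N)) (hX : ZClosed X)
    (hXi : Irred X) (f : PPt E N → PPt E N) (hf : Set.MapsTo f X X)
    (hloc : LocallyByForms X f) (A : Matrix ι ι ℤ) (hA : ActsBy X f A) (δ : ℝ)
    (hδ : IsDynDegree X f δ) (d e : ℕ) (he : 1 ≤ e)
    (l : Fin (d + 1) → MvPolynomial (SIx N) E) (hl : ∀ i, (l i).IsHomogeneous e)
    (hbase : ∀ x ∈ X, ∃ i, eval (seg x) (l i) ≠ 0)
    (hsurj : ∀ t : Fin (d + 1) → E, t ≠ 0 →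
      ∃ x ∈ X, ∃ c : E, c ≠ 0 ∧ ∀ i, eval (seg x) (l i) = c * t i) :
    ∃ B : ℝ, ∀ t : Fin (d + 1) → E, t ≠ 0 → B < absHeight t →
      ∃ x ∈ X, (∃ c : E, c ≠ 0 ∧ ∀ i, eval (seg x) (l i) = c * t i) ∧
        ∀ b : ℝ, AbsArithDegree f x b → δ ≤ b := by
  classical
  rcases le_or_gt δ 1 with hδ1 | hδ1
  · refine ⟨0, fun t ht _ => ?_⟩
    obtain ⟨x, hx, hxt⟩ := hsurj t ht
    exact ⟨x, hx, hxt, fun b hb => hδ1.trans (absArithDegree_ge_one f x b hb)⟩
  obtain ⟨r, Cs, hr1, hrδ, hCs, hbad⟩ := abs_badh X f hf A hA δ hδ1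
  obtain ⟨ρ, hρ1, hρ2⟩ := exists_between hrδ
  obtain ⟨e₀, t₀, G, hG1, hG2, hG3⟩ := hloc
  let F : X → X := fun x => ⟨f x, hf x.2⟩
  have hF : ∀ (n : ℕ) (x : X), ((F^[n] x : X) : PPt E N) = f^[n] x := by
    intro n
    induction n with
    | zero => intro x; rfl
    | succ n ih =>
      intro x
      rw [Function.iterate_succ_apply, Function.iterate_succ_apply, ih (F x)]
  let a : X → SIx N → E := fun x => seg (x : PPt E N)
  have ha0 : ∀ x, a x ≠ 0 := fun x => seg_ne_zero _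
  have hne : Nonempty X := hXi.1.to_subtype
  have hp : PrimeH a := primeH_seg X hXi
  have hcl : ClosedF a := closedF_seg X hX
  have hcov : FinCover a e l := by
    refine ⟨he, hl, fun x => hbase x x.2, fun t ht => ?_⟩
    obtain ⟨x, hx, c, hc, h⟩ := hsurj t ht
    exact ⟨⟨x, hx⟩, c, hc, h⟩
  obtain ⟨c₀, Θ, hΘ⟩ := cond a hp
  obtain ⟨m, hm, hkey⟩ := key ha0 hp hcl hcov hΘ (SIx N)
  have hG : LocF a (fun x => a (F x)) e₀ G :=
    ⟨hG1, fun s x => hG2 s x x.2, fun x => hG3 x x.2⟩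
  -- the height of `t` in terms of the height of `x`
  obtain ⟨Cl, hCl⟩ := absHeight_low (E := E) ha0 hcl l e hl (fun x => hbase x x.2)
  have hover : ∀ (t : Fin (d + 1) → E) (x : X), Over a l t x →
      absHeight (a x) ≤ absHeight t + |Cl| := by
    rintro t x ⟨c, hc, h⟩
    have h1 : (fun i => eval (a x) (l i)) = c • t := by
      funext i
      rw [h i, Pi.smul_apply, smul_eq_mul]
    have h2 := hCl x
    rw [h1, absHeight_smul c hc] at h2
    have h3 : (1 : ℝ) ≤ e := by exact_mod_cast he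
    have h4 := absHeight_nonneg (a x)
    have h5 := le_abs_self Cl
    nlinarith
  -- the degrees of the iterates
  have hgrow : ∀ᶠ n : ℕ in atTop, ρ ^ n ≤ (repDegree X f^[n] : ℝ) := by
    have h1 : ∀ᶠ n : ℕ in atTop, ρ < (repDegree X f^[n] : ℝ) ^ ((1 : ℝ) / n) :=
      hδ.eventually (eventually_gt_nhds hρ2)
    filter_upwards [h1, eventually_gt_atTop 0] with n hn hn0
    have hn' : (0 : ℝ) < n := by exact_mod_cast hn0
    have h0 : (0 : ℝ) ≤ (repDegree X f^[n] : ℝ) := Nat.cast_nonneg _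
    have hρ0 : 0 ≤ ρ := by linarith
    calc ρ ^ n ≤ ((repDegree X f^[n] : ℝ) ^ ((1 : ℝ) / n)) ^ n := pow_le_pow_left₀ hρ0 hn.le n
      _ = (repDegree X f^[n] : ℝ) := by
        rw [← Real.rpow_natCast, ← Real.rpow_mul h0, one_div_mul_cancel hn'.ne', Real.rpow_one]
  have hratio : ∀ᶠ n : ℕ in atTop, (e * (m * Cs) + e + c₀ : ℝ) ≤ (ρ / r) ^ n := by
    have h1 : 1 < ρ / r := by
      rw [lt_div_iff₀ (by linarith)]
      linarith
    exact (tendsto_pow_atTop_atTop_of_one_lt h1).eventually_ge_atTop _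
  obtain ⟨n, hn1, hn2⟩ := (hgrow.and hratio).exists
  obtain ⟨e', B, hrep, hB⟩ := hkey (Fin n → Fin t₀) (fun x => a (F^[n] x)) (e₀ ^ n) (chart G n)
    (chart_locF a ha0 F e₀ G hG n)
  -- the degree of the iterate
  have hdeg : (repDegree X f^[n] : ℝ) ≤ e * e' + c₀ := by
    have h2 : RepBy X f^[n] (e * e' + c₀) := by
      obtain ⟨P, hP1, ⟨w, hP2⟩, hP3⟩ := hrep
      refine ⟨P, hP1, ?_, fun x hx => ?_⟩
      · unfold Van at hP2
        push Not at hP2
        obtain ⟨x, hx⟩ := hP2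
        exact ⟨x, x.2, w, hx⟩
      · obtain ⟨c, hc⟩ := hP3 ⟨x, hx⟩
        refine ⟨c, fun w => ?_⟩
        have h2 := hF n ⟨x, hx⟩
        have h3 := hc w
        simp only [a, h2] at h3
        exact h3
    have : repDegree X f^[n] ≤ e * e' + c₀ := Nat.sInf_le h2
    exact_mod_cast this
  have hrn : 1 ≤ r ^ n := one_le_pow₀ hr1
  have he0 : (0 : ℝ) < e := by exact_mod_cast he
  have hm0 : (0 : ℝ) ≤ m := Nat.cast_nonneg _
  have hc0 : (0 : ℝ) ≤ c₀ := Nat.cast_nonneg _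
  have hmain : m * Cs * r ^ n + 1 ≤ (e' : ℝ) := by
    have h1 : (e * (m * Cs) + e + c₀ : ℝ) * r ^ n ≤ ρ ^ n := by
      have := hn2
      rw [div_pow, le_div_iff₀ (by positivity)] at this
      exact this
    have h2 : (e : ℝ) * (m * Cs * r ^ n + 1) ≤ e * e' := by
      have h3 : (e + c₀ : ℝ) ≤ (e + c₀) * r ^ n := le_mul_of_one_le_right (by positivity) hrn
      nlinarith
    exact le_of_mul_le_mul_left h2 he0
  refine ⟨m * Cs * r ^ n * (|Cl| + 1) + B, fun t ht hBt => ?_⟩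
  by_contra! hcon
  obtain ⟨x, hx, hle⟩ := hB t ht
  have hterm : ∀ i, absHeight (a (F^[n] (x i))) ≤ Cs * r ^ n * (absHeight t + |Cl| + 1) := by
    intro i
    obtain ⟨c, hc, h⟩ := hx i
    obtain ⟨b, hb, hbδ⟩ := hcon (x i) (x i).2 ⟨c, hc, h⟩
    have h1 := hbad (x i) (x i).2 b hbδ hb n
    have h2 : absHeight (a (F^[n] (x i))) = absTotal (f^[n] (x i : PPt E N)) := by
      change absHeight (seg ((F^[n] (x i) : X) : PPt E N)) = _
      rw [hF, absHeight_seg]
    have h3 : absHeight (a (x i)) = absTotal (x i : PPt E N) := absHeight_seg _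
    have h4 := hover t (x i) (hx i)
    rw [h2]
    refine h1.trans ?_
    rw [← h3]
    gcongr
  have hsum : ∑ i, absHeight (a (F^[n] (x i))) ≤ m * (Cs * r ^ n * (absHeight t + |Cl| + 1)) := by
    refine (Finset.sum_le_sum fun i _ => hterm i).trans (le_of_eq ?_)
    rw [Finset.sum_const, Finset.card_univ, Fintype.card_fin, nsmul_eq_mul]
  have ht0 := absHeight_nonneg t
  have h5 : (m * Cs * r ^ n + 1) * absHeight t ≤ e' * absHeight t :=
    mul_le_mul_of_nonneg_right hmain ht0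
  nlinarith

end Pool.Agent.KSF
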