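import Pool.Agent.KSF.Defs

/-!
# KSF NDVD: a divisibility for norm forms

Write `φ H = ∑ s, r s * (∑ w, φ (u w) * Y s w)` (`Ideal.mem_span_range_iff_exists_fun`) and
`y' w = ∑ s, r s * Y s w`, `q = ∑ w, φ (u w) * Y s₀ w`. By `hY`:
`q * y' w = φ H * Y s₀ w` for all `w`. By `nf.smul` and `nf.nrm_alg`
`C (nf.nrm q) * nf.N y' = C (H ^ nf.m) * nf.N (Y s₀) = C (H ^ nf.m * g) * P`, and
`nf.nrm q = eval u (nf.N (Y s₀)) = g * eval u P` by `nf.eval_eq`. Cancel `C g ≠ 0`:
`C (eval u P) * nf.N y' = C (H ^ nf.m) * P`; compare coefficients and use `Prim P`.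
-/

set_option autoImplicit false

open MvPolynomial

namespace Pool.Agent.KSF

theorem ndvd {A R : Type*} [CommRing A] [IsDomain A] [CommRing R] (φ : A →+* R)
    {V : Type*} [Fintype V] (nf : NormForm φ V) {T : Type*} [Fintype T] (Y : T → V → R)
    (hY : ∀ s s' w w', Y s w * Y s' w' = Y s w' * Y s' w) (s₀ : T) (g : A) (hg : g ≠ 0)
    (P : MvPolynomial V A) (hP : nf.N (Y s₀) = C g * P) (hprim : Prim P) (u : V → A) (H : A)
    (hH : φ H ∈ Ideal.span (Set.range fun s => ∑ w, φ (u w) * Y s w)) :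
    eval u P ∣ H ^ nf.m := by
  obtain ⟨r, hr⟩ := Ideal.mem_span_range_iff_exists_fun.1 hH
  set y' : V → R := fun w => ∑ s, r s * Y s w with hy'
  set q : R := ∑ w, φ (u w) * Y s₀ w with hq
  have h1 : (fun w => q * y' w) = fun w => φ H * Y s₀ w := by
    funext w
    rw [hq, hy', ← hr, Finset.sum_mul_sum, Finset.sum_mul, Finset.sum_comm]
    refine Finset.sum_congr rfl fun s _ => ?_
    rw [Finset.mul_sum, Finset.sum_mul]
    refine Finset.sum_congr rfl fun w' _ => ?_
    linear_combination (φ (u w') * r s) * hY s₀ s w' w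
  have h2 : C (nf.nrm q) * nf.N y' = C (H ^ nf.m) * nf.N (Y s₀) := by
    have h3 := nf.smul q y'
    have h4 := nf.smul (φ H) (Y s₀)
    rw [← h3, h1, h4, nf.nrm_alg]
  have h5 : nf.nrm q = g * eval u P := by
    rw [hq, ← nf.eval_eq (Y s₀) u, hP, map_mul, eval_C]
  have h6 : C (eval u P) * nf.N y' = C (H ^ nf.m) * P := by
    have hCg : (C g : MvPolynomial V A) ≠ 0 := by
      rw [Ne, C_eq_zero]; exact hg
    apply mul_left_cancel₀ hCg
    rw [h5, hP, C_mul] at h2
    linear_combination h2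
  refine hprim _ _ fun α => ?_
  have h7 := congrArg (coeff α) h6
  rw [coeff_C_mul, coeff_C_mul] at h7
  exact ⟨_, h7.symm⟩

end Pool.Agent.KSF
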