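import Pool.Agent.KSF.Defs
import Pool.Agent.KSF.Intp

/-!
# KSF NORM: existence of the norm forms

`F = FractionRing A`, `L = FractionRing R`, `Algebra A R` from `φ` (`RingHom.toAlgebra`), `L` is a
finite extension of `F` (see the first lines of `cond_alg` in `Helper63/SAND/Cond.lean`), `b` a basis of
`L` over `F` indexed by `Fin m`, `m = finrank F L ≥ 1`, `M z = Algebra.leftMulMatrix b z`.
For `y : V → L` put `NF y = det (∑ w, X w • (M (y w)).map C) ∈ F[X_w]`. Then:
* `NF y` is homogeneous of degree `m` (determinant of a matrix of linear forms);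
* `eval u (NF y) = det (M (∑ u w • y w)) = Algebra.norm F (∑ u w • y w)` for `u : V → F`;
* `NF (fun w => z * y w) = C (Algebra.norm F z) * NF y` (`M` is multiplicative);
* integrality: for `y : V → R` the values `eval u (NF y)` at `u : V → E` are norms of integral
  elements, hence in `A` (`Algebra.isIntegral_norm`, `IsIntegrallyClosed`), so by `exists_map_eq` (KSF
  INTP) `NF y = map (algebraMap A F) (N y)` for a unique `N y`; `nrm` is defined in the same way from
  `Algebra.norm`.
* `vanish`: over `L`, the vector `β j = b j` satisfies `β ᵥ* (M z).map (algebraMap F L) = z • β`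
  (`Algebra.leftMulMatrix`: `z * b j = ∑ i, M z i j • b i`), so if `∑ r w * y w = 0` then
  `β ᵥ* (∑ w, r w • M (y w)) = 0` with `β ≠ 0`, the determinant is `0`
  (`Matrix.exists_vecMul_eq_zero_iff`), and it is the value of `N y` at `r`.
* `nrm_equiv`: `σ, τ` extend to the fraction fields; `Algebra.norm_eq_of_equiv_equiv` (or
  `Algebra.norm_eq_of_ringEquiv`, `Algebra.norm_eq_of_algEquiv`).
-/

set_option autoImplicit false

open MvPolynomial

namespace Pool.Agent.KSF


section Field

variable {F L : Type*} [Field F] [Field L] [Algebra F L] [FiniteDimensional F L]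
  {V : Type*} [Fintype V]

/-- the norm form over the fields -/
noncomputable def nfF (F : Type*) {L : Type*} [Field F] [Field L] [Algebra F L]
    [FiniteDimensional F L] {V : Type*} [Fintype V] (y : V → L) : MvPolynomial V F :=
  Matrix.det (∑ w, (X w : MvPolynomial V F) •
    (Algebra.leftMulMatrix (Module.finBasis F L) (y w)).map (C : F →+* MvPolynomial V F))

theorem nfF_hom (y : V → L) : (nfF F y).IsHomogeneous (Module.finrank F L) := by
  unfold nfF
  rw [Matrix.det_apply]
  refine IsHomogeneous.sum _ _ _ fun σ _ => ?_
  have h1 : (∏ i, (∑ w, (X w : MvPolynomial V F) •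
    (Algebra.leftMulMatrix (Module.finBasis F L) (y w)).map (C : F →+* MvPolynomial V F))
      (σ i) i).IsHomogeneous (∑ _i : Fin (Module.finrank F L), 1) := by
    refine IsHomogeneous.prod _ _ _ fun i _ => ?_
    rw [Matrix.sum_apply]
    refine IsHomogeneous.sum _ _ _ fun w _ => ?_
    rw [Matrix.smul_apply, Matrix.map_apply, smul_eq_mul]
    exact (isHomogeneous_X F w).mul (isHomogeneous_C V _)
  rw [Finset.sum_const, Finset.card_univ, Fintype.card_fin, smul_eq_mul, mul_one] at h1
  rcases Int.units_eq_one_or (Equiv.Perm.sign σ) with h | h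
  · rw [h, one_smul]; exact h1
  · rw [h, Units.neg_smul, one_smul]; exact h1.neg

theorem nfF_map {S : Type*} [CommRing S] (f : MvPolynomial V F →+* S) (y : V → L) :
    f (nfF F y) = Matrix.det (∑ w, f (X w) •
      (Algebra.leftMulMatrix (Module.finBasis F L) (y w)).map (fun c => f (C c))) := by
  unfold nfF
  rw [RingHom.map_det]
  congr 1
  ext i j
  simp only [RingHom.mapMatrix_apply, Matrix.map_apply, Matrix.sum_apply, Matrix.smul_apply,
    smul_eq_mul, map_sum, map_mul]

theorem nfF_eval (y : V → L) (u : V → F) :
    eval u (nfF F y) = Algebra.norm F (∑ w, algebraMap F L (u w) * y w) := by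
  rw [nfF_map, Algebra.norm_eq_matrix_det (Module.finBasis F L)]
  congr 1
  rw [map_sum]
  refine Finset.sum_congr rfl fun w _ => ?_
  rw [← Algebra.smul_def, map_smul, eval_X]
  ext i j
  simp

theorem nfF_smul (z : L) (y : V → L) :
    nfF F (fun w => z * y w) = C (Algebra.norm F z) * nfF F y := by
  unfold nfF
  rw [Algebra.norm_eq_matrix_det (Module.finBasis F L), RingHom.map_det, ← Matrix.det_mul]
  congr 1
  rw [Finset.mul_sum]
  refine Finset.sum_congr rfl fun w _ => ?_
  rw [map_mul, Matrix.map_mul, Matrix.mul_smul]
  rfl

theorem nfF_vanish (y r : V → L) (h : ∑ w, r w * y w = 0) :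
    eval₂ (algebraMap F L) r (nfF F y) = 0 := by
  have h1 : eval₂ (algebraMap F L) r (nfF F y) = Matrix.det (∑ w, r w •
      (Algebra.leftMulMatrix (Module.finBasis F L) (y w)).map (algebraMap F L)) := by
    rw [← coe_eval₂Hom, nfF_map]
    simp
  rw [h1, ← Matrix.exists_vecMul_eq_zero_iff]
  refine ⟨fun j => Module.finBasis F L j, ?_, ?_⟩
  · intro h2
    have hpos : 0 < Module.finrank F L := Module.finrank_pos
    exact (Module.finBasis F L).ne_zero ⟨0, hpos⟩ (congrFun h2 ⟨0, hpos⟩)
  · rw [Matrix.vecMul_sum]
    have h3 : ∀ w, Matrix.vecMul (fun j => Module.finBasis F L j)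
        (r w • (Algebra.leftMulMatrix (Module.finBasis F L) (y w)).map (algebraMap F L)) =
        (r w * y w) • (fun j => (Module.finBasis F L j : L)) := by
      intro w
      rw [Matrix.vecMul_smul, mul_smul]
      congr 1
      ext j
      rw [Matrix.vecMul, dotProduct, Pi.smul_apply, smul_eq_mul]
      conv_rhs => rw [← (Module.finBasis F L).sum_repr (y w * Module.finBasis F L j)]
      refine Finset.sum_congr rfl fun i _ => ?_
      rw [Matrix.map_apply, Algebra.leftMulMatrix_eq_repr_mul, Algebra.smul_def, mul_comm]
    rw [Finset.sum_congr rfl fun w _ => h3 w, ← Finset.sum_smul, h, zero_smul]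

end Field

section Aux

theorem exists_normForm_aux (E : Type*) [Field E] [Infinite E] {A R : Type*} [CommRing A]
    [IsDomain A] [IsIntegrallyClosed A] [Algebra E A] [CommRing R] [IsDomain R]
    [Algebra A R] [Module.Finite A R] (F L : Type*) [Field F] [Field L] [Algebra A F]
    [IsFractionRing A F] [Algebra R L] [IsFractionRing R L] [Algebra F L] [Algebra A L]
    [IsScalarTower A F L] [IsScalarTower A R L] [FiniteDimensional F L] [Algebra E F]
    [IsScalarTower E A F] (V : Type*) [Fintype V] :
    Nonempty (NormForm (algebraMap A R) V) := by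
  classical
  have hAF : Function.Injective (algebraMap A F) := IsFractionRing.injective A F
  have hRL : Function.Injective (algebraMap R L) := IsFractionRing.injective R L
  have : Algebra.IsIntegral A R := inferInstance
  have h0 : ∀ b : R, ∃ c : A, algebraMap A F c = Algebra.norm F (algebraMap R L b) := by
    intro b
    have h1 : IsIntegral A (algebraMap R L b) :=
      (Algebra.IsIntegral.isIntegral (R := A) b).algebraMap
    have h2 : IsIntegral A (Algebra.norm F (algebraMap R L b)) := Algebra.isIntegral_norm F h1
    exact IsIntegrallyClosed.isIntegral_iff.1 h2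
  choose nrm hnrm using h0
  have hsum : ∀ (y : V → R) (u : V → A),
      ∑ w, algebraMap F L (algebraMap A F (u w)) * algebraMap R L (y w) =
        algebraMap R L (∑ w, algebraMap A R (u w) * y w) := by
    intro y u
    rw [map_sum]
    refine Finset.sum_congr rfl fun w _ => ?_
    rw [map_mul, ← IsScalarTower.algebraMap_apply A F L, ← IsScalarTower.algebraMap_apply A R L]
  have h3 : ∀ y : V → R, ∃ q : MvPolynomial V A,
      MvPolynomial.map (algebraMap A F) q = nfF F (fun w => algebraMap R L (y w)) := by
    intro y
    refine exists_map_eq E _ fun u => ?_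
    refine ⟨nrm (∑ w, algebraMap A R (algebraMap E A (u w)) * y w), ?_⟩
    rw [nfF_eval, hnrm, ← hsum]
    simp only [← IsScalarTower.algebraMap_apply E A F]
  choose N hN using h3
  refine ⟨⟨Module.finrank F L, nrm, N, Module.finrank_pos, ?_, ?_, ?_, ?_, ?_, ?_, ?_, ?_⟩⟩
  · intro b c
    apply hAF
    rw [map_mul, hnrm, hnrm, hnrm, map_mul, map_mul]
  · intro b hb h
    have h1 := hnrm b
    rw [h, map_zero] at h1
    have h2 := Algebra.norm_eq_zero_iff.1 h1.symm
    exact hb (hRL (by rw [h2, map_zero]))
  · intro c
    apply hAF
    rw [hnrm, map_pow, ← IsScalarTower.algebraMap_apply A R L,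
      IsScalarTower.algebraMap_apply A F L, Algebra.norm_algebraMap]
  · intro σ τ hστ b
    apply hAF
    rw [hnrm]
    have he : RingHom.comp (algebraMap F L)
        ((IsFractionRing.ringEquivOfRingEquiv τ : F ≃+* F) : F →+* F) =
        RingHom.comp ((IsFractionRing.ringEquivOfRingEquiv σ : L ≃+* L) : L →+* L)
          (algebraMap F L) := by
      apply IsLocalization.ringHom_ext (nonZeroDivisors A)
      ext a
      simp only [RingHom.comp_apply, RingHom.coe_coe]
      rw [IsFractionRing.ringEquivOfRingEquiv_algebraMap,
        ← IsScalarTower.algebraMap_apply A F L, ← IsScalarTower.algebraMap_apply A F L,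
        IsScalarTower.algebraMap_apply A R L, IsScalarTower.algebraMap_apply A R L,
        IsFractionRing.ringEquivOfRingEquiv_algebraMap, hστ]
    have h1 := Algebra.norm_eq_of_equiv_equiv
      (IsFractionRing.ringEquivOfRingEquiv τ : F ≃+* F)
      (IsFractionRing.ringEquivOfRingEquiv σ : L ≃+* L) he (algebraMap R L b)
    rw [IsFractionRing.ringEquivOfRingEquiv_algebraMap] at h1
    rw [← hnrm b] at h1
    rw [← IsFractionRing.ringEquivOfRingEquiv_algebraMap (K := F) (L := F) τ (nrm b), h1,
      RingEquiv.apply_symm_apply]
  · intro y β hβ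
    have h1 : coeff β (nfF F (fun w => algebraMap R L (y w))) ≠ 0 := by
      rw [← hN, coeff_map]
      intro h
      exact hβ (hAF (by rw [h, map_zero]))
    exact nfF_hom _ h1
  · intro b y
    apply map_injective _ hAF
    rw [hN, map_mul, map_C, hN, hnrm, ← nfF_smul]
    congr 1
    funext w
    rw [map_mul]
  · intro y u
    apply hAF
    rw [hnrm, ← hsum, ← nfF_eval (fun w => algebraMap R L (y w))
      (fun w => algebraMap A F (u w)), ← hN, eval_map]
    have h1 := eval₂_comp_left (algebraMap A F) (RingHom.id A) u (N y)
    rw [RingHom.comp_id] at h1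
    exact h1
  · intro y r h
    apply hRL
    rw [eval₂_comp_left, map_zero, ← IsScalarTower.algebraMap_eq A R L,
      IsScalarTower.algebraMap_eq A F L, ← eval₂_map, hN]
    apply nfF_vanish
    have h1 := congrArg (algebraMap R L) h
    rw [map_sum, map_zero] at h1
    simpa only [map_mul, Function.comp_apply] using h1

end Aux

attribute [local instance] FractionRing.liftAlgebra FractionRing.isScalarTower_liftAlgebra

theorem exists_normForm (E : Type*) [Field E] [Infinite E] {A R : Type*} [CommRing A]
    [IsDomain A] [IsIntegrallyClosed A] [Algebra E A] [CommRing R] [IsDomain R] (φ : A →+* R)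
    (hφ : Function.Injective φ) (hfin : φ.Finite) (V : Type*) [Fintype V] :
    Nonempty (NormForm φ V) := by
  algebraize [φ]
  have hinj : Function.Injective (algebraMap A R) := hφ
  have : FaithfulSMul A R := (faithfulSMul_iff_algebraMap_injective _ _).2 hinj
  have : Module.Finite A R := hfin
  have : Algebra.IsIntegral A R := inferInstance
  have : FaithfulSMul A (FractionRing R) := by
    rw [faithfulSMul_iff_algebraMap_injective,
      IsScalarTower.algebraMap_eq A R (FractionRing R)]
    exact (IsFractionRing.injective R (FractionRing R)).comp hinj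
  have : Module.IsTorsionFree A R := inferInstance
  have : IsLocalization (Algebra.algebraMapSubmonoid R (nonZeroDivisors A))
      (FractionRing R) := inferInstance
  have : FiniteDimensional (FractionRing A) (FractionRing R) :=
    .of_isLocalization A R (nonZeroDivisors A)
  exact exists_normForm_aux E (FractionRing A) (FractionRing R) V

end Pool.Agent.KSF
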