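import Pool.Agent.KSF.Defs

/-!
# KSF NULL: the projective Nullstellensatz for a closed family

Put `I = coneI a ⊔ span (range Φ)`. A nonzero common zero `z` of `I` is `c • a x` by `ClosedF`
(`mem_coneI`), `c ≠ 0`, and `eval z (Φ j) = c ^ k j * eval (a x) (Φ j)` (`eval_smul_form`), which is
not zero for some `j` by `h0`. So `X w` vanishes on `zeroLocus I`, and `X w ^ r ∈ I` by
`MvPolynomial.vanishingIdeal_zeroLocus_eq_radical`. For `M ≥ r`, write
`X w ^ M = p + ∑ j, b j * Φ j` with `p ∈ coneI a` and take the homogeneous component of degree `M`: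
`g j = homogeneousComponent (M - k j) (b j)` (`component_mem_coneI`, `van_of_mem_coneI`). `M₀` is the
maximum of the `r` for all `w` and of the `k j`.
-/

set_option autoImplicit false

open MvPolynomial

namespace Pool.Agent.KSF

open Pool.Agent.Helper63.SAND

section

attribute [local instance] MvPolynomial.gradedAlgebra

theorem null_component_mul {E W : Type*} [Field E] {P Q : MvPolynomial W E} {i n : ℕ}
    (hQ : Q.IsHomogeneous i) (h : i ≤ n) :
    homogeneousComponent n (P * Q) = homogeneousComponent (n - i) P * Q := by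
  have h1 := DirectSum.coe_decompose_mul_of_right_mem_of_le (𝒜 := homogeneousSubmodule W E)
    (a := P) ((mem_homogeneousSubmodule i Q).2 hQ) h
  have e1 : ((DirectSum.decompose (homogeneousSubmodule W E) (P * Q) n :
      homogeneousSubmodule W E n) : MvPolynomial W E) = homogeneousComponent n (P * Q) :=
    decomposition.decompose'_apply (P * Q) n
  have e2 : ((DirectSum.decompose (homogeneousSubmodule W E) P (n - i) :
      homogeneousSubmodule W E (n - i)) : MvPolynomial W E) = homogeneousComponent (n - i) P :=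
    decomposition.decompose'_apply P (n - i)
  rw [← e1, ← e2]
  exact h1

end

theorem null {E : Type*} [Field E] [IsAlgClosed E] {Ω W : Type*} [Finite W] {a : Ω → W → E}
    (ha : ClosedF a) {J : Type*} [Fintype J] (Φ : J → MvPolynomial W E) (k : J → ℕ)
    (hΦ : ∀ j, (Φ j).IsHomogeneous (k j)) (h0 : ∀ x, ∃ j, eval (a x) (Φ j) ≠ 0) :
    ∃ M₀ : ℕ, (∀ j, k j ≤ M₀) ∧ ∀ M, M₀ ≤ M → ∀ w : W, ∃ g : J → MvPolynomial W E,
      (∀ j, (g j).IsHomogeneous (M - k j)) ∧ Van a (X w ^ M - ∑ j, g j * Φ j) := by
  classical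
  obtain ⟨I, hI⟩ : ∃ I : Ideal (MvPolynomial W E), I = coneI a ⊔ Ideal.span (Set.range Φ) :=
    ⟨_, rfl⟩
  have key : ∀ w : W, ∃ r : ℕ, (X w : MvPolynomial W E) ^ r ∈ I := by
    intro w
    have h1 : (X w : MvPolynomial W E) ∈ vanishingIdeal E (zeroLocus E I) := by
      rw [mem_vanishingIdeal_iff]
      intro z hz
      rw [mem_zeroLocus_iff] at hz
      by_contra hne
      rw [aeval_X] at hne
      have hz0 : z ≠ 0 := by
        rintro rfl
        exact hne rfl
      have hz' : ∀ p ∈ I, eval z p = 0 := by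
        intro p hp
        have h2 := hz p hp
        rwa [← coe_aeval_eq_eval]
      obtain ⟨x, c, hzc⟩ := ha z hz0 (fun k P hP hv => hz' P (by
        rw [hI]; exact Ideal.mem_sup_left (mem_coneI hP hv)))
      obtain ⟨j, hj⟩ := h0 x
      have h2 := hz' (Φ j) (by
        rw [hI]; exact Ideal.mem_sup_right (Ideal.subset_span ⟨j, rfl⟩))
      rw [hzc, eval_smul_form (hΦ j)] at h2
      have hc : c ≠ 0 := by
        rintro rfl
        exact hz0 (by rw [hzc, zero_smul])
      rcases mul_eq_zero.1 h2 with h3 | h3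
      · exact pow_ne_zero (k j) hc h3
      · exact hj h3
    rw [vanishingIdeal_zeroLocus_eq_radical] at h1
    exact h1
  choose r hr using key
  obtain ⟨Mr, hMr⟩ : ∃ M, ∀ w, r w ≤ M := by
    obtain ⟨M, hM⟩ := (Set.finite_range r).bddAbove
    exact ⟨M, fun w => hM ⟨w, rfl⟩⟩
  obtain ⟨Mk, hMk⟩ : ∃ M, ∀ j, k j ≤ M := by
    obtain ⟨M, hM⟩ := (Set.finite_range k).bddAbove
    exact ⟨M, fun w => hM ⟨w, rfl⟩⟩
  refine ⟨max Mr Mk, fun j => (hMk j).trans (le_max_right _ _), fun M hM w => ?_⟩
  have h1 : (X w : MvPolynomial W E) ^ M ∈ I :=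
    Ideal.pow_mem_of_pow_mem I (hr w) ((hMr w).trans ((le_max_left _ _).trans hM))
  rw [hI, Submodule.mem_sup] at h1
  obtain ⟨p, hp, q, hq, hpq⟩ := h1
  obtain ⟨b, hb⟩ := Ideal.mem_span_range_iff_exists_fun.1 hq
  refine ⟨fun j => homogeneousComponent (M - k j) (b j),
    fun j => homogeneousComponent_isHomogeneous _ _, ?_⟩
  have h2 : homogeneousComponent M ((X w : MvPolynomial W E) ^ M) = X w ^ M := by
    have h3 : (X w : MvPolynomial W E) ^ M ∈ homogeneousSubmodule W E M := by
      rw [mem_homogeneousSubmodule]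
      simpa using (isHomogeneous_X E w).pow M
    rw [homogeneousComponent_of_mem h3, if_pos rfl]
  have h3 : ∀ j, homogeneousComponent M (b j * Φ j)
      = homogeneousComponent (M - k j) (b j) * Φ j := fun j =>
    null_component_mul (hΦ j) ((hMk j).trans ((le_max_right _ _).trans hM))
  have h4 : (X w : MvPolynomial W E) ^ M - ∑ j, homogeneousComponent (M - k j) (b j) * Φ j
      = homogeneousComponent M p := by
    rw [← h2, ← hpq, ← hb, map_add, map_sum, add_sub_assoc]
    simp only [h3, sub_self, add_zero]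
  rw [h4]
  exact van_of_mem_coneI (component_mem_coneI hp M)

end Pool.Agent.KSF
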